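import Pool.Agent.H487.NZ.Rl
import Pool.Agent.H487.NB.Zero

/-!
# The heat flow to the right of the critical strip, and crude bounds
-/

set_option autoImplicit false

open MeasureTheory Set Filter Topology
open scoped ComplexConjugate

namespace Pool.Agent.H487.NZ

open NB

/-- the point `1/2 + u + i (y + v)` -/
noncomputable def pt (y u v : ℝ) : ℂ := 1 / 2 + u + (y + v : ℝ) * Complex.I

@[simp] lemma pt_re (y u v : ℝ) : (pt y u v).re = 1 / 2 + u := by simp [pt]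
@[simp] lemma pt_im (y u v : ℝ) : (pt y u v).im = y + v := by simp [pt]

lemma pt_eq (y : ℝ) (z : ℂ) : z = pt y (z.re - 1 / 2) (z.im - y) := by
  apply Complex.ext <;> simp

/-- what we use about a completed L-function near height `y`; `ℓ` is half the logarithm of the
conductor -/
structure Base (X : ℂ → ℂ) (a K M ℓ y : ℝ) : Prop where
  diff : Differentiable ℂ X
  slow : SlowGrowth X
  fe : ∃ ε : ℂ, ‖ε‖ = 1 ∧ ∀ s, X s = ε * conj (X (1 - conj s))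
  ha : 0 < a
  hK : 1 ≤ K
  hM : 0 < M
  up : ∀ u v : ℝ, ‖X (pt y u v)‖ ≤ M * Real.exp (ℓ * max |u| a + K * (1 + u ^ 2 + v ^ 2))
  lo : ∀ u v : ℝ, a ≤ u → M * Real.exp (ℓ * u - K * (1 + u ^ 2 + v ^ 2)) ≤ ‖X (pt y u v)‖
  lg : ∀ z : ℂ, 1 / 2 + a ≤ z.re → ‖logDeriv X z - ℓ‖ ≤ K * (1 + |z.re| + |z.im - y|)
  lip : ∀ z w : ℂ, 1 / 2 + a ≤ z.re → 1 / 2 + a ≤ w.re → ‖logDeriv X z - logDeriv X w‖ ≤ K * ‖z - w‖

variable {X : ℂ → ℂ} {a K M ℓ y : ℝ}

lemma Base.ne (B : Base X a K M ℓ y) {z : ℂ} (hz : 1 / 2 + a ≤ z.re) : X z ≠ 0 := by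
  have h := B.lo (z.re - 1 / 2) (z.im - y) (by linarith)
  rw [← pt_eq] at h
  have := B.hM
  have h2 : 0 < ‖X z‖ := lt_of_lt_of_le (by positivity) h
  exact norm_pos_iff.mp h2

lemma thet_tend (ω κ : ℝ) : Tendsto (fun t : ℝ => thet t ω κ) (𝓝[>] 0) (𝓝 0) := by
  have h1 : Continuous fun t : ℝ => thet t ω κ := by
    unfold thet
    fun_prop
  have h2 : thet 0 ω κ = 0 := by simp [thet]
  have h3 := (h1.tendsto 0).mono_left (nhdsWithin_le_nhds (s := Ioi (0 : ℝ)))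
  rwa [h2] at h3

lemma thet_small (ω κ : ℝ) {ϑ : ℝ} (hϑ : 0 < ϑ) : ∃ t₀ : ℝ, 0 < t₀ ∧ ∀ t, 0 < t → t ≤ t₀ → thet t ω κ ≤ ϑ := by
  have h := (thet_tend ω κ).eventually (ge_mem_nhds hϑ)
  rw [eventually_nhdsWithin_iff, Metric.eventually_nhds_iff] at h
  obtain ⟨δ, hδ, h⟩ := h
  refine ⟨δ / 2, by positivity, fun t ht htδ => h ?_ ht⟩
  rw [dist_zero_right, Real.norm_of_nonneg ht.le]
  linarith

/-- the real inequality in the left part -/
lemma ineq_left {q τ T₀ τ₀ x X' a K R A : ℝ} (hq : 2 * K ≤ q) (hK : 1 ≤ K) (hτ₀ : 0 < τ₀) (hτ : τ₀ ≤ τ) (hT : τ ≤ T₀)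
    (ha : 0 < a) (hX : a + T₀ ≤ X') (hR : X' ≤ R) (hx : X' + x < a) :
    16 * q * τ * max |X' + x| a + K * (1 + (X' + x) ^ 2 + A ^ 2) - 8 * q * x ^ 2 ≤
      (16 * q * τ * (X' + τ) - K * (1 + (X' + τ) ^ 2 + A ^ 2) - 8 * q * τ ^ 2) - 2 * q * (x - τ) ^ 2 +
        (K * (2 + 2 * A ^ 2 + 2 * R ^ 2 + (R + T₀) ^ 2) - 16 * q * τ * τ₀) := by
  have hq0 : 0 < q := by linarith
  have hτ0 : 0 < τ := by linarith
  have hx0 : x < 0 := by linarith
  have hK1 : (X' + x) ^ 2 ≤ 2 * R ^ 2 + 2 * x ^ 2 := by nlinarith [sq_nonneg (X' - x)]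
  have hK2 : (X' + τ) ^ 2 ≤ (R + T₀) ^ 2 := by nlinarith
  have hK3 : K * (1 + (X' + x) ^ 2 + A ^ 2) + K * (1 + (X' + τ) ^ 2 + A ^ 2) ≤
      K * (2 + 2 * A ^ 2 + 2 * R ^ 2 + (R + T₀) ^ 2) + 2 * K * x ^ 2 := by nlinarith
  have hK4 : 2 * K * x ^ 2 ≤ q * x ^ 2 := by nlinarith [sq_nonneg x]
  have key : 16 * τ * max |X' + x| a - 8 * x ^ 2 + x ^ 2 ≤ 16 * τ * (X' + τ) - 8 * τ ^ 2 - 2 * (x - τ) ^ 2 - 16 * τ * τ₀ := by
    rcases le_total |X' + x| a with h | h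
    · rw [max_eq_right h]
      nlinarith [sq_nonneg (x + τ), mul_nonneg hτ0.le (by linarith : (0:ℝ) ≤ X' - a - τ₀)]
    · rw [max_eq_left h]
      have h2 : |X' + x| = -(X' + x) := by
        apply abs_of_nonpos
        by_contra hcon
        push Not at hcon
        rw [abs_of_pos hcon] at h
        linarith
      rw [h2]
      nlinarith [sq_nonneg (x + 2 * τ), mul_nonneg hτ0.le (by linarith : (0:ℝ) ≤ X' - τ), mul_nonneg hτ0.le (by linarith : (0:ℝ) ≤ τ - τ₀)]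
  have key2 := mul_le_mul_of_nonneg_left key hq0.le
  nlinarith

/-- **the heat flow to the right of the critical strip** -/
theorem h1 (a K A R T₀ τ₀ : ℝ) (hτ₀ : 0 < τ₀) {ϑ : ℝ} (hϑ : 0 < ϑ) :
    ∃ ℓ₀ : ℝ, 1 ≤ ℓ₀ ∧ ∀ (X : ℂ → ℂ) (M ℓ y : ℝ), Base X a K M ℓ y → ℓ₀ ≤ ℓ → ∀ τ : ℝ, τ₀ ≤ τ → τ ≤ T₀ →
      ∀ u v : ℝ, a + T₀ ≤ u → u ≤ R → |v| ≤ A →
      ‖heat (τ / (2 * ℓ)) X (pt y u v) - X (pt y (u + τ) v) * ((Real.exp (-(τ * ℓ / 2)) : ℝ) : ℂ)‖ ≤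
        ϑ * (‖X (pt y (u + τ) v)‖ * Real.exp (-(τ * ℓ / 2))) := by
  by_cases hTT : τ₀ ≤ T₀
  swap
  · exact ⟨1, le_rfl, fun X M ℓ y B hℓ τ h1 h2 => absurd (h1.trans h2) hTT⟩
  set ω : ℝ := |K| * (1 + (1 / 2 + R + T₀) + A) with hω
  obtain ⟨t₀, ht₀, htt⟩ := thet_small |ω| |K| (half_pos hϑ)
  set K₁ : ℝ := K * (2 + 2 * A ^ 2 + 2 * R ^ 2 + (R + T₀) ^ 2) with hK₁
  -- thresholds
  obtain ⟨L1, hL1⟩ : ∃ L1 : ℝ, ∀ ℓ, L1 ≤ ℓ → Real.exp (|K₁| - τ₀ * ℓ) ≤ ϑ / 4 := by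
    refine ⟨(|K₁| - Real.log (ϑ / 4)) / τ₀, fun ℓ hℓ => ?_⟩
    rw [div_le_iff₀ hτ₀] at hℓ
    rw [← Real.le_log_iff_exp_le (by positivity)]
    linarith
  refine ⟨max 1 (max L1 (max (T₀ / (2 * t₀)) (32 * |K| * T₀ + 1))), le_max_left _ _,
    fun X M ℓ y B hℓ τ hτ hτT u v hu huR hv => ?_⟩
  have hK := B.hK
  have hM := B.hM
  have ha := B.ha
  have hKabs : |K| = K := abs_of_pos (by linarith)
  have hℓ1 : 1 ≤ ℓ := (le_max_left _ _).trans hℓ
  have hℓL : L1 ≤ ℓ := ((le_max_left _ _).trans (le_max_right _ _)).trans hℓ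
  have hℓt : T₀ / (2 * t₀) ≤ ℓ := ((le_max_left _ _).trans ((le_max_right _ _).trans (le_max_right _ _))).trans hℓ
  have hℓK : 32 * |K| * T₀ + 1 ≤ ℓ := ((le_max_right _ _).trans ((le_max_right _ _).trans (le_max_right _ _))).trans hℓ
  rw [hKabs] at hℓK
  have hτ0 : 0 < τ := by linarith
  have hT0 : 0 < T₀ := by linarith
  have hA0 : 0 ≤ A := (abs_nonneg v).trans hv
  set t : ℝ := τ / (2 * ℓ) with ht
  have ht0 : 0 < t := by positivity
  have htt0 : t ≤ t₀ := by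
    rw [div_le_iff₀ (by positivity)] at hℓt
    rw [ht, div_le_iff₀ (by positivity)]
    nlinarith
  set q : ℝ := ℓ / (16 * τ) with hq
  have hqK : 2 * K ≤ q := by
    rw [hq, le_div_iff₀ (by positivity)]
    nlinarith
  have hq0 : 0 < q := by positivity
  have hℓq : ℓ = 16 * q * τ := by rw [hq]; field_simp
  have e4 : ∀ x : ℝ, x / (4 * t) = 8 * q * x := fun x => by rw [ht, hq]; field_simp; ring
  have e16 : ∀ x : ℝ, x / (16 * t) = 2 * q * x := fun x => by rw [ht, hq]; field_simp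
  set z : ℂ := pt y u v with hz
  have hzx : ∀ x : ℝ, z + x = pt y (u + x) v := fun x => by
    simp only [hz, pt]; push_cast; ring
  set f : ℝ → ℂ := fun x => X (z + x) with hf
  set g : ℝ → ℂ := fun x => logDeriv X (z + x) with hg
  set I : Set ℝ := Ici (a - u) with hI
  have hre : ∀ x ∈ I, 1 / 2 + a ≤ (z + (x : ℂ)).re := fun x hx => by
    have : a - u ≤ x := hx
    rw [hzx, pt_re]; linarith
  have hder : ∀ x ∈ I, HasDerivAt f (f x * g x) x := fun x hx => by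
    have h2 : HasDerivAt (fun x : ℝ => z + (x : ℂ)) 1 x := by
      simpa using (Complex.ofRealCLM.hasDerivAt (x := x)).const_add z
    have h3 := (B.diff (z + x)).hasDerivAt.scomp x h2
    rw [one_smul] at h3
    refine h3.congr_deriv ?_
    simp only [hf, hg, logDeriv_apply]
    rw [mul_div_cancel₀ _ (B.ne (hre x hx))]
  have hlip : ∀ x ∈ I, ∀ w ∈ I, ‖g x - g w‖ ≤ K * |x - w| := fun x hx w hw => by
    have h2 := B.lip _ _ (hre x hx) (hre w hw)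
    have e : z + (x : ℂ) - (z + (w : ℂ)) = ((x - w : ℝ) : ℂ) := by push_cast; ring
    rwa [e, Complex.norm_real, Real.norm_eq_abs] at h2
  have hτI : τ ∈ I := by
    show a - u ≤ τ
    linarith
  have hgτ : ‖g τ - (((τ - 0) / (2 * t) : ℝ) : ℂ)‖ ≤ |ω| := by
    have e : (τ - 0) / (2 * t) = ℓ := by rw [ht]; field_simp; ring
    rw [e]
    refine (B.lg _ (hre τ hτI)).trans ?_
    refine le_trans ?_ (le_abs_self ω)
    rw [hω, hKabs, hzx, pt_re, pt_im, add_sub_cancel_left]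
    have h2 : |1 / 2 + (u + τ)| ≤ 1 / 2 + R + T₀ := by rw [abs_of_nonneg (by linarith)]; linarith
    gcongr
  have h32 : 32 * K * t ≤ 1 := by
    rw [ht, mul_div_assoc', div_le_one (by positivity)]
    nlinarith
  set W : ℂ := X (pt y (u + τ) v) * ((Real.exp (-(τ * ℓ / 2)) : ℝ) : ℂ) with hW
  have eτ : τ ^ 2 / (4 * t) = τ * ℓ / 2 := by rw [ht]; field_simp; ring
  have hfτ : f τ = X (pt y (u + τ) v) := by simp only [hf]; rw [hzx]
  have hWn : ‖W‖ = ‖X (pt y (u + τ) v)‖ * Real.exp (-(τ * ℓ / 2)) := by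
    rw [hW, norm_mul, Complex.norm_real, Real.norm_of_nonneg (Real.exp_pos _).le]
  have hWlo : M * Real.exp (ℓ * (u + τ) - K * (1 + (u + τ) ^ 2 + A ^ 2) - τ * ℓ / 2) ≤ ‖W‖ := by
    rw [hWn, sub_eq_add_neg _ (τ * ℓ / 2), Real.exp_add, ← mul_assoc]
    refine mul_le_mul_of_nonneg_right ?_ (Real.exp_pos _).le
    refine le_trans ?_ (B.lo (u + τ) v (by linarith))
    have hv2 : v ^ 2 ≤ A ^ 2 := by rw [← sq_abs v]; nlinarith [abs_nonneg v]
    refine mul_le_mul_of_nonneg_left (Real.exp_le_exp.mpr ?_) hM.le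
    nlinarith
  have hpt : ∀ x : ℝ, ‖X (z + x) * ((Real.exp (-(x ^ 2 / (4 * t))) : ℝ) : ℂ) - W * ((Real.exp (-((x - τ) ^ 2 / (4 * t))) : ℝ) : ℂ)‖ ≤
      ‖W‖ * (ϑ / 2) * Real.exp (-((x - τ) ^ 2 / (16 * t))) := by
    intro x
    by_cases hx : x ∈ I
    · have h2 := rl (convex_Ici (a - u)) (by linarith) ht0 (abs_nonneg ω) h32 hder hlip hτI hx hgτ
      simp only [sub_zero] at h2
      rw [hfτ, eτ] at h2
      refine h2.trans ?_
      rw [hWn]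
      have h3 := htt t ht0 htt0
      rw [hKabs] at h3
      gcongr
    · have hx' : u + x < a := by
        have : ¬ (a - u ≤ x) := hx
        linarith
      have s1 : ‖X (z + x) * ((Real.exp (-(x ^ 2 / (4 * t))) : ℝ) : ℂ)‖ ≤ ‖W‖ * (ϑ / 4) * Real.exp (-((x - τ) ^ 2 / (16 * t))) := by
        rw [norm_mul, Complex.norm_real, Real.norm_of_nonneg (Real.exp_pos _).le, hzx]
        have h2 := B.up (u + x) v
        have hv2 : v ^ 2 ≤ A ^ 2 := by rw [← sq_abs v]; nlinarith [abs_nonneg v]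
        have h3 := ineq_left (q := q) (τ := τ) (T₀ := T₀) (τ₀ := τ₀) (x := x) (X' := u) (a := a) (K := K) (R := R) (A := A)
          hqK hK hτ₀ hτ hτT ha hu huR hx'
        rw [← hℓq] at h3
        have h4 : Real.exp (K₁ - τ₀ * ℓ) ≤ ϑ / 4 := (Real.exp_le_exp.mpr (by linarith [le_abs_self K₁])).trans (hL1 ℓ hℓL)
        calc ‖X (pt y (u + x) v)‖ * Real.exp (-(x ^ 2 / (4 * t)))
            ≤ (M * Real.exp (ℓ * max |u + x| a + K * (1 + (u + x) ^ 2 + v ^ 2))) * Real.exp (-(x ^ 2 / (4 * t))) := by gcongr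
          _ = M * Real.exp (ℓ * max |u + x| a + K * (1 + (u + x) ^ 2 + v ^ 2) + -(x ^ 2 / (4 * t))) := by
              rw [Real.exp_add _ (-(x ^ 2 / (4 * t)))]; ring
          _ ≤ M * Real.exp ((ℓ * (u + τ) - K * (1 + (u + τ) ^ 2 + A ^ 2) - τ * ℓ / 2) + ((K₁ - τ₀ * ℓ) + -((x - τ) ^ 2 / (16 * t)))) := by
              refine mul_le_mul_of_nonneg_left (Real.exp_le_exp.mpr ?_) hM.le
              rw [e4, e16]
              have e5 : τ * ℓ / 2 = 8 * q * τ ^ 2 := by rw [hℓq]; ring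
              have e6 : τ₀ * ℓ = ℓ * τ₀ := mul_comm _ _
              have h5 : K * (1 + (u + x) ^ 2 + v ^ 2) ≤ K * (1 + (u + x) ^ 2 + A ^ 2) := by gcongr
              rw [e5, e6, hK₁]
              nlinarith
          _ = M * Real.exp (ℓ * (u + τ) - K * (1 + (u + τ) ^ 2 + A ^ 2) - τ * ℓ / 2) * Real.exp (K₁ - τ₀ * ℓ) * Real.exp (-((x - τ) ^ 2 / (16 * t))) := by
              rw [Real.exp_add, Real.exp_add (K₁ - τ₀ * ℓ)]; ring
          _ ≤ ‖W‖ * (ϑ / 4) * Real.exp (-((x - τ) ^ 2 / (16 * t))) := by gcongr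
      have s2 : ‖W * ((Real.exp (-((x - τ) ^ 2 / (4 * t))) : ℝ) : ℂ)‖ ≤ ‖W‖ * (ϑ / 4) * Real.exp (-((x - τ) ^ 2 / (16 * t))) := by
        rw [norm_mul, Complex.norm_real, Real.norm_of_nonneg (Real.exp_pos _).le, mul_assoc]
        refine mul_le_mul_of_nonneg_left ?_ (norm_nonneg _)
        have h4 : Real.exp (-(τ₀ * ℓ)) ≤ ϑ / 4 := (Real.exp_le_exp.mpr (by linarith [abs_nonneg K₁])).trans (hL1 ℓ hℓL)
        refine le_trans ?_ (mul_le_mul_of_nonneg_right h4 (Real.exp_pos _).le)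
        rw [← Real.exp_add]
        apply Real.exp_le_exp.mpr
        rw [e4, e16, hℓq]
        have h5 : τ ≤ -x := by linarith
        have h6 : 4 * τ ^ 2 ≤ (x - τ) ^ 2 := by nlinarith
        nlinarith [mul_nonneg hq0.le (by nlinarith : (0:ℝ) ≤ τ * (τ - τ₀))]
      refine (norm_sub_le _ _).trans ((add_le_add s1 s2).trans (le_of_eq ?_))
      ring
  have hFc : Continuous fun x : ℝ => X (z + x) * ((Real.exp (-(x ^ 2 / (4 * t))) : ℝ) : ℂ) := by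
    refine (B.diff.continuous.comp (by fun_prop)).mul (Complex.continuous_ofReal.comp ?_)
    exact Real.continuous_exp.comp (by fun_prop)
  have h3 := rl_int ht0 hFc hpt
  unfold heat
  rw [← hWn]
  refine h3.trans (le_of_eq ?_)
  ring

end Pool.Agent.H487.NZ
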