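import Pool.Agent.H487.NZ.Half
import Pool.Agent.H487.NZ.HBase

/-!
# Shifting a half line, and a maximum principle in a narrow strip
-/

set_option autoImplicit false

open MeasureTheory Set Filter Topology
open scoped ComplexConjugate

namespace Pool.Agent.H487.NZ

open NB

/-- the Gaussian factor -/
noncomputable def gk (t : ℝ) (s w : ℂ) : ℂ := Complex.exp (-((w - s) ^ 2 / (4 * t)))

lemma gk_norm (t : ℝ) (s w : ℂ) : ‖gk t s w‖ = Real.exp (-(((w.re - s.re) ^ 2 - (w.im - s.im) ^ 2) / (4 * t))) := by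
  unfold gk
  rw [Complex.norm_exp]
  congr 1
  have h : ((w - s) ^ 2 / (4 * t)) = ((w - s) ^ 2) * ((1 / (4 * t) : ℝ) : ℂ) := by
    push_cast; ring
  rw [h, Complex.neg_re, Complex.re_mul_ofReal]
  have h2 : ((w - s) ^ 2).re = (w.re - s.re) ^ 2 - (w.im - s.im) ^ 2 := by
    rw [sq, Complex.mul_re]
    simp
    ring
  rw [h2]
  ring

lemma gk_diff (t : ℝ) (s : ℂ) : Differentiable ℂ (gk t s) := by
  unfold gk
  fun_prop

/-- decay of `F gk` in horizontal strips -/
lemma gk_decay {F : ℂ → ℂ} (h : Type0 F) {t : ℝ} (ht : 0 < t) (s : ℂ) (V : ℝ) :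
    ∃ K : ℝ, 0 < K ∧ ∀ w : ℂ, |w.im| ≤ V → ‖F w * gk t s w‖ ≤ K * Real.exp (-(1 / (16 * t)) * w.re ^ 2) := by
  obtain ⟨K, hK, hb⟩ := h (1 / (16 * t)) (by positivity)
  refine ⟨K * Real.exp ((V ^ 2 + 4 * (V + |s.im|) ^ 2 + 4 * s.re ^ 2) / (16 * t)), by positivity, fun w hw => ?_⟩
  rw [norm_mul, gk_norm]
  have h1 := hb w
  have h2 : ‖w‖ ^ 2 = w.re ^ 2 + w.im ^ 2 := by rw [← Complex.normSq_eq_norm_sq, Complex.normSq_apply]; ring
  rw [h2] at h1
  calc ‖F w‖ * Real.exp (-(((w.re - s.re) ^ 2 - (w.im - s.im) ^ 2) / (4 * t)))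
      ≤ (K * Real.exp (1 / (16 * t) * (w.re ^ 2 + w.im ^ 2))) * Real.exp (-(((w.re - s.re) ^ 2 - (w.im - s.im) ^ 2) / (4 * t))) := by gcongr
    _ = K * Real.exp (1 / (16 * t) * (w.re ^ 2 + w.im ^ 2) + -(((w.re - s.re) ^ 2 - (w.im - s.im) ^ 2) / (4 * t))) := by
        rw [Real.exp_add]; ring
    _ ≤ K * Real.exp ((V ^ 2 + 4 * (V + |s.im|) ^ 2 + 4 * s.re ^ 2) / (16 * t) + -(1 / (16 * t)) * w.re ^ 2) := by
        refine mul_le_mul_of_nonneg_left (Real.exp_le_exp.mpr ?_) hK.le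
        have h3 : w.im ^ 2 ≤ V ^ 2 := by rw [← sq_abs]; exact pow_le_pow_left₀ (abs_nonneg _) hw 2
        have h4 : (w.im - s.im) ^ 2 ≤ (V + |s.im|) ^ 2 := by
          rw [← sq_abs (w.im - s.im)]
          refine pow_le_pow_left₀ (abs_nonneg _) ?_ 2
          have := abs_sub w.im s.im
          linarith
        have h5 : w.re ^ 2 / 2 - s.re ^ 2 ≤ (w.re - s.re) ^ 2 := by nlinarith [sq_nonneg (w.re - 2 * s.re)]
        have e : (V ^ 2 + 4 * (V + |s.im|) ^ 2 + 4 * s.re ^ 2) / (16 * t) + -(1 / (16 * t)) * w.re ^ 2 -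
            (1 / (16 * t) * (w.re ^ 2 + w.im ^ 2) + -(((w.re - s.re) ^ 2 - (w.im - s.im) ^ 2) / (4 * t))) =
            (V ^ 2 + 4 * (V + |s.im|) ^ 2 + 4 * s.re ^ 2 - 2 * w.re ^ 2 - w.im ^ 2 + 4 * ((w.re - s.re) ^ 2 - (w.im - s.im) ^ 2)) / (16 * t) := by
          field_simp
          ring
        have h6 : 0 ≤ (V ^ 2 + 4 * (V + |s.im|) ^ 2 + 4 * s.re ^ 2 - 2 * w.re ^ 2 - w.im ^ 2 + 4 * ((w.re - s.re) ^ 2 - (w.im - s.im) ^ 2)) / (16 * t) := by
          apply div_nonneg _ (by positivity)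
          linarith
        linarith
    _ = _ := by rw [Real.exp_add]; ring

lemma gk_integrable {F : ℂ → ℂ} (hd : Continuous F) (h : Type0 F) {t : ℝ} (ht : 0 < t) (s : ℂ) (y : ℝ) :
    Integrable fun x : ℝ => F (x + y * Complex.I) * gk t s (x + y * Complex.I) := by
  obtain ⟨K, hK, hb⟩ := gk_decay h ht s |y|
  refine ((integrable_exp_neg_mul_sq (by positivity : 0 < 1 / (16 * t))).const_mul K).mono' ?_ (Eventually.of_forall fun x => ?_)
  · refine Continuous.aestronglyMeasurable ?_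
    exact (hd.comp (by fun_prop)).mul ((gk_diff t s).continuous.comp (by fun_prop))
  · have := hb (x + y * Complex.I) (by simp)
    simpa using this

/-- **shifting a half line vertically** -/
theorem half_shift {F : ℂ → ℂ} (hd : Differentiable ℂ F) (h : Type0 F) {t : ℝ} (ht : 0 < t) (s : ℂ) (x₀ y₀ y₁ : ℝ) :
    (∫ x in Ioi x₀, F (x + y₀ * Complex.I) * gk t s (x + y₀ * Complex.I)) =
      (∫ x in Ioi x₀, F (x + y₁ * Complex.I) * gk t s (x + y₁ * Complex.I)) +
        Complex.I * ∫ v in y₀..y₁, F (x₀ + v * Complex.I) * gk t s (x₀ + v * Complex.I) := by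
  set f : ℂ → ℂ := fun w => F w * gk t s w with hf
  have hfd : Differentiable ℂ f := hd.mul (gk_diff t s)
  obtain ⟨K, hK, hb⟩ := gk_decay h ht s (|y₀| + |y₁|)
  have hrect : ∀ R : ℝ, (∫ x in x₀..R, f (x + y₀ * Complex.I)) - (∫ x in x₀..R, f (x + y₁ * Complex.I)) +
      (Complex.I * ∫ v in y₀..y₁, f (R + v * Complex.I)) - Complex.I * ∫ v in y₀..y₁, f (x₀ + v * Complex.I) = 0 := by
    intro R
    have h1 := Complex.integral_boundary_rect_eq_zero_of_differentiableOn f (x₀ + y₀ * Complex.I) (R + y₁ * Complex.I)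
      hfd.differentiableOn
    simpa using h1
  have l0 : Tendsto (fun R : ℝ => ∫ x in x₀..R, f (x + y₀ * Complex.I)) atTop (𝓝 (∫ x in Ioi x₀, f (x + y₀ * Complex.I))) :=
    intervalIntegral_tendsto_integral_Ioi x₀ (gk_integrable hd.continuous h ht s y₀).integrableOn tendsto_id
  have l1 : Tendsto (fun R : ℝ => ∫ x in x₀..R, f (x + y₁ * Complex.I)) atTop (𝓝 (∫ x in Ioi x₀, f (x + y₁ * Complex.I))) :=
    intervalIntegral_tendsto_integral_Ioi x₀ (gk_integrable hd.continuous h ht s y₁).integrableOn tendsto_id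
  have l2 : Tendsto (fun R : ℝ => Complex.I * ∫ v in y₀..y₁, f (R + v * Complex.I)) atTop (𝓝 0) := by
    have h2 : Tendsto (fun R : ℝ => K * Real.exp (-(1 / (16 * t)) * R ^ 2) * |y₁ - y₀|) atTop (𝓝 0) := by
      have h3 : Tendsto (fun R : ℝ => 1 / (16 * t) * R ^ 2) atTop atTop :=
        (tendsto_pow_atTop (by norm_num)).const_mul_atTop (by positivity)
      have h4 := (Real.tendsto_exp_neg_atTop_nhds_zero.comp h3).const_mul K
      have h5 := h4.mul_const |y₁ - y₀|
      rw [mul_zero, zero_mul] at h5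
      refine h5.congr fun R => ?_
      simp only [Function.comp]
      congr 3
      ring
    refine squeeze_zero_norm (fun R => ?_) h2
    rw [norm_mul, Complex.norm_I, one_mul]
    refine intervalIntegral.norm_integral_le_of_norm_le_const fun v hv => ?_
    have h3 : |v| ≤ |y₀| + |y₁| := by
      rcases le_total y₀ y₁ with h4 | h4
      · rw [uIoc_of_le h4] at hv
        rw [abs_le]
        have := neg_abs_le y₀
        have := le_abs_self y₁
        have := abs_nonneg y₀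
        have := abs_nonneg y₁
        constructor <;> linarith [hv.1, hv.2]
      · rw [uIoc_of_ge h4] at hv
        rw [abs_le]
        have := neg_abs_le y₁
        have := le_abs_self y₀
        have := abs_nonneg y₀
        have := abs_nonneg y₁
        constructor <;> linarith [hv.1, hv.2]
    have h5 := hb (R + v * Complex.I) (by simpa using h3)
    have e : ((R : ℂ) + v * Complex.I).re = R := by simp
    rw [e] at h5
    exact h5
  have l3 := ((l0.sub l1).add l2).sub_const (Complex.I * ∫ v in y₀..y₁, f (x₀ + v * Complex.I))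
  have l4 := l3.congr hrect
  have h6 := tendsto_nhds_unique l4 tendsto_const_nhds
  rw [add_zero] at h6
  linear_combination h6

/-- **maximum principle** in a narrow strip -/
theorem strip_max {F : ℂ → ℂ} (hF : Differentiable ℂ F) {y β A c D ℓ P : ℝ} (hβ : 0 < β) (hA : 0 < A) (hc : 0 ≤ c)
    (hℓ : 0 ≤ ℓ) (hP : 0 ≤ P) (hcA : D ≤ c * A ^ 2)
    (hside : ∀ v : ℝ, |v| ≤ 2 * A → ‖F (pt y β v)‖ ≤ P ∧ ‖F (pt y (-β) v)‖ ≤ P)
    (hcr : ∀ u v : ℝ, |u| ≤ β → |v| ≤ 2 * A → ‖F (pt y u v)‖ ≤ P * Real.exp (D * ℓ)) {u₀ v₀ : ℝ} (hu₀ : |u₀| ≤ β)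
    (hv₀ : |v₀| ≤ A) : ‖F (pt y u₀ v₀)‖ ≤ P * Real.exp (4 * c * β ^ 2 * ℓ) := by
  set z₀ : ℂ := pt y u₀ v₀ with hz₀
  set f : ℂ → ℂ := fun z => F z * Complex.exp (((c * ℓ : ℝ) : ℂ) * (z - z₀) ^ 2) with hf
  have hfd : Differentiable ℂ f := hF.mul (by fun_prop)
  have hnorm : ∀ z : ℂ, ‖f z‖ = ‖F z‖ * Real.exp (c * ℓ * ((z.re - z₀.re) ^ 2 - (z.im - z₀.im) ^ 2)) := by
    intro z
    simp only [hf]
    rw [norm_mul, Complex.norm_exp]
    congr 2
    rw [Complex.re_ofReal_mul, sq (z - z₀), Complex.mul_re]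
    simp
    left
    ring
  set U : Set ℂ := (Ioo (1 / 2 - β) (1 / 2 + β)) ×ℂ (Ioo (y + v₀ - A) (y + v₀ + A)) with hU
  have hbd : Bornology.IsBounded U := (Metric.isBounded_Ioo _ _).reProdIm (Metric.isBounded_Ioo _ _)
  have hcl : closure U = (Icc (1 / 2 - β) (1 / 2 + β)) ×ℂ (Icc (y + v₀ - A) (y + v₀ + A)) := by
    rw [hU, Complex.closure_reProdIm, closure_Ioo (by linarith), closure_Ioo (by linarith)]
  have hz₀re : z₀.re = 1 / 2 + u₀ := by simp [hz₀]
  have hz₀im : z₀.im = y + v₀ := by simp [hz₀]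
  obtain ⟨hu1, hu2⟩ := abs_le.mp hu₀
  obtain ⟨hv1, hv2⟩ := abs_le.mp hv₀
  have hmem : z₀ ∈ closure U := by
    rw [hcl, Complex.mem_reProdIm, hz₀re, hz₀im]
    exact ⟨⟨by linarith, by linarith⟩, ⟨by linarith, by linarith⟩⟩
  have hkey := Complex.norm_le_of_forall_mem_frontier_norm_le hbd hfd.diffContOnCl
    (C := P * Real.exp (4 * c * β ^ 2 * ℓ)) (fun z hz => ?_) hmem
  · rw [hnorm, sub_self, sub_self] at hkey
    simpa using hkey
  · have hzc : z ∈ closure U := frontier_subset_closure hz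
    rw [hcl, Complex.mem_reProdIm] at hzc
    obtain ⟨⟨r1, r2⟩, ⟨i1, i2⟩⟩ := hzc
    rw [hnorm, hz₀re, hz₀im]
    have hvz : |z.im - y| ≤ 2 * A := abs_le.mpr ⟨by linarith, by linarith⟩
    have huz : |z.re - 1 / 2| ≤ β := abs_le.mpr ⟨by linarith, by linarith⟩
    have hsq : (z.re - (1 / 2 + u₀)) ^ 2 ≤ 4 * β ^ 2 := by
      have h1 : |z.re - (1 / 2 + u₀)| ≤ 2 * β := abs_le.mpr ⟨by linarith, by linarith⟩
      have h2 := pow_le_pow_left₀ (abs_nonneg _) h1 2
      rw [sq_abs] at h2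
      linarith
    have hcl0 : 0 ≤ c * ℓ := by positivity
    rw [hU, Complex.frontier_reProdIm, frontier_Ioo (by linarith), frontier_Ioo (by linarith), closure_Ioo (by linarith),
      closure_Ioo (by linarith)] at hz
    rcases hz with hz | hz
    · -- horizontal sides
      rw [Complex.mem_reProdIm] at hz
      have hd : (z.im - (y + v₀)) ^ 2 = A ^ 2 := by
        rcases hz.2 with h | h
        · rw [h]; ring
        · rw [mem_singleton_iff] at h; rw [h]; ring
      rw [hd]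
      have h1 := hcr (z.re - 1 / 2) (z.im - y) huz hvz
      rw [← pt_eq] at h1
      calc ‖F z‖ * Real.exp (c * ℓ * ((z.re - (1 / 2 + u₀)) ^ 2 - A ^ 2))
          ≤ (P * Real.exp (D * ℓ)) * Real.exp (c * ℓ * ((z.re - (1 / 2 + u₀)) ^ 2 - A ^ 2)) := by gcongr
        _ = P * Real.exp (D * ℓ + c * ℓ * ((z.re - (1 / 2 + u₀)) ^ 2 - A ^ 2)) := by rw [Real.exp_add]; ring
        _ ≤ _ := by
            refine mul_le_mul_of_nonneg_left (Real.exp_le_exp.mpr ?_) hP
            have h2 : D * ℓ ≤ c * A ^ 2 * ℓ := by gcongr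
            have h3 : c * ℓ * (z.re - (1 / 2 + u₀)) ^ 2 ≤ c * ℓ * (4 * β ^ 2) := by gcongr
            linarith
    · rw [Complex.mem_reProdIm] at hz
      have h1 : ‖F z‖ ≤ P := by
        rcases hz.1 with h | h
        · have h2 := (hside (z.im - y) hvz).2
          have e : pt y (-β) (z.im - y) = z := by
            apply Complex.ext
            · rw [pt_re, h]; ring
            · rw [pt_im]; ring
          rwa [e] at h2
        · rw [mem_singleton_iff] at h
          have h2 := (hside (z.im - y) hvz).1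
          have e : pt y β (z.im - y) = z := by
            apply Complex.ext
            · rw [pt_re, h]
            · rw [pt_im]; ring
          rwa [e] at h2
      refine mul_le_mul h1 (Real.exp_le_exp.mpr ?_) (Real.exp_pos _).le hP
      have h2 : 0 ≤ c * ℓ * (z.im - (y + v₀)) ^ 2 := by positivity
      have h3 : c * ℓ * (z.re - (1 / 2 + u₀)) ^ 2 ≤ c * ℓ * (4 * β ^ 2) := by gcongr
      linarith

end Pool.Agent.H487.NZ
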