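import Pool.Graph.R_seed8.H370R2.Local

/-!
# Zero free functions which are nearly exponential in a small disc are so in a larger one
-/

set_option autoImplicit false

open Filter Topology Set Metric

namespace Pool.Agent.H487.NZ

/-- a bound by `K` on the unit disc and by `K ℓ` on a disc of radius `R` gives `ε ℓ` on a disc of radius
`r < R` for large `ℓ` -/
theorem flat {R r K ε : ℝ} (hr : 1 ≤ r) (hrR : r < R) (hK : 0 ≤ K) (hε : 0 < ε) :
    ∃ L₀ : ℝ, 1 ≤ L₀ ∧ ∀ ℓ : ℝ, L₀ ≤ ℓ → ∀ (φ : ℂ → ℂ) (c : ℂ),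
      (∀ z ∈ closedBall c R, DifferentiableAt ℂ φ z) → (∀ z ∈ closedBall c R, ‖φ z‖ ≤ K * ℓ) →
      (∀ z ∈ closedBall c 1, ‖φ z‖ ≤ K) → ∀ z ∈ closedBall c r, ‖φ z‖ ≤ ε * ℓ := by
  have hR0 : 0 < R := by linarith
  have hr0 : 0 < r := by linarith
  set q : ℝ := r / R with hq
  have hq0 : 0 < q := by positivity
  have hq1 : q < 1 := (div_lt_one hR0).mpr hrR
  have h1q : 0 < 1 - q := by linarith
  -- the cut
  obtain ⟨n, hn⟩ : ∃ n : ℕ, K * q ^ n / (1 - q) ≤ ε / 2 := by
    have h1 : Tendsto (fun n : ℕ => K * q ^ n / (1 - q)) atTop (𝓝 (K * 0 / (1 - q))) :=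
      ((tendsto_pow_atTop_nhds_zero_of_lt_one hq0.le hq1).const_mul K).div_const _
    rw [mul_zero, zero_div] at h1
    exact ((h1.eventually (ge_mem_nhds (half_pos hε))).exists)
  set S : ℝ := ∑ i ∈ Finset.range n, K * r ^ i with hS
  have hS0 : 0 ≤ S := Finset.sum_nonneg fun i _ => by positivity
  refine ⟨max 1 (2 * S / ε), le_max_left _ _, fun ℓ hℓ φ c hd hbR hb1 z hz => ?_⟩
  have hℓ1 : 1 ≤ ℓ := (le_max_left _ _).trans hℓ
  have hSℓ : S ≤ ε / 2 * ℓ := by
    have := (le_max_right _ _).trans hℓ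
    rw [div_le_iff₀ hε] at this
    linarith
  have hzr : ‖z - c‖ ≤ r := by rwa [mem_closedBall, dist_eq_norm] at hz
  -- coefficients
  set a : ℕ → ℂ := fun i => ((i.factorial : ℂ))⁻¹ • (z - c) ^ i • iteratedDeriv i φ c with ha
  have hsum : HasSum a (φ z) := by
    refine Complex.hasSum_taylorSeries_on_ball (r := R) (fun w hw => ?_) ?_
    · exact (hd w (ball_subset_closedBall hw)).differentiableWithinAt
    · rw [mem_ball, dist_eq_norm]; linarith
  have hc1 : ∀ i, ‖iteratedDeriv i φ c‖ ≤ i.factorial * K := fun i => by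
    have h1 := Complex.norm_iteratedDeriv_le_of_forall_mem_sphere_norm_le (c := c) (R := 1) (C := K) (f := φ) i one_pos
      ⟨fun w hw => (hd w (closedBall_subset_closedBall (by linarith) (ball_subset_closedBall hw))).differentiableWithinAt,
       fun w hw => (hd w (closedBall_subset_closedBall (by linarith) (closure_ball_subset_closedBall hw))).continuousAt.continuousWithinAt⟩
      (fun w hw => hb1 w (sphere_subset_closedBall hw))
    simpa using h1
  have hc2 : ∀ i, ‖iteratedDeriv i φ c‖ ≤ i.factorial * (K * ℓ) / R ^ i := fun i =>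
    Complex.norm_iteratedDeriv_le_of_forall_mem_sphere_norm_le (c := c) (R := R) (C := K * ℓ) (f := φ) i hR0
      ⟨fun w hw => (hd w (ball_subset_closedBall hw)).differentiableWithinAt,
       fun w hw => (hd w (closure_ball_subset_closedBall hw)).continuousAt.continuousWithinAt⟩
      (fun w hw => hbR w (sphere_subset_closedBall hw))
  have hf : ∀ i : ℕ, (0 : ℝ) < i.factorial := fun i => by exact_mod_cast Nat.factorial_pos i
  have hna : ∀ i, ‖a i‖ = (i.factorial : ℝ)⁻¹ * (‖z - c‖ ^ i * ‖iteratedDeriv i φ c‖) := fun i => by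
    simp only [ha, norm_smul, norm_inv, Complex.norm_natCast, norm_pow]
  have ha1 : ∀ i, ‖a i‖ ≤ K * r ^ i := fun i => by
    rw [hna]
    calc (i.factorial : ℝ)⁻¹ * (‖z - c‖ ^ i * ‖iteratedDeriv i φ c‖)
        ≤ (i.factorial : ℝ)⁻¹ * (r ^ i * (i.factorial * K)) := by
          have := hc1 i
          gcongr
      _ = K * r ^ i := by
          have := (hf i).ne'
          field_simp
  have ha2 : ∀ i, ‖a i‖ ≤ K * ℓ * q ^ i := fun i => by
    rw [hna]
    calc (i.factorial : ℝ)⁻¹ * (‖z - c‖ ^ i * ‖iteratedDeriv i φ c‖)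
        ≤ (i.factorial : ℝ)⁻¹ * (r ^ i * (i.factorial * (K * ℓ) / R ^ i)) := by
          have := hc2 i
          gcongr
      _ = K * ℓ * q ^ i := by
          have := (hf i).ne'
          rw [hq, div_pow]
          field_simp
  have hgeo : Summable fun i : ℕ => K * ℓ * q ^ i := (summable_geometric_of_lt_one hq0.le hq1).mul_left _
  have hsa : Summable fun i => ‖a i‖ := Summable.of_nonneg_of_le (fun i => norm_nonneg _) ha2 hgeo
  have h3 : ‖φ z‖ ≤ ∑' i, ‖a i‖ := by
    rw [← hsum.tsum_eq]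
    exact norm_tsum_le_tsum_norm hsa
  have h4 : ∑' i, ‖a i‖ = ∑ i ∈ Finset.range n, ‖a i‖ + ∑' i, ‖a (i + n)‖ := (hsa.sum_add_tsum_nat_add n).symm
  have h5 : ∑ i ∈ Finset.range n, ‖a i‖ ≤ S := Finset.sum_le_sum fun i _ => ha1 i
  have h6 : ∑' i, ‖a (i + n)‖ ≤ K * ℓ * q ^ n / (1 - q) := by
    have h7 : Summable fun i => ‖a (i + n)‖ := (summable_nat_add_iff n).mpr hsa
    have h8 : Summable fun i : ℕ => K * ℓ * q ^ n * q ^ i := (summable_geometric_of_lt_one hq0.le hq1).mul_left _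
    refine (h7.tsum_le_tsum (fun i => (ha2 (i + n)).trans (le_of_eq (by rw [pow_add]; ring))) h8).trans (le_of_eq ?_)
    rw [tsum_mul_left, tsum_geometric_of_lt_one hq0.le hq1]
    ring
  have h7 : K * ℓ * q ^ n / (1 - q) ≤ ε / 2 * ℓ := by
    calc K * ℓ * q ^ n / (1 - q) = K * q ^ n / (1 - q) * ℓ := by ring
      _ ≤ ε / 2 * ℓ := by gcongr
  linarith

/-- the logarithmic derivative of a zero free function -/
theorem flat_log {R δ K ε : ℝ} (hδ : 0 < δ) (hR : 1 + δ ≤ R) (hK : 1 ≤ K) (hε : 0 < ε) :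
    ∃ L₀ : ℝ, 1 ≤ L₀ ∧ ∀ ℓ : ℝ, L₀ ≤ ℓ → ∀ (h : ℂ → ℂ) (c : ℂ),
      AnalyticOnNhd ℂ h (closedBall c R) → (∀ z ∈ closedBall c R, h z ≠ 0) →
      (∀ z ∈ closedBall c R, ‖h z‖ ≤ Real.exp (K * ℓ) * ‖h c‖) →
      (∀ z ∈ closedBall c 1, ‖logDeriv h z‖ ≤ K) → ∀ z ∈ closedBall c (R - δ), ‖logDeriv h z‖ ≤ ε * ℓ := by
  have hR0 : 0 < R := by linarith
  set K' : ℝ := 2 * (K + 1) * R / (δ / 4) / (δ / 4) with hK'
  have hK'0 : 0 < K' := by positivity
  have hKK : 0 < max K K' := lt_max_of_lt_left (by linarith)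
  obtain ⟨L₀, hL1, H⟩ := flat (R := R - δ / 2) (r := R - δ) (K := max K K') (ε := ε) (by linarith) (by linarith) hKK.le hε
  refine ⟨L₀, hL1, fun ℓ hℓ h c ha h0 hb h1 z hz => ?_⟩
  have hℓ1 : 1 ≤ ℓ := hL1.trans hℓ
  refine H ℓ hℓ (logDeriv h) c (fun w hw => ?_) (fun w hw => ?_) (fun w hw => (h1 w hw).trans (le_max_left _ _)) z hz
  · have hw' : w ∈ closedBall c R := closedBall_subset_closedBall (by linarith) hw
    exact ((ha w hw').deriv.div (ha w hw') (h0 w hw')).differentiableAt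
  · have h3 := H370.Loc.logDeriv_zero_free (g := h) (c := c) (r := R) (r1 := R - δ / 4) (r2 := R - δ / 2) (B := K * ℓ)
      (by linarith) (by linarith) (by linarith) (by positivity) ha h0 hb hw
    refine h3.trans ?_
    have h4 : 2 * (K * ℓ + 1) * (R - δ / 4) / (R - (R - δ / 4)) / (R - δ / 4 - (R - δ / 2)) ≤ K' * ℓ := by
      have e1 : R - (R - δ / 4) = δ / 4 := by ring
      have e2 : R - δ / 4 - (R - δ / 2) = δ / 4 := by ring
      rw [e1, e2]
      rw [hK']
      have e : 2 * (K + 1) * R / (δ / 4) / (δ / 4) * ℓ = 2 * ((K + 1) * ℓ) * R / (δ / 4) / (δ / 4) := by ring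
      rw [e]
      have e3 : K * ℓ + 1 ≤ (K + 1) * ℓ := by nlinarith
      have e4 : 0 ≤ (K + 1) * ℓ := by positivity
      have e5 : R - δ / 4 ≤ R := by linarith
      have e6 : 0 ≤ R - δ / 4 := by linarith
      gcongr
    refine h4.trans ?_
    have := le_max_right K K'
    gcongr

end Pool.Agent.H487.NZ
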