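import Pool.Agent.H487.NB.Hurwitz

/-!
# The Gaussian average with a complex centre, and the inverse heat flow as a vertical average
-/

set_option autoImplicit false

open MeasureTheory Set Filter Topology
open scoped ComplexConjugate

namespace Pool.Agent.H487.NZ

open NB

/-- the kernel `exp (-(x+w)²/4t)` -/
lemma kern_norm (t x : ℝ) (w : ℂ) : ‖Complex.exp (-((x + w) ^ 2 / (4 * t)))‖ =
    Real.exp (-(((x + w.re) ^ 2 - w.im ^ 2) / (4 * t))) := by
  rw [Complex.norm_exp]
  congr 1
  have h : (((x : ℂ) + w) ^ 2 / (4 * t)) = ((((x : ℂ) + w) ^ 2) * ((1 / (4 * t) : ℝ) : ℂ)) := by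
    push_cast; ring
  rw [h, Complex.neg_re, Complex.re_mul_ofReal]
  have h2 : (((x : ℂ) + w) ^ 2).re = (x + w.re) ^ 2 - w.im ^ 2 := by
    rw [sq, Complex.mul_re]
    simp
    ring
  rw [h2]
  ring

theorem shift_diff {F : ℂ → ℂ} (hd : Differentiable ℂ F) (h : Type0 F) {t : ℝ} (ht : 0 < t) :
    Differentiable ℂ fun w : ℂ => ∫ x : ℝ, F x * Complex.exp (-((x + w) ^ 2 / (4 * t))) := by
  intro w₀
  obtain ⟨K, hK, hb⟩ := h (1 / (32 * t)) (by positivity)
  set R : ℝ := ‖w₀‖ + 1 with hR
  have hR0 : 0 < R := by positivity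
  have hc : Continuous fun x : ℝ => F x := hd.continuous.comp Complex.continuous_ofReal
  -- bound of the kernel in the unit ball around `w₀`
  have hkb : ∀ (x : ℝ) (w : ℂ), ‖w‖ ≤ R → ‖F x * Complex.exp (-((x + w) ^ 2 / (4 * t)))‖ ≤
      K * Real.exp (R ^ 2 / (2 * t)) * Real.exp (-(1 / (16 * t)) * x ^ 2) := by
    intro x w hw
    rw [norm_mul, kern_norm]
    have h1 := hb x
    rw [Complex.norm_real, Real.norm_eq_abs, sq_abs] at h1
    calc ‖F x‖ * Real.exp (-(((x + w.re) ^ 2 - w.im ^ 2) / (4 * t)))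
        ≤ (K * Real.exp (1 / (32 * t) * x ^ 2)) * Real.exp (-(((x + w.re) ^ 2 - w.im ^ 2) / (4 * t))) := by gcongr
      _ = K * Real.exp (1 / (32 * t) * x ^ 2 + -(((x + w.re) ^ 2 - w.im ^ 2) / (4 * t))) := by rw [Real.exp_add]; ring
      _ ≤ K * Real.exp (R ^ 2 / (2 * t) + -(1 / (16 * t)) * x ^ 2) := by
          refine mul_le_mul_of_nonneg_left (Real.exp_le_exp.mpr ?_) hK.le
          have h2 : ‖w‖ ^ 2 = w.re ^ 2 + w.im ^ 2 := by rw [← Complex.normSq_eq_norm_sq, Complex.normSq_apply]; ring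
          have h3 : ‖w‖ ^ 2 ≤ R ^ 2 := pow_le_pow_left₀ (norm_nonneg _) hw 2
          have h4 : x ^ 2 / 2 ≤ (x + w.re) ^ 2 + w.re ^ 2 := by nlinarith [sq_nonneg (x + 2 * w.re)]
          have e : R ^ 2 / (2 * t) + -(1 / (16 * t)) * x ^ 2 - (1 / (32 * t) * x ^ 2 + -(((x + w.re) ^ 2 - w.im ^ 2) / (4 * t))) =
              (64 * R ^ 2 - 12 * x ^ 2 + 32 * ((x + w.re) ^ 2 - w.im ^ 2)) / (128 * t) := by
            field_simp
            ring
          have h5 : 0 ≤ (64 * R ^ 2 - 12 * x ^ 2 + 32 * ((x + w.re) ^ 2 - w.im ^ 2)) / (128 * t) := by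
            apply div_nonneg _ (by positivity)
            nlinarith
          linarith
      _ = _ := by rw [Real.exp_add]; ring
  have hder : ∀ (x : ℝ) (w : ℂ), HasDerivAt (fun w : ℂ => F x * Complex.exp (-((x + w) ^ 2 / (4 * t))))
      (F x * Complex.exp (-((x + w) ^ 2 / (4 * t))) * (-((x + w) / (2 * t)))) w := by
    intro x w
    have h1 : HasDerivAt (fun w : ℂ => -(((x : ℂ) + w) ^ 2 / (4 * t))) (-((x + w) / (2 * t))) w := by
      have h2 : HasDerivAt (fun w : ℂ => (x : ℂ) + w) 1 w := (hasDerivAt_id w).const_add _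
      have h3 := ((h2.pow 2).div_const (4 * (t : ℂ))).neg
      refine h3.congr_deriv ?_
      have : (t : ℂ) ≠ 0 := by exact_mod_cast ht.ne'
      field_simp
      push_cast
      ring
    have h4 := (h1.cexp).const_mul (F x)
    refine h4.congr_deriv ?_
    ring
  have hmeas : ∀ w : ℂ, AEStronglyMeasurable (fun x : ℝ => F x * Complex.exp (-((x + w) ^ 2 / (4 * t)))) volume := fun w => by
    refine Continuous.aestronglyMeasurable (hc.mul ?_)
    fun_prop
  have key := hasDerivAt_integral_of_dominated_loc_of_deriv_le (μ := (volume : Measure ℝ)) (𝕜 := ℂ)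
    (F := fun (w : ℂ) (x : ℝ) => F x * Complex.exp (-((x + w) ^ 2 / (4 * t))))
    (F' := fun (w : ℂ) (x : ℝ) => F x * Complex.exp (-((x + w) ^ 2 / (4 * t))) * (-((x + w) / (2 * t))))
    (x₀ := w₀) (s := Metric.ball w₀ 1)
    (bound := fun x : ℝ => (K * Real.exp (R ^ 2 / (2 * t)) / (2 * t)) * ((|x| + R) * Real.exp (-(1 / (16 * t)) * x ^ 2)))
    (Metric.ball_mem_nhds _ one_pos) (Eventually.of_forall hmeas) ?_ ?_ ?_ ?_ ?_
  · exact key.2.differentiableAt
  · have h1 : Integrable fun x : ℝ => K * Real.exp (R ^ 2 / (2 * t)) * Real.exp (-(1 / (16 * t)) * x ^ 2) :=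
      (integrable_exp_neg_mul_sq (by positivity)).const_mul _
    exact h1.mono' (hmeas w₀) (Eventually.of_forall fun x => hkb x w₀ (by rw [hR]; linarith))
  · refine (hmeas w₀).mul (Continuous.aestronglyMeasurable ?_)
    fun_prop
  · refine Eventually.of_forall fun x w hw => ?_
    have hw1 : ‖w‖ ≤ R := by
      rw [Metric.mem_ball, dist_eq_norm] at hw
      have := norm_add_le (w - w₀) w₀
      rw [sub_add_cancel] at this
      linarith
    rw [norm_mul]
    have h1 := hkb x w hw1
    have h2 : ‖-(((x : ℂ) + w) / (2 * t))‖ ≤ (|x| + R) / (2 * t) := by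
      rw [norm_neg, norm_div]
      have e : ‖(2 * (t : ℂ))‖ = 2 * t := by
        rw [norm_mul, Complex.norm_real, Real.norm_of_nonneg ht.le]; simp
      rw [e]
      gcongr
      refine (norm_add_le _ _).trans ?_
      rw [Complex.norm_real, Real.norm_eq_abs]
      linarith
    refine (mul_le_mul h1 h2 (norm_nonneg _) (by positivity)).trans (le_of_eq ?_)
    ring
  · have h0 : Integrable fun x : ℝ => Real.exp (-(1 / (16 * t)) * x ^ 2) := integrable_exp_neg_mul_sq (by positivity)
    have h1 : Integrable fun x : ℝ => |x| * Real.exp (-(1 / (16 * t)) * x ^ 2) := by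
      have h2 := (integrable_mul_exp_neg_mul_sq (b := 1 / (16 * t)) (by positivity)).norm
      refine h2.congr (Eventually.of_forall fun x => ?_)
      simp only []
      rw [norm_mul, Real.norm_eq_abs, Real.norm_of_nonneg (Real.exp_pos _).le]
    have h2 := (h1.add (h0.const_mul R)).const_mul (K * Real.exp (R ^ 2 / (2 * t)) / (2 * t))
    refine h2.congr (Eventually.of_forall fun x => ?_)
    simp only [Pi.add_apply]
    ring
  · exact Eventually.of_forall fun x w _ => hder x w

/-- **the Gaussian average with a complex centre** -/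
theorem gauss_shift {F : ℂ → ℂ} (hd : Differentiable ℂ F) (h : Type0 F) {t : ℝ} (ht : 0 < t) (w : ℂ) :
    ∫ x : ℝ, F x * Complex.exp (-((x + w) ^ 2 / (4 * t))) = ((Real.sqrt (4 * Real.pi * t) : ℝ) : ℂ) * flow t F (-w) := by
  set Φ : ℂ → ℂ := fun w => ∫ x : ℝ, F x * Complex.exp (-((x + w) ^ 2 / (4 * t))) with hΦ
  set Ψ : ℂ → ℂ := fun w => ((Real.sqrt (4 * Real.pi * t) : ℝ) : ℂ) * flow t F (-w) with hΨ
  have h1 : Differentiable ℂ Φ := shift_diff hd h ht
  have h2 : Differentiable ℂ Ψ := ((flow_differentiable hd h t).comp differentiable_neg).const_mul _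
  have hs : Real.sqrt (4 * Real.pi * t) ≠ 0 := by
    have := Real.pi_pos
    positivity
  have hreal : ∀ r : ℝ, Φ r = Ψ r := by
    intro r
    simp only [hΦ, hΨ]
    rw [← heat_eq_flow hd h ht]
    unfold heat
    rw [← mul_assoc, ← Complex.ofReal_mul, mul_one_div_cancel hs, Complex.ofReal_one, one_mul]
    rw [← integral_sub_right_eq_self (fun x : ℝ => F x * Complex.exp (-((x + (r : ℂ)) ^ 2 / (4 * t)))) r]
    refine integral_congr_ae (Eventually.of_forall fun x => ?_)
    simp only []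
    have e1 : ((x - r : ℝ) : ℂ) = -(r : ℂ) + x := by push_cast; ring
    have e2 : ((x - r : ℝ) : ℂ) + r = x := by push_cast; ring
    rw [e2, e1]
    congr 1
    push_cast
    ring_nf
  have hfin : Φ = Ψ := by
    have a1 : AnalyticOnNhd ℂ Φ univ := h1.differentiableOn.analyticOnNhd isOpen_univ
    have a2 : AnalyticOnNhd ℂ Ψ univ := h2.differentiableOn.analyticOnNhd isOpen_univ
    refine a1.eq_of_frequently_eq (z₀ := 0) a2 ?_
    rw [frequently_iff]
    intro U hU
    rw [mem_nhdsWithin_iff_exists_mem_nhds_inter] at hU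
    obtain ⟨V, hV, hVU⟩ := hU
    obtain ⟨δ, hδ, hb⟩ := Metric.mem_nhds_iff.mp hV
    refine ⟨((δ / 2 : ℝ) : ℂ), hVU ⟨hb ?_, ?_⟩, hreal _⟩
    · rw [Metric.mem_ball, dist_zero_right, Complex.norm_real, Real.norm_of_nonneg (by positivity)]
      linarith
    · simp only [mem_compl_iff, mem_singleton_iff]
      exact_mod_cast (by positivity : (δ / 2 : ℝ) ≠ 0)
  exact congrFun hfin w

lemma type0_vert {H : ℂ → ℂ} (h : Type0 H) (z : ℂ) : Type0 fun v => H (z + Complex.I * v) := by
  intro c hc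
  obtain ⟨K, hK, hb⟩ := h (c / 2) (by positivity)
  refine ⟨K * Real.exp (c * ‖z‖ ^ 2), by positivity, fun v => (hb _).trans ?_⟩
  rw [mul_assoc, ← Real.exp_add]
  refine mul_le_mul_of_nonneg_left (Real.exp_le_exp.mpr ?_) hK.le
  have h1 : ‖z + Complex.I * v‖ ≤ ‖z‖ + ‖v‖ := by
    refine (norm_add_le _ _).trans ?_
    rw [norm_mul, Complex.norm_I, one_mul]
  have h2 : ‖z + Complex.I * v‖ ^ 2 ≤ (‖z‖ + ‖v‖) ^ 2 := pow_le_pow_left₀ (norm_nonneg _) h1 2
  nlinarith [sq_nonneg (‖z‖ - ‖v‖)]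

lemma iter_vert {H : ℂ → ℂ} (hd : Differentiable ℂ H) (z : ℂ) (n : ℕ) (w : ℂ) :
    iteratedDeriv n (fun v => H (z + Complex.I * v)) w = Complex.I ^ n * iteratedDeriv n H (z + Complex.I * w) := by
  induction n generalizing w with
  | zero => simp
  | succ n ih =>
    rw [iteratedDeriv_succ, iteratedDeriv_succ]
    have e : iteratedDeriv n (fun v => H (z + Complex.I * v)) = fun w => Complex.I ^ n * iteratedDeriv n H (z + Complex.I * w) :=
      funext ih
    rw [e]
    have h1 := ((diff_iter hd n) (z + Complex.I * w)).hasDerivAt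
    have h2 : HasDerivAt (fun w : ℂ => z + Complex.I * w) Complex.I w := by
      simpa using ((hasDerivAt_id w).const_mul Complex.I).const_add z
    have h3 := (h1.comp w h2).const_mul (Complex.I ^ n)
    have h4 := h3.deriv
    simp only [Function.comp_def] at h4
    rw [h4, pow_succ]
    ring

/-- the inverse flow on vertical lines -/
lemma flow_vert {H : ℂ → ℂ} (hd : Differentiable ℂ H) (z : ℂ) (t : ℝ) (w : ℂ) :
    flow t (fun v => H (z + Complex.I * v)) w = flow (-t) H (z + Complex.I * w) := by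
  unfold flow
  refine tsum_congr fun k => ?_
  rw [iter_vert hd]
  have e : Complex.I ^ (2 * k) = (-1) ^ k := by rw [pow_mul, Complex.I_sq]
  rw [e]
  push_cast
  rw [show (-(t : ℂ)) ^ k = (-1) ^ k * t ^ k by rw [neg_pow]]
  ring

/-- **the function recovered from its heat flow** -/
theorem recover {X : ℂ → ℂ} (hd : Differentiable ℂ X) (hs : SlowGrowth X) {t : ℝ} (ht : 0 < t) (s z : ℂ) :
    ∫ v : ℝ, heat t X (z + Complex.I * v) * Complex.exp (-((v + Complex.I * (s - z)) ^ 2 / (4 * t))) =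
      ((Real.sqrt (4 * Real.pi * t) : ℝ) : ℂ) * X s := by
  have h0 := hs.type0
  rw [heat_eq_flow hd h0 ht]
  have hH : Differentiable ℂ (flow t X) := flow_differentiable hd h0 t
  have hH0 : Type0 (flow t X) := flow_type0 hd h0 t
  have h1 : Differentiable ℂ fun v : ℂ => flow t X (z + Complex.I * v) := hH.comp (by fun_prop)
  have h2 := gauss_shift h1 (type0_vert hH0 z) ht (Complex.I * (s - z))
  rw [h2, flow_vert hH]
  congr 1
  have e : z + Complex.I * -(Complex.I * (s - z)) = s := by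
    have : Complex.I * -(Complex.I * (s - z)) = s - z := by
      have h3 := Complex.I_mul_I
      linear_combination (-(s - z)) * h3
    rw [this]; ring
  rw [e, flow_add hd h0]
  simp [flow_zero]

end Pool.Agent.H487.NZ
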