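import Pool.Agent.H487.NZ.HBase

/-!
# Crude bounds for the heat flow at all heights
-/

set_option autoImplicit false

open MeasureTheory Set Filter Topology
open scoped ComplexConjugate

namespace Pool.Agent.H487.NZ

open NB

lemma ineq_crude {q τ x u v a K R : ℝ} (hq : 2 * K ≤ q) (hK : 1 ≤ K) (hτ : 0 < τ) (ha : 0 < a) (hu : |u| ≤ R) :
    16 * q * τ * max |u + x| a + K * (1 + (u + x) ^ 2 + v ^ 2) - 8 * q * x ^ 2 ≤
      16 * q * τ * (R + a + 2 * τ) + K * (1 + 2 * R ^ 2 + v ^ 2) - 4 * q * x ^ 2 := by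
  have hq0 : 0 < q := by linarith
  have h1 : max |u + x| a ≤ R + |x| + a := by
    refine max_le ?_ (by linarith [abs_nonneg u, abs_nonneg x])
    have := abs_add_le u x
    linarith
  have h2 : (u + x) ^ 2 ≤ 2 * R ^ 2 + 2 * x ^ 2 := by
    have h3 : u ^ 2 ≤ R ^ 2 := by rw [← sq_abs u]; exact pow_le_pow_left₀ (abs_nonneg u) hu 2
    nlinarith [sq_nonneg (u - x)]
  have h4 : 2 * K * x ^ 2 ≤ q * x ^ 2 := mul_le_mul_of_nonneg_right hq (sq_nonneg x)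
  have h5 : 16 * τ * |x| ≤ 3 * x ^ 2 + 32 * τ ^ 2 := by
    rw [← sq_abs x]
    nlinarith [sq_nonneg (3 * |x| - 8 * τ)]
  have h6 := mul_le_mul_of_nonneg_left h5 hq0.le
  have h7 : 16 * q * τ * max |u + x| a ≤ 16 * q * τ * (R + |x| + a) := mul_le_mul_of_nonneg_left h1 (by positivity)
  have h8 : K * (1 + (u + x) ^ 2 + v ^ 2) ≤ K * (1 + (2 * R ^ 2 + 2 * x ^ 2) + v ^ 2) := by gcongr
  nlinarith

/-- crude bound -/
theorem h2 (a K R T₀ : ℝ) (hT₀ : 0 < T₀) :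
    ∃ K₂ ℓ₀ : ℝ, 1 ≤ K₂ ∧ 1 ≤ ℓ₀ ∧ ∀ (X : ℂ → ℂ) (M ℓ y : ℝ), Base X a K M ℓ y → ℓ₀ ≤ ℓ → ∀ τ : ℝ, 0 < τ → τ ≤ T₀ →
      ∀ u v : ℝ, |u| ≤ R → ‖heat (τ / (2 * ℓ)) X (pt y u v)‖ ≤ M * Real.exp (K₂ * (ℓ + v ^ 2)) := by
  refine ⟨|R| + |a| + 2 * T₀ + |K| * (1 + 2 * R ^ 2) + 1 + 1, max 1 (32 * |K| * T₀), ?_, le_max_left _ _,
    fun X M ℓ y B hℓ τ hτ hτT u v hu => ?_⟩
  · have : 0 ≤ |R| + |a| + 2 * T₀ + |K| * (1 + 2 * R ^ 2) := by positivity
    linarith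
  have hK := B.hK
  have hM := B.hM
  have ha := B.ha
  have hKabs : |K| = K := abs_of_pos (by linarith)
  have hR0 : 0 ≤ R := (abs_nonneg u).trans hu
  rw [hKabs] at hℓ ⊢
  rw [abs_of_nonneg hR0, abs_of_pos ha]
  have hℓ1 : 1 ≤ ℓ := (le_max_left _ _).trans hℓ
  have hℓK : 32 * K * T₀ ≤ ℓ := (le_max_right _ _).trans hℓ
  set t : ℝ := τ / (2 * ℓ) with ht
  have ht0 : 0 < t := by positivity
  set q : ℝ := ℓ / (16 * τ) with hq
  have hqK : 2 * K ≤ q := by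
    rw [hq, le_div_iff₀ (by positivity)]
    nlinarith
  have hq0 : 0 < q := by positivity
  have hℓq : ℓ = 16 * q * τ := by rw [hq]; field_simp
  have e4 : ∀ x : ℝ, x / (4 * t) = 8 * q * x := fun x => by rw [ht, hq]; field_simp; ring
  have e8 : ∀ x : ℝ, x / (8 * t) = 4 * q * x := fun x => by rw [ht, hq]; field_simp; ring
  have hzx : ∀ x : ℝ, pt y u v + x = pt y (u + x) v := fun x => by
    simp only [pt]; push_cast; ring
  set D : ℝ := M * Real.exp (ℓ * (R + a + 2 * τ) + K * (1 + 2 * R ^ 2 + v ^ 2)) with hD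
  have hD0 : 0 < D := by positivity
  have hpt : ∀ x : ℝ, ‖X (pt y u v + x) * ((Real.exp (-(x ^ 2 / (4 * t))) : ℝ) : ℂ)‖ ≤ D * Real.exp (-((x - 0) ^ 2 / (4 * (2 * t)))) := by
    intro x
    rw [norm_mul, Complex.norm_real, Real.norm_of_nonneg (Real.exp_pos _).le, hzx]
    have h3 := ineq_crude (q := q) (τ := τ) (x := x) (u := u) (v := v) (a := a) (K := K) (R := R) hqK hK hτ ha hu
    rw [← hℓq] at h3
    calc ‖X (pt y (u + x) v)‖ * Real.exp (-(x ^ 2 / (4 * t)))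
        ≤ (M * Real.exp (ℓ * max |u + x| a + K * (1 + (u + x) ^ 2 + v ^ 2))) * Real.exp (-(x ^ 2 / (4 * t))) := by
          have := B.up (u + x) v
          gcongr
      _ = M * Real.exp (ℓ * max |u + x| a + K * (1 + (u + x) ^ 2 + v ^ 2) + -(x ^ 2 / (4 * t))) := by
          rw [Real.exp_add _ (-(x ^ 2 / (4 * t)))]; ring
      _ ≤ M * Real.exp ((ℓ * (R + a + 2 * τ) + K * (1 + 2 * R ^ 2 + v ^ 2)) + -((x - 0) ^ 2 / (4 * (2 * t)))) := by
          refine mul_le_mul_of_nonneg_left (Real.exp_le_exp.mpr ?_) hM.le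
          rw [sub_zero, show 4 * (2 * t) = 8 * t by ring, e4, e8]
          linarith
      _ = _ := by rw [Real.exp_add, hD]; ring
  obtain ⟨i1, v1⟩ := gint (t := 2 * t) (by positivity) 0
  have hs : 0 < Real.sqrt (4 * Real.pi * t) := Real.sqrt_pos.mpr (by have := Real.pi_pos; positivity)
  have e2 : Real.sqrt (4 * Real.pi * (2 * t)) = Real.sqrt 2 * Real.sqrt (4 * Real.pi * t) := by
    rw [show 4 * Real.pi * (2 * t) = 2 * (4 * Real.pi * t) by ring, Real.sqrt_mul (by norm_num)]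
  rw [e2] at v1
  have h3 : ‖∫ x : ℝ, X (pt y u v + x) * ((Real.exp (-(x ^ 2 / (4 * t))) : ℝ) : ℂ)‖ ≤ D * (Real.sqrt 2 * Real.sqrt (4 * Real.pi * t)) := by
    rw [← v1, ← integral_const_mul]
    exact norm_integral_le_of_norm_le (i1.const_mul _) (Eventually.of_forall hpt)
  unfold heat
  rw [norm_mul, Complex.norm_real, Real.norm_of_nonneg (by positivity)]
  have h4 : 1 / Real.sqrt (4 * Real.pi * t) * ‖∫ x : ℝ, X (pt y u v + x) * ((Real.exp (-(x ^ 2 / (4 * t))) : ℝ) : ℂ)‖ ≤ D * Real.sqrt 2 := by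
    calc 1 / Real.sqrt (4 * Real.pi * t) * ‖∫ x : ℝ, X (pt y u v + x) * ((Real.exp (-(x ^ 2 / (4 * t))) : ℝ) : ℂ)‖
        ≤ 1 / Real.sqrt (4 * Real.pi * t) * (D * (Real.sqrt 2 * Real.sqrt (4 * Real.pi * t))) := by gcongr
      _ = D * Real.sqrt 2 := by field_simp
  refine h4.trans ?_
  have h5 : Real.sqrt 2 ≤ Real.exp 1 := by
    have h6 : Real.sqrt 2 ≤ 2 := by
      rw [Real.sqrt_le_left (by norm_num)]; norm_num
    have := Real.add_one_le_exp (1 : ℝ)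
    linarith
  calc D * Real.sqrt 2 ≤ D * Real.exp 1 := by gcongr
    _ = M * Real.exp (ℓ * (R + a + 2 * τ) + K * (1 + 2 * R ^ 2 + v ^ 2) + 1) := by
        rw [hD, Real.exp_add _ (1 : ℝ)]; ring
    _ ≤ _ := by
        refine mul_le_mul_of_nonneg_left (Real.exp_le_exp.mpr ?_) hM.le
        have h7 : ℓ * (R + a + 2 * τ) ≤ ℓ * (R + a + 2 * T₀) := by gcongr
        have h8 : K * (1 + 2 * R ^ 2) ≤ K * (1 + 2 * R ^ 2) * ℓ := le_mul_of_one_le_right (by positivity) hℓ1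
        have h9 : K * v ^ 2 ≤ (R + a + 2 * T₀ + K * (1 + 2 * R ^ 2) + 1 + 1) * v ^ 2 := by
          refine mul_le_mul_of_nonneg_right ?_ (sq_nonneg v)
          nlinarith [sq_nonneg R, mul_nonneg (by linarith : (0:ℝ) ≤ K) (sq_nonneg R)]
        nlinarith

end Pool.Agent.H487.NZ
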