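import Pool.Agent.H487.NZ.XInt

/-!
# A zero free half plane of the function puts the zeros of the heat flow on the line
-/

set_option autoImplicit false

open MeasureTheory Set Filter Topology Metric
open scoped ComplexConjugate

namespace Pool.Agent.H487.NZ

open NB

variable {X : ℂ → ℂ} {a K M ℓ y τ β ε R η T₀ r : ℝ} {w : ℂ}

/-- size of the right average -/
lemma rr_low (C : XC X a K M ℓ y τ β ε R η T₀) (S : SP X M ℓ y τ ε r w) (h1 : -(η / 16) ≤ r) (h2 : r ≤ a) :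
    0 < ‖X w * gk (τ / (2 * ℓ)) (pt y r 0) w‖ ∧
    1 / 2 * Real.sqrt (4 * Real.pi * (τ / (2 * ℓ))) * ‖X w * gk (τ / (2 * ℓ)) (pt y r 0) w‖ ≤
      ‖RR (τ / (2 * ℓ)) X (1 / 2 + y * Complex.I) r‖ := by
  have hs := size_sp C S h1 h2
  have hM := C.B.hM
  have h3 := (est C S h1 h2).1
  refine ⟨lt_of_lt_of_le (by positivity) hs, ?_⟩
  have h4 := norm_sub_norm_le (((Real.sqrt (4 * Real.pi * (τ / (2 * ℓ))) : ℝ) : ℂ) *
        (X w * gk (τ / (2 * ℓ)) (pt y r 0) w)) (RR (τ / (2 * ℓ)) X (1 / 2 + y * Complex.I) r)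
  rw [norm_sub_rev, norm_mul, Complex.norm_real, Real.norm_of_nonneg (Real.sqrt_nonneg _)] at h4
  linarith

/-- near the line the modulus of the right average increases -/
lemma re_pos (C : XC X a K M ℓ y τ β ε R η T₀) (h : |r| ≤ η / 16) :
    0 < (RD (τ / (2 * ℓ)) X (1 / 2 + y * Complex.I) r * conj (RR (τ / (2 * ℓ)) X (1 / 2 + y * Complex.I) r)).re := by
  have c1 := C.hη
  have c1' := C.hη1
  have c2 := C.hητ
  have c3 := C.hτT
  have c4 := C.hβτ
  have c6 := C.hℓ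
  have c7 := C.ha1
  have c8 := C.hε
  have c11 := C.hεη
  have c12 := C.hk3
  obtain ⟨s1, s2⟩ := C.small
  obtain ⟨r1, r2⟩ := abs_le.mp h
  obtain ⟨w, S⟩ := C.exists_sp r1 (by linarith)
  obtain ⟨l1, l2⟩ := rr_low C S r1 (by linarith)
  have e2 := (est C S r1 (by linarith)).2
  obtain ⟨p1, p2⟩ := S.pos
  obtain ⟨q1, q2⟩ := abs_le.mp p1
  set κ : ℝ := Real.sqrt (4 * Real.pi * (τ / (2 * ℓ))) with hκ
  set W : ℂ := X w * gk (τ / (2 * ℓ)) (pt y r 0) w with hW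
  set Q : ℂ := RR (τ / (2 * ℓ)) X (1 / 2 + y * Complex.I) r with hQ
  set Q' : ℂ := RD (τ / (2 * ℓ)) X (1 / 2 + y * Complex.I) r with hQ'
  set G : ℂ := logDeriv X w with hG
  have hκ0 : 0 < κ := by
    rcases (Real.sqrt_nonneg (4 * Real.pi * (τ / (2 * ℓ)))).lt_or_eq with h | h
    · exact h
    · rw [hκ, ← h, mul_zero] at c12
      linarith
  have hQ0 : 0 < ‖Q‖ := lt_of_lt_of_le (by positivity) l2
  have hGre : ℓ / 2 ≤ G.re := by
    have h3 := C.G.lg w (by linarith) (by linarith [C.hR, C.B.ha]) (by linarith)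
    have h4 := (Complex.abs_re_le_norm (G - (ℓ : ℂ))).trans h3
    rw [Complex.sub_re, Complex.ofReal_re] at h4
    have h5 := (abs_le.mp h4).1
    have h6 : ε ≤ 1 / 2 := by
      have h7 : 0 ≤ ε * (4 * T₀) := by
        have : 0 ≤ T₀ := by linarith
        positivity
      linarith
    have h8 : ε * ℓ ≤ 1 / 2 * ℓ := by gcongr
    linarith
  have hD : ‖Q' - G * Q‖ ≤ 2 * ℓ / 5 * ‖Q‖ := by
    refine e2.trans ?_
    -- `40 ‖W‖ ≤ (2ℓ/5) ½ κ ‖W‖`
    have h3 : 40 * ‖W‖ ≤ 2 * ℓ / 5 * (1 / 2 * κ * ‖W‖) := by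
      have h4 : 200 * ‖W‖ ≤ ℓ * κ * ‖W‖ := by gcongr
      linarith
    exact h3.trans (by gcongr)
  have e3 : Q' * conj Q = G * ((‖Q‖ ^ 2 : ℝ) : ℂ) + (Q' - G * Q) * conj Q := by
    have h3 : Q * conj Q = ((‖Q‖ ^ 2 : ℝ) : ℂ) := by rw [Complex.mul_conj, Complex.normSq_eq_norm_sq]
    rw [← h3]
    ring
  rw [e3, Complex.add_re, Complex.re_mul_ofReal]
  have h3 : -(‖Q' - G * Q‖ * ‖Q‖) ≤ ((Q' - G * Q) * conj Q).re := by
    have h4 := Complex.abs_re_le_norm ((Q' - G * Q) * conj Q)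
    rw [norm_mul, RCLike.norm_conj] at h4
    exact (abs_le.mp h4).1
  have h4 : ‖Q' - G * Q‖ * ‖Q‖ ≤ 2 * ℓ / 5 * ‖Q‖ * ‖Q‖ := by gcongr
  have h5 : ℓ / 2 * ‖Q‖ ^ 2 ≤ G.re * ‖Q‖ ^ 2 := by gcongr
  have h6 : 0 < ℓ * ‖Q‖ ^ 2 := by positivity
  have h7 : 2 * ℓ / 5 * ‖Q‖ * ‖Q‖ = 2 / 5 * (ℓ * ‖Q‖ ^ 2) := by ring
  have h8 : ℓ / 2 * ‖Q‖ ^ 2 = 1 / 2 * (ℓ * ‖Q‖ ^ 2) := by ring
  linarith

/-- the left average is smaller -/
lemma left_small (C : XC X a K M ℓ y τ β ε R η T₀) (h1 : η / 16 ≤ r) (h2 : r ≤ a) :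
    ‖RR (τ / (2 * ℓ)) X (1 / 2 + y * Complex.I) (-r)‖ < ‖RR (τ / (2 * ℓ)) X (1 / 2 + y * Complex.I) r‖ := by
  have c1 := C.hη
  have c1' := C.hη1
  have c2 := C.hητ
  have c3 := C.hτT
  have c4 := C.hβτ
  have c5 := C.hβ
  have c5' := C.hβa
  have c6 := C.hℓ
  have c7 := C.ha1
  have c8 := C.hε
  have c9 := C.hε1
  have c10 := C.hR
  have c11 := C.hεη
  have c12 := C.hk3
  have c13 := C.hk1
  have c14 := C.hℓη
  have c15 := C.hℓK2
  have hM := C.B.hM
  have hK := C.B.hK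
  have hτ0 : 0 < τ := by linarith
  have hT0 : 0 < T₀ := by linarith
  have hR0 : 0 < R := by linarith
  obtain ⟨s1, s2⟩ := C.small
  obtain ⟨w, S⟩ := C.exists_sp (by linarith : -(η / 16) ≤ r) h2
  obtain ⟨l1, l2⟩ := rr_low C S (by linarith) h2
  have hsize := size_sp C S (by linarith) h2
  have hstrip0 := C.strip
  have hup := C.G.up
  set t : ℝ := τ / (2 * ℓ) with ht
  have ht0 : 0 < t := by positivity
  set κ : ℝ := Real.sqrt (4 * Real.pi * t) with hκ
  set W : ℂ := X w * gk t (pt y r 0) w with hW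
  have hκ0 : 0 < κ := by
    rcases (Real.sqrt_nonneg (4 * Real.pi * t)).lt_or_eq with h | h
    · exact h
    · rw [hκ, ← h, mul_zero] at c12
      linarith
  set B₁ : ℝ := M * Real.exp (ℓ * β + 2 * ε * ℓ) with hB₁
  set B₂ : ℝ := M * Real.exp (ℓ * (τ / 2 - r) + ε * ℓ) with hB₂
  have hB₁0 : 0 < B₁ := by positivity
  have hB₂0 : 0 < B₂ := by positivity
  have hετ : ε * (3 + 4 * τ) ≤ η / 64 := by
    refine le_trans ?_ c11
    gcongr
  have hετ0 : 0 < ε * τ := by positivity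
  -- comparison with `W`
  have hB₁W : B₁ ≤ ‖W‖ * Real.exp (-(η * ℓ / 4)) := by
    refine le_trans ?_ (mul_le_mul_of_nonneg_right hsize (Real.exp_pos _).le)
    rw [hB₁, mul_assoc M, ← Real.exp_add]
    refine mul_le_mul_of_nonneg_left (Real.exp_le_exp.mpr ?_) hM.le
    have h3 : β + 2 * ε + ε * (1 + 3 * τ) + η / 4 ≤ r + τ / 2 := by linarith
    have h4 := mul_le_mul_of_nonneg_left h3 (by linarith : (0:ℝ) ≤ ℓ)
    linarith
  have hB₂W : B₂ ≤ ‖W‖ * (1 / 16) := by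
    refine le_trans ?_ (mul_le_mul hsize exp_neg_four (Real.exp_pos _).le (norm_nonneg _))
    rw [hB₂, mul_assoc M, ← Real.exp_add]
    refine mul_le_mul_of_nonneg_left (Real.exp_le_exp.mpr ?_) hM.le
    have h3 : τ / 2 - r + ε + ε * (1 + 3 * τ) + η / 16 ≤ r + τ / 2 := by linarith
    have h4 := mul_le_mul_of_nonneg_left h3 (by linarith : (0:ℝ) ≤ ℓ)
    linarith
  -- the pointwise bound
  set g : ℝ → ℝ := fun x => (Ioc (0 : ℝ) β).indicator (fun _ => B₁) x + B₂ * Real.exp (-((x - (τ - r)) ^ 2 / (4 * (2 * t)))) with hg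
  have e2 : ∀ x : ℝ, x ^ 2 / (4 * t) = x ^ 2 * (ℓ / (2 * τ)) := fun x => by rw [ht]; field_simp; ring
  have e3 : ∀ x : ℝ, x ^ 2 / (4 * (2 * t)) = x ^ 2 * (ℓ / (4 * τ)) := fun x => by rw [ht]; field_simp
  have hcpt : ∀ x : ℝ, 1 / 2 + (y : ℂ) * Complex.I + x = pt y x 0 := fun x => by
    apply Complex.ext <;> simp
  have hpt : ∀ x : ℝ, 0 < x → ‖X (1 / 2 + y * Complex.I + x) * ((Real.exp (-((x - -r) ^ 2 / (4 * t))) : ℝ) : ℂ)‖ ≤ g x := by
    intro x hx
    rw [norm_mul, Complex.norm_real, Real.norm_of_nonneg (Real.exp_pos _).le, hcpt, sub_neg_eq_add]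
    simp only [hg]
    have hg2 : 0 ≤ B₂ * Real.exp (-((x - (τ - r)) ^ 2 / (4 * (2 * t)))) := by positivity
    rcases le_or_gt x β with hxβ | hxβ
    · rw [indicator_of_mem (show x ∈ Ioc (0 : ℝ) β from ⟨hx, hxβ⟩)]
      have h3 := hstrip0 x 0 (by rw [abs_of_pos hx]; exact hxβ) (by simp)
      have h4 : Real.exp (-((x + r) ^ 2 / (4 * t))) ≤ 1 := Real.exp_le_one_iff.mpr (neg_nonpos.mpr (by positivity))
      calc ‖X (pt y x 0)‖ * Real.exp (-((x + r) ^ 2 / (4 * t))) ≤ B₁ * 1 := by gcongr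
        _ ≤ _ := by linarith
    · rw [indicator_of_notMem (show x ∉ Ioc (0 : ℝ) β from fun h => absurd h.2 (not_le.mpr hxβ)), zero_add]
      have k1 : ℓ * x - (x + r) ^ 2 * (ℓ / (2 * τ)) = ℓ * (τ / 2 - r) - 2 * ((x - (τ - r)) ^ 2 * (ℓ / (4 * τ))) := by
        field_simp
        ring
      have k2 : 0 ≤ (x - (τ - r)) ^ 2 * (ℓ / (4 * τ)) := by positivity
      have k3 : 0 ≤ ε * ℓ := by positivity
      rcases le_or_gt x R with hxR | hxR
      · have h3 := hup x 0 hxβ.le hxR (by simp)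
        rw [zero_div, add_zero] at h3
        rw [e2, e3, hB₂, mul_assoc M, ← Real.exp_add]
        refine (mul_le_mul_of_nonneg_right h3 (Real.exp_pos _).le).trans ?_
        rw [mul_assoc M, ← Real.exp_add]
        refine mul_le_mul_of_nonneg_left (Real.exp_le_exp.mpr ?_) hM.le
        linarith
      · have h3 := C.B.up x 0
        have hmax : max |x| a = x := by
          rw [abs_of_pos hx]
          exact max_eq_left (by linarith)
        rw [hmax] at h3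
        rw [e2, e3, hB₂, mul_assoc M, ← Real.exp_add]
        refine (mul_le_mul_of_nonneg_right h3 (Real.exp_pos _).le).trans ?_
        rw [mul_assoc M, ← Real.exp_add]
        refine mul_le_mul_of_nonneg_left (Real.exp_le_exp.mpr ?_) hM.le
        have h4 : K * (1 + x ^ 2 + 0 ^ 2) ≤ (x - (τ - r)) ^ 2 * (ℓ / (4 * τ)) := by
          have h5 : 2 * x / R ≤ x - (τ - r) := by
            rw [div_le_iff₀ hR0]
            have g1 := mul_nonneg (by linarith : 0 ≤ x - R) (by linarith : 0 ≤ R - 2)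
            have g2 := mul_nonneg hR0.le (by linarith : 0 ≤ R - 2 - T₀)
            have g3 := mul_nonneg hR0.le (by linarith : 0 ≤ T₀ - (τ - r))
            linarith
          have h6 : 0 ≤ 2 * x / R := by positivity
          have h7 := pow_le_pow_left₀ h6 h5 2
          have h8 : (2 * x / R) ^ 2 * (ℓ / (4 * τ)) ≤ (x - (τ - r)) ^ 2 * (ℓ / (4 * τ)) := by gcongr
          refine le_trans ?_ h8
          have e5 : (2 * x / R) ^ 2 * (ℓ / (4 * τ)) = x ^ 2 * (ℓ / (R ^ 2 * τ)) := by field_simp; ring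
          rw [e5]
          have hx1 : 1 ≤ x ^ 2 := one_le_pow₀ (by linarith : 1 ≤ x)
          have h9 : K * (1 + x ^ 2 + 0 ^ 2) ≤ x ^ 2 * (2 * K) := by
            have g1 := mul_nonneg (by linarith : 0 ≤ K) (sub_nonneg.mpr hx1)
            linarith
          refine h9.trans (mul_le_mul_of_nonneg_left ?_ (sq_nonneg x))
          rw [le_div_iff₀ (by positivity)]
          have h10 : 2 * K * (R ^ 2 * τ) ≤ 2 * K * (R ^ 2 * T₀) := by gcongr
          have h11 : 0 ≤ K * R ^ 2 * T₀ := by positivity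
          linarith
        linarith
  obtain ⟨i1, v1⟩ := gint (t := 2 * t) (by positivity) (τ - r)
  have hgi : Integrable g := by
    refine Integrable.add ?_ (i1.const_mul B₂)
    exact (integrable_indicator_iff measurableSet_Ioc).mpr (integrableOn_const (by simp))
  have hg0 : ∀ x, 0 ≤ g x := fun x => by
    simp only [hg]
    have : 0 ≤ (Ioc (0 : ℝ) β).indicator (fun _ => B₁) x := indicator_nonneg (fun _ _ => hB₁0.le) x
    positivity
  have hgint : ∫ x, g x = β * B₁ + B₂ * Real.sqrt (4 * Real.pi * (2 * t)) := by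
    simp only [hg]
    rw [integral_add ((integrable_indicator_iff measurableSet_Ioc).mpr (integrableOn_const (by simp))) (i1.const_mul B₂),
      integral_const_mul, v1, integral_indicator measurableSet_Ioc, setIntegral_const]
    congr 1
    rw [Real.volume_real_Ioc_of_le c5.le, sub_zero, smul_eq_mul]
  have hfin : ‖RR t X (1 / 2 + y * Complex.I) (-r)‖ ≤ β * B₁ + B₂ * Real.sqrt (4 * Real.pi * (2 * t)) := by
    rw [← hgint]
    unfold RR
    refine (norm_integral_le_of_norm_le (hgi.integrableOn (s := Ioi 0)) ?_).trans ?_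
    · exact (ae_restrict_mem measurableSet_Ioi).mono fun x hx => hpt x hx
    · exact setIntegral_le_integral hgi (Eventually.of_forall hg0)
  have hsq : Real.sqrt (4 * Real.pi * (2 * t)) ≤ 2 * κ := by
    have h3 : Real.sqrt (4 * Real.pi * (2 * t)) ≤ Real.sqrt (4 * (4 * Real.pi * t)) := by
      apply Real.sqrt_le_sqrt
      have : 0 < Real.pi * t := mul_pos Real.pi_pos ht0
      linarith
    refine h3.trans (le_of_eq ?_)
    rw [Real.sqrt_mul (by norm_num), hκ]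
    congr 1
    rw [show (4 : ℝ) = 2 ^ 2 by norm_num]
    exact Real.sqrt_sq (by norm_num)
  have hsmall : (a + 2) * Real.exp (-(η * ℓ / 4)) ≤ κ / 16 := by
    refine le_trans ?_ c13
    refine mul_le_mul_of_nonneg_right ?_ (Real.exp_pos _).le
    have hC3 : 0 ≤ (a + 2) * (((2 * a + 4) / η + 2) * ℓ) := by positivity
    linarith
  refine lt_of_le_of_lt hfin (lt_of_lt_of_le ?_ l2)
  have k1 : β * B₁ ≤ κ / 16 * ‖W‖ := by
    calc β * B₁ ≤ (a + 2) * (‖W‖ * Real.exp (-(η * ℓ / 4))) := by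
          gcongr
          linarith
      _ = ((a + 2) * Real.exp (-(η * ℓ / 4))) * ‖W‖ := by ring
      _ ≤ _ := by gcongr
  have k2 : B₂ * Real.sqrt (4 * Real.pi * (2 * t)) ≤ (‖W‖ * (1 / 16)) * (2 * κ) := by gcongr
  have k3 : 0 < κ * ‖W‖ := by positivity
  linarith

/-- `XC` for large `ℓ` -/
theorem xc_of (a K T₀ η : ℝ) (ha : 1 ≤ a) (hη : 0 < η) (hη1 : η ≤ 1) :
    ∃ A ℓ₀ ε R : ℝ, 0 ≤ A ∧ 1 ≤ ℓ₀ ∧ ∀ (X : ℂ → ℂ) (M ℓ y : ℝ), Base X a K M ℓ y → ℓ₀ ≤ ℓ → ∀ τ b : ℝ,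
      τ ≤ T₀ → 0 ≤ b → b ≤ a → 2 * b + η ≤ τ → (∀ z : ℂ, 1 / 2 + b < z.re → |z.im - y| ≤ A → X z ≠ 0) →
      XC X a K M ℓ y τ (b + η / 16) ε R η T₀ := by
  by_cases hTT : η ≤ T₀
  swap
  · exact ⟨0, 1, 0, 0, le_rfl, le_rfl, fun X M ℓ y B hℓ τ b h1 h2 h3 h4 => absurd (by linarith : η ≤ T₀) hTT⟩
  have hT0 : 0 < T₀ := by linarith
  set ε : ℝ := min (min (1 / (64 * T₀)) (1 / (64 * T₀ ^ 2))) (min (η / 64 / (3 + 4 * T₀)) 1) with hε
  have hε0 : 0 < ε := by positivity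
  have hε1 : ε * (64 * T₀) ≤ 1 := by
    have : ε ≤ 1 / (64 * T₀) := (min_le_left _ _).trans (min_le_left _ _)
    rwa [le_div_iff₀ (by positivity)] at this
  have hε2 : ε * (64 * T₀ ^ 2) ≤ 1 := by
    have : ε ≤ 1 / (64 * T₀ ^ 2) := (min_le_left _ _).trans (min_le_right _ _)
    rwa [le_div_iff₀ (by positivity)] at this
  have hε3 : ε * (3 + 4 * T₀) ≤ η / 64 := by
    have : ε ≤ η / 64 / (3 + 4 * T₀) := (min_le_right _ _).trans (min_le_left _ _)
    rwa [le_div_iff₀ (by positivity)] at this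
  have hε4 : ε ≤ 1 := (min_le_right _ _).trans (min_le_right _ _)
  set R : ℝ := a + T₀ + 2 with hR
  set c : ℝ := ε / (4 * (a + 1) ^ 2) with hc
  have hc0 : 0 < c := by positivity
  set Am : ℝ := 1 + (a + 2) / c with hAm
  have hAm1 : 1 ≤ Am := by
    have : 0 ≤ (a + 2) / c := by positivity
    linarith
  have hcA : a + 2 ≤ c * Am ^ 2 := by
    have h3 : (a + 2) / c ≤ Am := by rw [hAm]; linarith
    have h4 : Am ≤ Am ^ 2 := le_self_pow₀ hAm1 two_ne_zero
    have h5 : (a + 2) / c ≤ Am ^ 2 := h3.trans h4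
    rw [div_le_iff₀ hc0] at h5
    linarith
  obtain ⟨L1, hL1, H4⟩ := x4 a K (2 * Am) R (η / 16) ε (by linarith) (by positivity) (by linarith) hε0 (by linarith) (by linarith)
  set C₃ : ℝ := (2 * a + 4) / η + 2 with hC₃
  have hC₃0 : 0 < C₃ := by positivity
  set L2 : ℝ := 64 / η with hL2
  set L3 : ℝ := 64 * T₀ * (|K| * (4 + 2 * (a + T₀) ^ 2) + 3) with hL3
  set L4 : ℝ := 8 * |K| * T₀ * R ^ 2 with hL4
  set L5 : ℝ := 16 * T₀ with hL5
  set L6 : ℝ := 40000 / η with hL6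
  set L7 : ℝ := 64 * (a + 2) * (C₃ + 1) / η ^ 3 with hL7
  set L8 : ℝ := |K| * (1 + (a + 1) ^ 2 + (2 * Am) ^ 2) with hL8
  refine ⟨2 * Am + (a + 4), max L1 (max L2 (max L3 (max L4 (max L5 (max L6 (max L7 L8)))))), ε, R, by linarith,
    hL1.trans (le_max_left _ _), fun X M ℓ y B hℓ τ b hτT hb hba hbτ hz => ?_⟩
  have l1 : L1 ≤ ℓ := (le_max_left _ _).trans hℓ
  have l' := (le_max_right _ _).trans hℓ
  have l2 : L2 ≤ ℓ := (le_max_left _ _).trans l'
  have l'' := (le_max_right _ _).trans l'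
  have l3 : L3 ≤ ℓ := (le_max_left _ _).trans l''
  have l3' := (le_max_right _ _).trans l''
  have l4 : L4 ≤ ℓ := (le_max_left _ _).trans l3'
  have l4' := (le_max_right _ _).trans l3'
  have l5 : L5 ≤ ℓ := (le_max_left _ _).trans l4'
  have l5' := (le_max_right _ _).trans l4'
  have l6 : L6 ≤ ℓ := (le_max_left _ _).trans l5'
  have l6' := (le_max_right _ _).trans l5'
  have l7 : L7 ≤ ℓ := (le_max_left _ _).trans l6'
  have l8 : L8 ≤ ℓ := (le_max_right _ _).trans l6'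
  have hℓ1 : 1 ≤ ℓ := hL1.trans l1
  have hK := B.hK
  have hM := B.hM
  have hKabs : |K| = K := abs_of_pos (by linarith)
  have hτη : η ≤ τ := by linarith
  have hτ0 : 0 < τ := by linarith
  have G := H4 X M ℓ y B l1 b hb hba hz
  set β : ℝ := b + η / 16 with hβ
  have hβ0 : 0 < β := by linarith
  have hβa : β ≤ a + 1 := by linarith
  have G1 : HGood X M ℓ y 0 β ε R 1 :=
    ⟨G.diff, fun z z1 z2 z3 => G.ne z z1 z2 (by linarith), fun z z1 z2 z3 => G.lg z z1 z2 (by linarith),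
      fun z w z1 z2 z3 w1 w2 w3 => G.lip z w z1 z2 (by linarith) w1 w2 (by linarith),
      fun u v u1 u2 v1 => G.lo u v u1 u2 (by linarith), fun u v u1 u2 v1 => G.up u v u1 u2 (by linarith)⟩
  -- the strip
  have hstrip : ∀ u v : ℝ, |u| ≤ β → |v| ≤ 1 → ‖X (pt y u v)‖ ≤ M * Real.exp (ℓ * β + 2 * ε * ℓ) := by
    intro u v hu hv
    set P : ℝ := M * Real.exp (ℓ * β + ε * ℓ) with hP
    have hsym : ∀ u v : ℝ, ‖X (pt y (-u) v)‖ = ‖X (pt y u v)‖ := by
      intro u v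
      obtain ⟨ε', hε', hfe⟩ := B.fe
      rw [hfe (pt y (-u) v), norm_mul, hε', one_mul, RCLike.norm_conj]
      congr 2
      apply Complex.ext
      · simp only [Complex.sub_re, Complex.one_re, Complex.conj_re, pt_re]; ring
      · simp only [Complex.sub_im, Complex.one_im, Complex.conj_im, pt_im]; ring
    have h3 := strip_max B.diff (y := y) (β := β) (A := Am) (c := c) (D := a + 2) (ℓ := ℓ) (P := P) hβ0 (by linarith) hc0.le (by linarith)
      (by positivity) hcA (fun v hv => ?_) (fun u v hu hv => ?_) (u₀ := u) (v₀ := v) hu (by linarith)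
    · refine h3.trans ?_
      rw [hP, mul_assoc, ← Real.exp_add]
      refine mul_le_mul_of_nonneg_left (Real.exp_le_exp.mpr ?_) hM.le
      have h4 : 4 * c * β ^ 2 ≤ ε := by
        have h5 : β ^ 2 ≤ (a + 1) ^ 2 := pow_le_pow_left₀ hβ0.le hβa 2
        have h6 : 4 * c * (a + 1) ^ 2 = ε := by rw [hc]; field_simp
        calc 4 * c * β ^ 2 ≤ 4 * c * (a + 1) ^ 2 := by gcongr
          _ = ε := h6
      have h5 : 4 * c * β ^ 2 * ℓ ≤ ε * ℓ := by gcongr
      linarith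
    · have h4 := G.up β v le_rfl (by linarith) hv
      rw [zero_div, add_zero] at h4
      exact ⟨h4, by rw [hsym]; exact h4⟩
    · have h4 := B.up u v
      refine h4.trans ?_
      rw [hP, mul_assoc, ← Real.exp_add]
      refine mul_le_mul_of_nonneg_left (Real.exp_le_exp.mpr ?_) hM.le
      have h5 : max |u| a ≤ a + 1 := max_le (hu.trans hβa) (by linarith)
      have h6 : ℓ * max |u| a ≤ ℓ * (a + 1) := by gcongr
      have h7 : K * (1 + u ^ 2 + v ^ 2) ≤ ℓ := by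
        refine le_trans ?_ l8
        rw [hL8, hKabs]
        have h8 : u ^ 2 ≤ (a + 1) ^ 2 := by rw [← sq_abs]; exact pow_le_pow_left₀ (abs_nonneg _) (hu.trans hβa) 2
        have h9 : v ^ 2 ≤ (2 * Am) ^ 2 := by rw [← sq_abs]; exact pow_le_pow_left₀ (abs_nonneg _) hv 2
        gcongr
      have h8 : 0 ≤ ℓ * β + ε * ℓ := by positivity
      linarith
  -- numerical conditions
  have hκsq : 4 * Real.pi * (τ / (2 * ℓ)) = 2 * Real.pi * τ / ℓ := by field_simp; ring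
  have hpi := Real.pi_gt_three
  have hpi4 := Real.pi_le_four
  have hk2 : Real.sqrt (4 * Real.pi * (τ / (2 * ℓ))) ≤ 1 := by
    apply Real.sqrt_le_one.mpr
    rw [hκsq, div_le_one (by linarith)]
    have h3 : 2 * Real.pi * τ ≤ 2 * 4 * T₀ := by gcongr
    rw [hL5] at l5
    linarith
  have hk3 : 200 ≤ ℓ * Real.sqrt (4 * Real.pi * (τ / (2 * ℓ))) := by
    have h3 : (200 / ℓ) ≤ Real.sqrt (4 * Real.pi * (τ / (2 * ℓ))) := by
      rw [Real.le_sqrt' (by positivity), hκsq, div_pow, div_le_div_iff₀ (by positivity) (by linarith)]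
      rw [hL6, div_le_iff₀ hη] at l6
      have h4 : ℓ * η ≤ 2 * Real.pi * τ * ℓ := by
        have h5 : η ≤ 2 * Real.pi * τ := by
          have h6 := mul_le_mul_of_nonneg_right (by linarith : 1 ≤ 2 * Real.pi) hτ0.le
          linarith
        have h7 := mul_le_mul_of_nonneg_left h5 (by linarith : 0 ≤ ℓ)
        linarith
      have h5 : (200 : ℝ) ^ 2 = 40000 := by norm_num
      rw [h5]
      calc (40000 : ℝ) * ℓ ≤ (2 * Real.pi * τ * ℓ) * ℓ := by
            refine mul_le_mul_of_nonneg_right ?_ (by linarith)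
            linarith
        _ = 2 * Real.pi * τ * ℓ ^ 2 := by ring
    rw [div_le_iff₀ (by linarith)] at h3
    linarith
  have hk1 : (a + 2) * (((2 * a + 4) / η + 2) * ℓ + 1) * Real.exp (-(η * ℓ / 4)) ≤
      Real.sqrt (4 * Real.pi * (τ / (2 * ℓ))) / 16 := by
    rw [← hC₃]
    set κ : ℝ := Real.sqrt (4 * Real.pi * (τ / (2 * ℓ))) with hκ
    have h3 : Real.exp (-(η * ℓ / 4)) ≤ 6 * 64 / (η * ℓ) ^ 3 := by
      have h4 := Real.pow_div_factorial_le_exp (η * ℓ / 4) (by positivity) 3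
      have h5 : (Nat.factorial 3 : ℝ) = 6 := by norm_num [Nat.factorial]
      rw [h5] at h4
      rw [Real.exp_neg, inv_eq_one_div, div_le_div_iff₀ (Real.exp_pos _) (by positivity), one_mul]
      have e : (η * ℓ / 4) ^ 3 / 6 = (η * ℓ) ^ 3 / (6 * 64) := by ring
      rw [e, div_le_iff₀ (by norm_num)] at h4
      linarith
    have h4 : C₃ * ℓ + 1 ≤ (C₃ + 1) * ℓ := by linarith
    have h5 : 200 / ℓ ≤ κ := by rw [div_le_iff₀ (by linarith)]; linarith
    calc (a + 2) * (C₃ * ℓ + 1) * Real.exp (-(η * ℓ / 4)) ≤ (a + 2) * ((C₃ + 1) * ℓ) * (6 * 64 / (η * ℓ) ^ 3) := by gcongr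
      _ = (6 * (64 * (a + 2) * (C₃ + 1) / η ^ 3) / ℓ) / ℓ := by field_simp
      _ ≤ 6 / ℓ := by
          rw [← hL7]
          refine div_le_div_of_nonneg_right ?_ (by linarith)
          rw [div_le_iff₀ (by linarith)]
          linarith
      _ ≤ 200 / ℓ / 16 := by
          rw [div_div]
          rw [div_le_div_iff₀ (by linarith) (by linarith)]
          linarith
      _ ≤ κ / 16 := by gcongr
  refine ⟨B, G1, hstrip, ha, hη, hη1, hτη, hτT, hβ0, by linarith, hβa, rfl, hε0, hε4, hε1, hε2, hε3, hℓ1, ?_, ?_, ?_, hk1, hk2, hk3⟩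
  · rw [hL2, div_le_iff₀ hη] at l2
    linarith
  · rw [hL3, hKabs] at l3
    exact l3
  · rw [hL4, hKabs] at l4
    exact l4

/-- **a zero free half plane near height `y` puts the zeros of the heat flow at height `y` on the line** -/
theorem x5 (a K T₀ η : ℝ) (ha : 1 ≤ a) (hη : 0 < η) :
    ∃ A ℓ₀ : ℝ, 0 ≤ A ∧ 1 ≤ ℓ₀ ∧ ∀ (X : ℂ → ℂ) (M ℓ y : ℝ), Base X a K M ℓ y → ℓ₀ ≤ ℓ → ∀ τ b : ℝ,
      τ ≤ T₀ → 0 ≤ b → b ≤ a → 2 * b + η ≤ τ → (∀ z : ℂ, 1 / 2 + b < z.re → |z.im - y| ≤ A → X z ≠ 0) →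
      ∀ r : ℝ, |r| ≤ a → heat (τ / (2 * ℓ)) X (1 / 2 + y * Complex.I + r) = 0 →
        r = 0 ∧ deriv (heat (τ / (2 * ℓ)) X) (1 / 2 + y * Complex.I) ≠ 0 := by
  obtain ⟨A, ℓ₀, ε, R, hA, hℓ₀, H⟩ := xc_of a K T₀ (min η 1) ha (lt_min hη one_pos) (min_le_right _ _)
  refine ⟨A, ℓ₀, hA, hℓ₀, fun X M ℓ y B hℓ τ b hτT hb hba hbτ hz r hr hr0 => ?_⟩
  have hm := min_le_left η 1
  have C := H X M ℓ y B hℓ τ b hτT hb hba (by linarith) hz
  obtain ⟨ε', hε', hfe⟩ := B.fe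
  have hη' := C.hη
  have hτ0 : 0 < τ := by linarith [C.hητ]
  have hℓ1 := C.hℓ
  exact zero_final B.diff B.slow hε' hfe (by positivity : 0 < τ / (2 * ℓ)) (r₀ := min η 1 / 16) (R := a) (by positivity)
    (fun r hr => re_pos C hr) (fun r hr1 hr2 => left_small C hr1 hr2) hr hr0

end Pool.Agent.H487.NZ
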