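import Pool.Agent.H487.NZ.HSize
import Pool.Agent.H487.NZ.HCrude
import Pool.Agent.H487.NZ.Shift

/-!
# Zeros of the heat flow on the line force the original function to be zero free
-/

set_option autoImplicit false

open MeasureTheory Set Filter Topology Metric
open scoped ComplexConjugate

namespace Pool.Agent.H487.NZ

open NB

lemma exp_neg_three : Real.exp (-3 : ℝ) ≤ 1 / 8 := by
  have h1 : (2 : ℝ) ≤ Real.exp 1 := by
    have := Real.add_one_le_exp (1 : ℝ); linarith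
  have h2 : Real.exp (3 : ℝ) = Real.exp 1 ^ 3 := by rw [← Real.exp_nat_mul]; norm_num
  have h3 : (8 : ℝ) ≤ Real.exp 3 := by
    rw [h2]
    calc (8 : ℝ) = 2 ^ 3 := by norm_num
      _ ≤ Real.exp 1 ^ 3 := by gcongr
  rw [Real.exp_neg, ← one_div]
  exact one_div_le_one_div_of_le (by norm_num) h3

/-- the saddle point -/
lemma saddle {H : ℂ → ℂ} {M ℓ y τ δ ε R A η : ℝ} (G : HGood H M ℓ y τ δ ε R A) (hτ : 0 < τ) (hℓ : 0 < ℓ)
    (hε : 0 ≤ ε) (hετ : ε * τ ≤ 1 / 2) (hη : 0 < η) (hεη : ε * τ ≤ η) {s : ℂ} (hs1 : 1 / 2 + δ + τ + η ≤ s.re)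
    (hs2 : s.re ≤ 1 / 2 + R + τ - η) (hs3 : |s.im - y| + η ≤ A) :
    ∃ z : ℂ, ‖z - (s - τ)‖ ≤ η ∧ s - z = 2 * ((τ / (2 * ℓ) : ℝ) : ℂ) * logDeriv H z := by
  set t : ℝ := τ / (2 * ℓ) with ht
  have ht0 : 0 < t := by positivity
  have htℓ : 2 * t * ℓ = τ := by rw [ht]; field_simp
  set S : Set ℂ := closedBall (s - τ) η with hS
  set Φ : ℂ → ℂ := fun z => s - 2 * (t : ℂ) * logDeriv H z with hΦ
  have hmem : ∀ z ∈ S, 1 / 2 + δ ≤ z.re ∧ z.re ≤ 1 / 2 + R ∧ |z.im - y| ≤ A := by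
    intro z hz
    have h1 := mem_ball_re hz
    have e1 : (s - (τ : ℂ)).re = s.re - τ := by simp
    have e2 : (s - (τ : ℂ)).im = s.im := by simp
    rw [e1, e2] at h1
    have h2 := abs_le.mp h1.1
    refine ⟨by linarith [h2.1], by linarith [h2.2], ?_⟩
    calc |z.im - y| = |(z.im - s.im) + (s.im - y)| := by ring_nf
      _ ≤ |z.im - s.im| + |s.im - y| := abs_add_le _ _
      _ ≤ A := by linarith [h1.2]
  have hmap : MapsTo Φ S S := by
    intro z hz
    obtain ⟨h1, h2, h3⟩ := hmem z hz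
    rw [hS, mem_closedBall, dist_eq_norm]
    have e : Φ z - (s - τ) = -(2 * (t : ℂ) * (logDeriv H z - ℓ)) := by
      simp only [hΦ]
      rw [← htℓ]
      push_cast
      ring
    rw [e, norm_neg, norm_mul, norm_mul, Complex.norm_real, Real.norm_of_nonneg ht0.le, Complex.norm_ofNat]
    have h4 := G.lg z h1 h2 h3
    calc 2 * t * ‖logDeriv H z - ℓ‖ ≤ 2 * t * (ε * ℓ) := by gcongr
      _ = ε * τ := by rw [← htℓ]; ring
      _ ≤ η := hεη
  have hlip : ∀ z ∈ S, ∀ w ∈ S, dist (Φ z) (Φ w) ≤ (1 / 2) * dist z w := by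
    intro z hz w hw
    obtain ⟨h1, h2, h3⟩ := hmem z hz
    obtain ⟨h4, h5, h6⟩ := hmem w hw
    rw [dist_eq_norm, dist_eq_norm]
    have e : Φ z - Φ w = -(2 * (t : ℂ) * (logDeriv H z - logDeriv H w)) := by
      simp only [hΦ]
      ring
    rw [e, norm_neg, norm_mul, norm_mul, Complex.norm_real, Real.norm_of_nonneg ht0.le, Complex.norm_ofNat]
    have h7 := G.lip z w h1 h2 h3 h4 h5 h6
    calc 2 * t * ‖logDeriv H z - logDeriv H w‖ ≤ 2 * t * (ε * ℓ * ‖z - w‖) := by gcongr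
      _ = (ε * τ) * ‖z - w‖ := by rw [← htℓ]; ring
      _ ≤ 1 / 2 * ‖z - w‖ := by gcongr
  have hcontr : ContractingWith (1 / 2 : NNReal) (hmap.restrict Φ S S) := by
    refine ⟨by
      have : ((1 / 2 : NNReal) : ℝ) < 1 := by norm_num
      exact_mod_cast this, LipschitzWith.of_dist_le_mul fun x w => ?_⟩
    have := hlip x x.2 w w.2
    rw [Subtype.dist_eq, Subtype.dist_eq]
    simpa using this
  have hc : s - (τ : ℂ) ∈ S := mem_closedBall_self hη.le
  obtain ⟨z, hz, hfix, -⟩ := ContractingWith.exists_fixedPoint' (isClosed_closedBall.isComplete) hmap hcontr hc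
    (edist_ne_top _ _)
  refine ⟨z, by rwa [hS, mem_closedBall, dist_eq_norm] at hz, ?_⟩
  have h1 : s - 2 * (t : ℂ) * logDeriv H z = z := hfix
  linear_combination h1

/-- the real inequality in the tails -/
lemma ineq_tail {ℓ τ T₀ K₂ ε A v w : ℝ} (hℓ : 1 ≤ ℓ) (hτ : 0 < τ) (hT : τ ≤ T₀) (hK₂ : 1 ≤ K₂) (hε : 0 ≤ ε) (hε1 : ε ≤ 1)
    (h1 : 32 * K₂ * T₀ ≤ ℓ) (h2 : 16 * T₀ * (2 * K₂ + 3) ≤ ℓ) (hA1 : 1 ≤ A) (hA2 : 16 * T₀ ≤ A) (hA3 : 16 * T₀ * (2 + K₂) ≤ A)
    (hv : A ≤ |v|) (hw : |w| ≤ 1) :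
    ε * ℓ + K₂ * (ℓ + (v + w) ^ 2) + |v| * (ε * ℓ) - v ^ 2 * (ℓ / (2 * τ)) + 3 ≤ - (v ^ 2 * (ℓ / (8 * τ))) := by
  have hT0 : 0 < T₀ := by linarith
  set q : ℝ := ℓ / (16 * T₀) with hq
  have hℓq : ℓ = 16 * T₀ * q := by rw [hq]; field_simp
  have hq0 : 0 < q := by positivity
  have hq1 : 2 * K₂ ≤ q := by rw [hq, le_div_iff₀ (by positivity)]; linarith
  have hq2 : 2 * K₂ + 3 ≤ q := by rw [hq, le_div_iff₀ (by positivity)]; linarith
  have hv1 : 1 ≤ |v| := hA1.trans hv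
  have hv2 : v ^ 2 = |v| ^ 2 := (sq_abs v).symm
  have hvv : |v| ≤ v ^ 2 := by rw [hv2]; nlinarith
  have hvv1 : 1 ≤ v ^ 2 := hv1.trans hvv
  -- the Gaussian
  have k1 : 6 * q * v ^ 2 ≤ v ^ 2 * (ℓ / (2 * τ)) - v ^ 2 * (ℓ / (8 * τ)) := by
    have e : v ^ 2 * (ℓ / (2 * τ)) - v ^ 2 * (ℓ / (8 * τ)) = v ^ 2 * (3 * ℓ / (8 * τ)) := by field_simp; ring
    rw [e, mul_comm (6 * q)]
    refine mul_le_mul_of_nonneg_left ?_ (by positivity)
    rw [le_div_iff₀ (by positivity), hℓq]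
    nlinarith [mul_nonneg hq0.le (sub_nonneg.mpr hT)]
  have k2 : K₂ * (v + w) ^ 2 ≤ q * v ^ 2 + 2 * K₂ := by
    have hw2 : w ^ 2 ≤ 1 := by rw [← sq_abs]; nlinarith [abs_nonneg w]
    have : (v + w) ^ 2 ≤ 2 * v ^ 2 + 2 * w ^ 2 := by nlinarith [sq_nonneg (v - w)]
    nlinarith [mul_le_mul_of_nonneg_right hq1 (sq_nonneg v)]
  have k3 : |v| * (ε * ℓ) ≤ q * v ^ 2 := by
    have h3 : ε * ℓ ≤ ℓ := by nlinarith
    calc |v| * (ε * ℓ) ≤ |v| * ℓ := by gcongr
      _ = q * (|v| * (16 * T₀)) := by rw [hℓq]; ring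
      _ ≤ q * (|v| * |v|) := by gcongr; linarith
      _ = q * v ^ 2 := by rw [hv2]; ring
  have k4 : ε * ℓ + K₂ * ℓ ≤ q * v ^ 2 := by
    have h3 : ε * ℓ ≤ ℓ := by nlinarith
    calc ε * ℓ + K₂ * ℓ ≤ (2 + K₂) * ℓ := by nlinarith
      _ = q * (16 * T₀ * (2 + K₂)) := by rw [hℓq]; ring
      _ ≤ q * v ^ 2 := by
          refine mul_le_mul_of_nonneg_left ?_ hq0.le
          linarith
  have k5 : 2 * K₂ + 3 ≤ q * v ^ 2 := by nlinarith
  have k6 : 0 ≤ q * v ^ 2 := by positivity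
  nlinarith

theorem h5 (a K T₀ τ₀ η : ℝ) (ha : 0 < a) (hτ₀ : 0 < τ₀) (hη : 0 < η) :
    ∃ A ℓ₀ : ℝ, 0 ≤ A ∧ 1 ≤ ℓ₀ ∧ ∀ (X : ℂ → ℂ) (M ℓ y : ℝ), Base X a K M ℓ y → ℓ₀ ≤ ℓ → ∀ τ : ℝ, τ₀ ≤ τ → τ ≤ T₀ →
      (∀ z : ℂ, 1 / 2 < z.re → |z.im - y| ≤ A → heat (τ / (2 * ℓ)) X z ≠ 0) →
      ∀ s : ℂ, s.im = y → 1 / 2 + τ + η ≤ s.re → X s ≠ 0 := by
  by_cases hTT : τ₀ ≤ T₀
  swap
  · exact ⟨0, 1, le_rfl, le_rfl, fun X M ℓ y B hℓ τ h1 h2 => absurd (h1.trans h2) hTT⟩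
  have hT0 : 0 < T₀ := by linarith
  set η' : ℝ := min (η / 2) (1 / 2) with hη'
  have hη'0 : 0 < η' := by positivity
  have hη'1 : η' ≤ η / 2 := min_le_left _ _
  have hη'2 : η' ≤ 1 / 2 := min_le_right _ _
  set ε : ℝ := min (η' / T₀) (min (1 / (64 * T₀)) 1) with hε
  have hε0 : 0 < ε := by positivity
  have hε1 : ε * T₀ ≤ η' := by
    have : ε ≤ η' / T₀ := min_le_left _ _
    rwa [le_div_iff₀ hT0] at this
  have hε2 : ε * (64 * T₀) ≤ 1 := by
    have : ε ≤ 1 / (64 * T₀) := (min_le_right _ _).trans (min_le_left _ _)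
    rwa [le_div_iff₀ (by positivity)] at this
  have hε3 : ε ≤ 1 := (min_le_right _ _).trans (min_le_right _ _)
  obtain ⟨K₂, L2, hK₂, hL2, H2⟩ := h2 a K (a + T₀ + 1) T₀ hT0
  set A : ℝ := 1 + 16 * T₀ * (2 + K₂) with hA
  have hA0 : 0 < 16 * T₀ * (2 + K₂) := by positivity
  have hA2 : 16 * T₀ ≤ A := by nlinarith
  obtain ⟨L4, hL4, H4⟩ := h4 a K T₀ τ₀ (A + 1) η' ε ha hτ₀ hη'0 (by linarith) hε0 (by linarith)
  refine ⟨(A + 1) + (a + T₀ + 5), max (max L2 L4) (max (32 * K₂ * T₀) (16 * T₀ * (2 * K₂ + 3))), by linarith,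
    hL2.trans ((le_max_left _ _).trans (le_max_left _ _)), fun X M ℓ y B hℓ τ hτ hτT hz0 s hsy hs => ?_⟩
  have hℓ2 : L2 ≤ ℓ := ((le_max_left _ _).trans (le_max_left _ _)).trans hℓ
  have hℓ4 : L4 ≤ ℓ := ((le_max_right _ _).trans (le_max_left _ _)).trans hℓ
  have hℓ5 : 32 * K₂ * T₀ ≤ ℓ := ((le_max_left _ _).trans (le_max_right _ _)).trans hℓ
  have hℓ6 : 16 * T₀ * (2 * K₂ + 3) ≤ ℓ := ((le_max_right _ _).trans (le_max_right _ _)).trans hℓ
  rcases le_or_gt (1 / 2 + a) s.re with hsa | hsa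
  · exact B.ne hsa
  have hℓ1 : 1 ≤ ℓ := hL2.trans hℓ2
  have hM := B.hM
  have hτ0 : 0 < τ := by linarith
  have G := H4 X M ℓ y B hℓ4 τ hτ hτT hz0
  have H2' := H2 X M ℓ y B hℓ2 τ hτ0 hτT
  set t : ℝ := τ / (2 * ℓ) with ht
  set H : ℂ → ℂ := heat t X with hH
  have ht0 : 0 < t := by positivity
  have htℓ : 2 * t * ℓ = τ := by rw [ht]; field_simp
  have hετ : ε * τ ≤ ε * T₀ := by gcongr
  obtain ⟨z, hz1, hz2⟩ := saddle (η := η') G hτ0 (by linarith) hε0.le (by linarith) hη'0 (by linarith) (s := s)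
    (by linarith) (by linarith) (by rw [hsy, sub_self, abs_zero]; linarith)
  have hzm := mem_ball_re (c := s - τ) (w := z) (r := η') (by rwa [mem_closedBall, dist_eq_norm])
  have e1 : (s - (τ : ℂ)).re = s.re - τ := by simp
  have e2 : (s - (τ : ℂ)).im = s.im := by simp
  rw [e1, e2] at hzm
  have hzm1 := abs_le.mp hzm.1
  have hzr1 : 1 / 2 + η' ≤ z.re := by linarith [hzm1.1]
  have hzr2 : z.re ≤ 1 / 2 + (a + T₀ + 1) := by linarith [hzm1.2]
  have hzi : |z.im - y| ≤ η' := by rw [← hsy]; exact hzm.2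
  set Gz : ℂ := logDeriv H z with hGz
  have hG1 : ‖Gz - ℓ‖ ≤ ε * ℓ := G.lg z hzr1 hzr2 (by linarith)
  have hGim : |Gz.im| ≤ ε * ℓ := by
    have h := (Complex.abs_im_le_norm (Gz - ℓ)).trans hG1
    simpa using h
  -- the integrand
  set f : ℝ → ℂ := fun v => H (z + Complex.I * v) * Complex.exp (-(Complex.I * v * Gz)) with hf
  set g : ℝ → ℂ := fun v => Complex.I * (logDeriv H (z + Complex.I * v) - Gz) with hg
  have hrec := recover B.diff B.slow ht0 s z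
  have hint : ∀ v : ℝ, heat t X (z + Complex.I * v) * Complex.exp (-((v + Complex.I * (s - z)) ^ 2 / (4 * t))) =
      Complex.exp (t * Gz ^ 2) * (f v * ((Real.exp (-((v - 0) ^ 2 / (4 * t))) : ℝ) : ℂ)) := by
    intro v
    simp only [hf]
    rw [hz2, sub_zero, Complex.ofReal_exp]
    have h3 : Complex.exp (-((v + Complex.I * (2 * (t : ℂ) * Gz)) ^ 2 / (4 * t))) =
        Complex.exp (t * Gz ^ 2) * (Complex.exp (-(Complex.I * v * Gz)) * Complex.exp ((-(v ^ 2 / (4 * t)) : ℝ) : ℂ)) := by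
      rw [← Complex.exp_add, ← Complex.exp_add]
      congr 1
      have ht' : (t : ℂ) ≠ 0 := by exact_mod_cast ht0.ne'
      push_cast
      have hI : Complex.I ^ 2 = -1 := Complex.I_sq
      field_simp
      linear_combination (-(4 * (t : ℂ) ^ 2 * Gz ^ 2)) * hI
    rw [h3]
    simp only [hH]
    ring
  have hpre : ∀ v : ℝ, (z + Complex.I * (v : ℂ)).re = z.re := fun v => by simp
  have hpim : ∀ v : ℝ, (z + Complex.I * (v : ℂ)).im = z.im + v := fun v => by simp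
  have hA1' : ∀ v ∈ Icc (-A) A, |(z + Complex.I * (v : ℂ)).im - y| ≤ A + 1 := by
    intro v hv
    rw [hpim]
    have h3 : |v| ≤ A := abs_le.mpr ⟨hv.1, hv.2⟩
    calc |z.im + v - y| = |(z.im - y) + v| := by ring_nf
      _ ≤ |z.im - y| + |v| := abs_add_le _ _
      _ ≤ A + 1 := by linarith
  have hder : ∀ v ∈ Icc (-A) A, HasDerivAt f (f v * g v) v := by
    intro v hv
    have hne : H (z + Complex.I * v) ≠ 0 := G.ne _ (by rw [hpre]; exact hzr1) (by rw [hpre]; exact hzr2) (hA1' v hv)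
    have h3 : HasDerivAt (fun x : ℝ => z + Complex.I * (x : ℂ)) Complex.I v := by
      simpa using ((Complex.ofRealCLM.hasDerivAt (x := v)).const_mul Complex.I).const_add z
    have h4 := (G.diff (z + Complex.I * v)).hasDerivAt.scomp v h3
    have h5 : HasDerivAt (fun x : ℝ => -(Complex.I * (x : ℂ) * Gz)) (-(Complex.I * Gz)) v := by
      have h6 := (((Complex.ofRealCLM.hasDerivAt (x := v)).const_mul Complex.I).mul_const Gz).neg
      refine (h6.congr_deriv ?_)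
      simp
    have h7 := h4.mul h5.cexp
    refine h7.congr_deriv ?_
    simp only [Function.comp_apply, smul_eq_mul, hf, hg, logDeriv_apply]
    field_simp
    ring
  have hlip : ∀ u ∈ Icc (-A) A, ∀ v ∈ Icc (-A) A, ‖g u - g v‖ ≤ ε * ℓ * |u - v| := by
    intro u hu v hv
    have h3 := G.lip (z + Complex.I * u) (z + Complex.I * v) (by rw [hpre]; exact hzr1) (by rw [hpre]; exact hzr2) (hA1' u hu)
      (by rw [hpre]; exact hzr1) (by rw [hpre]; exact hzr2) (hA1' v hv)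
    have e : g u - g v = Complex.I * (logDeriv H (z + Complex.I * u) - logDeriv H (z + Complex.I * v)) := by
      simp only [hg]; ring
    rw [e, norm_mul, Complex.norm_I, one_mul]
    refine h3.trans (le_of_eq ?_)
    congr 1
    have e3 : z + Complex.I * u - (z + Complex.I * v) = Complex.I * ((u - v : ℝ) : ℂ) := by push_cast; ring
    rw [e3, norm_mul, Complex.norm_I, one_mul, Complex.norm_real, Real.norm_eq_abs]
  have hg0 : g 0 = 0 := by simp [hg, hGz]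
  have hf0 : f 0 = H z := by simp [hf]
  have h0mem : (0 : ℝ) ∈ Icc (-A) A := ⟨by linarith, by linarith⟩
  have hHz : M * Real.exp (-(ε * ℓ)) ≤ ‖H z‖ := by
    have h3 := G.lo (z.re - 1 / 2) (z.im - y) (by linarith) (by linarith) (by linarith)
    rw [← pt_eq] at h3
    refine le_trans (mul_le_mul_of_nonneg_left (Real.exp_le_exp.mpr ?_) hM.le) h3
    have : 0 ≤ ℓ * (z.re - 1 / 2 + τ / 2) := by
      apply mul_nonneg (by linarith)
      linarith
    linarith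
  have hHz0 : 0 < ‖H z‖ := lt_of_lt_of_le (by positivity) hHz
  have hκt : 16 * (ε * ℓ) * t ≤ 1 / 8 := by
    have : 16 * (ε * ℓ) * t = 8 * ε * τ := by rw [← htℓ]; ring
    rw [this]
    nlinarith
  have e4 : ∀ v : ℝ, v ^ 2 / (4 * t) = v ^ 2 * (ℓ / (2 * τ)) := fun v => by rw [ht]; field_simp; ring
  have e16 : ∀ v : ℝ, v ^ 2 / (16 * t) = v ^ 2 * (ℓ / (8 * τ)) := fun v => by rw [ht]; field_simp; ring
  have hpt : ∀ v : ℝ, ‖f v * ((Real.exp (-((v - 0) ^ 2 / (4 * t))) : ℝ) : ℂ) - H z * ((Real.exp (-((v - 0) ^ 2 / (4 * t))) : ℝ) : ℂ)‖ ≤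
      ‖H z‖ * (1 / 4) * Real.exp (-((v - 0) ^ 2 / (16 * t))) := by
    intro v
    by_cases hv : v ∈ Icc (-A) A
    · have h3 := rl (convex_Icc (-A) A) (by positivity) ht0 (le_refl (0 : ℝ)) (κ := ε * ℓ) (X := 0) (by
        have : 32 * (ε * ℓ) * t = 2 * (16 * (ε * ℓ) * t) := by ring
        rw [this]; linarith) hder hlip h0mem hv (by rw [hg0]; simp)
      have e5 : ((Real.exp (-(((0 : ℝ) - 0) ^ 2 / (4 * t))) : ℝ) : ℂ) = 1 := by simp
      have e6 : Real.exp (-(((0 : ℝ) - 0) ^ 2 / (4 * t))) = 1 := by simp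
      rw [e5, e6, hf0, mul_one, mul_one] at h3
      refine h3.trans ?_
      have h4 : thet t 0 (ε * ℓ) ≤ 1 / 4 := by
        unfold thet
        rw [mul_zero, zero_add]
        simp only [ne_eq, OfNat.ofNat_ne_zero, not_false_eq_true, zero_pow, mul_zero, Real.exp_zero, one_mul]
        linarith
      gcongr
    · have hv' : A ≤ |v| := by
        by_contra hcon
        push Not at hcon
        have := abs_le.mp hcon.le
        exact hv ⟨this.1, this.2⟩
      have hkey := ineq_tail (w := z.im - y) hℓ1 hτ0 hτT hK₂ hε0.le hε3 hℓ5 hℓ6 (by linarith) hA2 (by linarith) hv' (by linarith)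
      rw [sub_zero]
      have s1 : ‖f v * ((Real.exp (-(v ^ 2 / (4 * t))) : ℝ) : ℂ)‖ ≤ ‖H z‖ * (1 / 8) * Real.exp (-(v ^ 2 / (16 * t))) := by
        simp only [hf]
        rw [norm_mul, norm_mul, Complex.norm_real, Real.norm_of_nonneg (Real.exp_pos _).le]
        have h3 : ‖H (z + Complex.I * v)‖ ≤ M * Real.exp (K₂ * (ℓ + (v + (z.im - y)) ^ 2)) := by
          have h4 := H2' (z.re - 1 / 2) (v + (z.im - y)) (by rw [abs_of_nonneg (by linarith)]; linarith)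
          have e : pt y (z.re - 1 / 2) (v + (z.im - y)) = z + Complex.I * v := by
            apply Complex.ext <;> simp
            ring
          rwa [e] at h4
        have h4 : ‖Complex.exp (-(Complex.I * v * Gz))‖ ≤ Real.exp (|v| * (ε * ℓ)) := by
          rw [Complex.norm_exp]
          apply Real.exp_le_exp.mpr
          have e : (-(Complex.I * v * Gz)).re = v * Gz.im := by simp
          rw [e]
          calc v * Gz.im ≤ |v * Gz.im| := le_abs_self _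
            _ = |v| * |Gz.im| := abs_mul _ _
            _ ≤ |v| * (ε * ℓ) := by gcongr
        calc ‖H (z + Complex.I * v)‖ * ‖Complex.exp (-(Complex.I * v * Gz))‖ * Real.exp (-(v ^ 2 / (4 * t)))
            ≤ (M * Real.exp (K₂ * (ℓ + (v + (z.im - y)) ^ 2))) * Real.exp (|v| * (ε * ℓ)) * Real.exp (-(v ^ 2 / (4 * t))) := by gcongr
          _ = (M * Real.exp (-(ε * ℓ))) * Real.exp (ε * ℓ + K₂ * (ℓ + (v + (z.im - y)) ^ 2) + |v| * (ε * ℓ) - v ^ 2 / (4 * t)) := by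
              have : Real.exp (ε * ℓ + K₂ * (ℓ + (v + (z.im - y)) ^ 2) + |v| * (ε * ℓ) - v ^ 2 / (4 * t)) =
                  Real.exp (ε * ℓ) * Real.exp (K₂ * (ℓ + (v + (z.im - y)) ^ 2)) * Real.exp (|v| * (ε * ℓ)) * Real.exp (-(v ^ 2 / (4 * t))) := by
                rw [← Real.exp_add, ← Real.exp_add, ← Real.exp_add]
                congr 1
              rw [this]
              have h6 : Real.exp (-(ε * ℓ)) * Real.exp (ε * ℓ) = 1 := by rw [← Real.exp_add]; simp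
              calc M * Real.exp (K₂ * (ℓ + (v + (z.im - y)) ^ 2)) * Real.exp (|v| * (ε * ℓ)) * Real.exp (-(v ^ 2 / (4 * t)))
                  = M * (Real.exp (-(ε * ℓ)) * Real.exp (ε * ℓ)) * Real.exp (K₂ * (ℓ + (v + (z.im - y)) ^ 2)) * Real.exp (|v| * (ε * ℓ)) * Real.exp (-(v ^ 2 / (4 * t))) := by rw [h6]; ring
                _ = _ := by ring
          _ ≤ ‖H z‖ * Real.exp (-3 + -(v ^ 2 / (16 * t))) := by
              refine mul_le_mul hHz (Real.exp_le_exp.mpr ?_) (Real.exp_pos _).le (norm_nonneg _)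
              rw [e4, e16]
              linarith
          _ = ‖H z‖ * Real.exp (-3) * Real.exp (-(v ^ 2 / (16 * t))) := by rw [Real.exp_add]; ring
          _ ≤ _ := by
              have := exp_neg_three
              gcongr
      have s2 : ‖H z * ((Real.exp (-(v ^ 2 / (4 * t))) : ℝ) : ℂ)‖ ≤ ‖H z‖ * (1 / 8) * Real.exp (-(v ^ 2 / (16 * t))) := by
        rw [norm_mul, Complex.norm_real, Real.norm_of_nonneg (Real.exp_pos _).le, mul_assoc]
        refine mul_le_mul_of_nonneg_left ?_ (norm_nonneg _)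
        refine le_trans ?_ (mul_le_mul_of_nonneg_right exp_neg_three (Real.exp_pos _).le)
        rw [← Real.exp_add]
        apply Real.exp_le_exp.mpr
        rw [e4, e16]
        have h6 : 0 ≤ ε * ℓ := by positivity
        have h7 : 0 ≤ K₂ * (ℓ + (v + (z.im - y)) ^ 2) := by positivity
        have h8 : 0 ≤ |v| * (ε * ℓ) := by positivity
        linarith
      refine (norm_sub_le _ _).trans ((add_le_add s1 s2).trans (le_of_eq ?_))
      ring
  have hFc : Continuous fun v : ℝ => f v * ((Real.exp (-((v - 0) ^ 2 / (4 * t))) : ℝ) : ℂ) := by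
    refine Continuous.mul ?_ (Complex.continuous_ofReal.comp (Real.continuous_exp.comp (by fun_prop)))
    simp only [hf]
    exact (G.diff.continuous.comp (by fun_prop)).mul (by fun_prop)
  have h3 := rl_int ht0 hFc hpt
  intro hX
  rw [hX, mul_zero] at hrec
  simp only [hint] at hrec
  rw [integral_const_mul] at hrec
  have h4 : ∫ v : ℝ, f v * ((Real.exp (-((v - 0) ^ 2 / (4 * t))) : ℝ) : ℂ) = 0 := by
    rcases mul_eq_zero.mp hrec with h | h
    · exact absurd h (Complex.exp_ne_zero _)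
    · exact h
  rw [h4, mul_zero, zero_sub, norm_neg] at h3
  linarith

end Pool.Agent.H487.NZ
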