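import Pool.Agent.H487.NZ.Core
import Pool.Agent.H487.NB.Final

/-!
# The data of an automorphic L-function near a height
-/

set_option autoImplicit false

open Filter Topology Set
open scoped ComplexConjugate

namespace Pool.Agent.H487.NZ

open NB H353.E H353.F Complex

lemma cond_shift {m : ℕ} {N : ℝ} (hN : 1 ≤ N) (μ : Fin m → ℂ) (y w : ℝ) :
    Real.log (cond N μ w) ≤ Real.log (cond N μ y) + m * |w - y| := by
  have hN0 : 0 < N := by linarith
  have hp : ∀ (x : ℝ) (j : Fin m), 0 < 1 + ‖(x : ℂ) * I - μ j‖ := fun x j => by positivity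
  have hpp : ∀ x : ℝ, 0 < ∏ j, (1 + ‖(x : ℂ) * I - μ j‖) := fun x => Finset.prod_pos fun j _ => hp x j
  have e1 : ∀ x : ℝ, Real.log (cond N μ x) = Real.log N + ∑ j, Real.log (1 + ‖(x : ℂ) * I - μ j‖) := fun x => by
    unfold NB.cond
    rw [Real.log_mul hN0.ne' (hpp x).ne', Real.log_prod (fun j _ => (hp x j).ne')]
  have h1 : ∀ j : Fin m, Real.log (1 + ‖(w : ℂ) * I - μ j‖) ≤ Real.log (1 + ‖(y : ℂ) * I - μ j‖) + |w - y| := by
    intro j
    have h2 : 1 + ‖(w : ℂ) * I - μ j‖ ≤ (1 + ‖(y : ℂ) * I - μ j‖) * Real.exp |w - y| := by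
      have h3 : ‖(w : ℂ) * I - μ j‖ ≤ ‖(y : ℂ) * I - μ j‖ + |w - y| := by
        have e : (w : ℂ) * I - μ j = ((y : ℂ) * I - μ j) + ((w - y : ℝ) : ℂ) * I := by push_cast; ring
        rw [e]
        refine (norm_add_le _ _).trans ?_
        rw [norm_mul, Complex.norm_real, Complex.norm_I, mul_one, Real.norm_eq_abs]
      have h4 := Real.add_one_le_exp |w - y|
      have h5 := norm_nonneg ((y : ℂ) * I - μ j)
      have h6 := abs_nonneg (w - y)
      have g1 := mul_nonneg (by linarith : 0 ≤ 1 + ‖(y : ℂ) * I - μ j‖) (sub_nonneg.mpr h4)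
      have g2 := mul_nonneg h5 h6
      linarith
    refine (Real.log_le_log (hp w j) h2).trans (le_of_eq ?_)
    rw [Real.log_mul (hp y j).ne' (Real.exp_pos _).ne', Real.log_exp]
  rw [e1, e1]
  have h2 := Finset.sum_le_sum (s := (Finset.univ : Finset (Fin m))) fun j _ => h1 j
  rw [Finset.sum_add_distrib, Finset.sum_const, Finset.card_univ, Fintype.card_fin, nsmul_eq_mul] at h2
  linarith

/-- the normalization -/
noncomputable def Mb {m : ℕ} (N : ℝ) (μ : Fin m → ℂ) (y : ℝ) : ℝ :=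
  ‖gaf N μ (5 / 2 + y * I)‖ * Real.exp (-Real.log (cond N μ y))

theorem datum_base (m : ℕ) (hm : 1 ≤ m) {θ : ℝ} (hθ0 : 0 ≤ θ) (hθ1 : θ ≤ 1 / 2) :
    ∃ K : ℝ, ∀ (N : ℝ) (μ : Fin m → ℂ) (α : Fin m → ℕ → ℂ) (ε : ℂ) (Λ : ℂ → ℂ),
      DatumT θ N μ α ε Λ → ∀ y : ℝ,
        Base (xi N Λ) 2 K (Mb N μ y) (1 / 2 * Real.log (cond N μ y)) y := by
  have hm' : (1 : ℝ) ≤ m := by exact_mod_cast hm
  obtain ⟨B, hB, HB⟩ := facts m hm hθ0 hθ1 (show (0 : ℝ) < 1 / 2 by norm_num)
  set C : ℝ := 6 * m with hC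
  have hC1 : 1 ≤ C := by rw [hC]; linarith
  set E : ℝ := C ^ 2 / 4 + 64 with hE
  have hE0 : 0 ≤ E := by positivity
  set K : ℝ := 100 * (C + B ^ 2 + E) with hK
  have hlogB : Real.log B ≤ B := by
    have := Real.log_le_sub_one_of_pos (show 0 < B by linarith)
    linarith
  have hlogB0 : 0 ≤ Real.log B := Real.log_nonneg hB
  have hBB : B ≤ B ^ 2 := le_self_pow₀ hB two_ne_zero
  refine ⟨K, fun N μ α ε Λ d y => ?_⟩
  have F := HB N μ α ε Λ d
  have hXeq : (fun z => (N : ℂ) ^ (z / 2) * Λ z) = xi N Λ := rfl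
  rw [hXeq] at F
  have hN := d.one_le
  have S := F.near
  have gp := S.gp
  have hFfe := F.fe
  set X : ℂ → ℂ := xi N Λ with hX
  set ℓ : ℝ := 1 / 2 * Real.log (cond N μ y) with hℓ
  have hℓ0 : 0 ≤ ℓ := by
    have := Real.log_nonneg (cond_one hN μ y)
    rw [hℓ]; linarith
  set γ : ℂ → ℂ := gaf N μ with hγ
  have hγ0 : 0 < ‖γ (5 / 2 + y * I)‖ := norm_pos_iff.mpr (gp.ne _ (by
    simp only [add_re, mul_re, ofReal_re, I_re, ofReal_im, I_im]; norm_num))
  set M : ℝ := Mb N μ y with hM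
  have hMeq : M = ‖γ (5 / 2 + y * I)‖ * Real.exp (-(2 * ℓ)) := by
    rw [hM, hℓ]
    unfold Mb
    congr 2
    ring
  have hM0 : 0 < M := by rw [hMeq]; positivity
  have hMe : ‖γ (5 / 2 + y * I)‖ = M * Real.exp (2 * ℓ) := by
    rw [hMeq, mul_assoc, ← Real.exp_add]
    simp
  have hcs : ∀ w : ℝ, 1 / 2 * Real.log (cond N μ w) ≤ ℓ + C * |w - y| ∧ ℓ - C * |w - y| ≤ 1 / 2 * Real.log (cond N μ w) := by
    intro w
    have h1 := cond_shift hN μ y w
    have h2 := cond_shift hN μ w y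
    rw [abs_sub_comm y w] at h2
    have h3 := abs_nonneg (w - y)
    have h4 : 0 ≤ (m : ℝ) * |w - y| := by positivity
    rw [hℓ, hC]
    constructor <;> linarith
  -- the real part of the digamma factor
  have hDre : ∀ z : ℂ, 5 / 2 ≤ z.re → |(gaD N μ z).re - ℓ| ≤ C * |z.im - y| + C * (1 + z.re) := by
    intro z hz
    have h1 := gaD_near hN d.re_le (s := z) (by linarith)
    have h2 := hcs z.im
    rw [abs_le]
    have h3 : 5 * (m : ℝ) ≤ C * (1 + z.re) := by
      have g := mul_nonneg (by linarith : (0 : ℝ) ≤ m) (by linarith : 0 ≤ z.re)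
      rw [hC]; linarith
    have h4 : (5 + z.re) * (m : ℝ) ≤ C * (1 + z.re) := by rw [hC]; linarith
    constructor <;> linarith [h1.1, h1.2, h2.1, h2.2]
  have hv1 : ∀ v : ℝ, ‖γ (5 / 2 + ((y + v : ℝ) : ℂ) * I)‖ ≤ Real.exp (C * |v|) * ‖γ (5 / 2 + y * I)‖ := by
    intro v
    have h1 := vert_ge gp (s := 5 / 2 + ((y + v : ℝ) : ℂ) * I) (by
      simp only [add_re, mul_re, ofReal_re, I_re, ofReal_im, I_im]; norm_num) (-v)
    rw [abs_neg] at h1
    have e : 5 / 2 + ((y + v : ℝ) : ℂ) * I + ((-v : ℝ) : ℂ) * I = 5 / 2 + y * I := by push_cast; ring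
    rwa [e] at h1
  have hv2 : ∀ v : ℝ, ‖γ (5 / 2 + y * I)‖ ≤ Real.exp (C * |v|) * ‖γ (5 / 2 + ((y + v : ℝ) : ℂ) * I)‖ := by
    intro v
    have h1 := vert_ge gp (s := 5 / 2 + (y : ℂ) * I) (by
      simp only [add_re, mul_re, ofReal_re, I_re, ofReal_im, I_im]; norm_num) v
    have e : 5 / 2 + (y : ℂ) * I + (v : ℂ) * I = 5 / 2 + ((y + v : ℝ) : ℂ) * I := by push_cast; ring
    rwa [e] at h1
  have hpt : ∀ (u v r : ℝ), 5 / 2 + ((y + v : ℝ) : ℂ) * I + (r : ℂ) * ((u - 2 : ℝ) : ℂ) = pt y (2 + r * (u - 2)) v := by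
    intro u v r
    apply Complex.ext
    · rw [pt_re]
      simp only [add_re, mul_re, ofReal_re, I_re, ofReal_im, I_im]
      norm_num
      ring
    · rw [pt_im]
      simp
  have hpt1 : ∀ (u v : ℝ), 5 / 2 + ((y + v : ℝ) : ℂ) * I + ((u - 2 : ℝ) : ℂ) = pt y u v := by
    intro u v
    have := hpt u v 1
    rw [Complex.ofReal_one, one_mul] at this
    rw [this]
    congr 1
    ring
  -- moving horizontally
  have hr1 : ∀ u v : ℝ, 2 ≤ u → ‖γ (pt y u v)‖ ≤ ‖γ (5 / 2 + ((y + v : ℝ) : ℂ) * I)‖ *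
      Real.exp ((u - 2) * (ℓ + C * |v| + C * (2 + u))) := by
    intro u v hu
    have h1 := seg_le gp (s := 5 / 2 + ((y + v : ℝ) : ℂ) * I) (v := ((u - 2 : ℝ) : ℂ))
      (A := (u - 2) * (ℓ + C * |v| + C * (2 + u))) (fun r hr => ?_) (fun r hr => ?_)
    · rwa [hpt1] at h1
    · rw [hpt, pt_re]
      linarith [mul_nonneg hr.1 (sub_nonneg.mpr hu)]
    · rw [hpt, Complex.re_mul_ofReal, mul_comm]
      refine mul_le_mul_of_nonneg_left ?_ (by linarith)
      have h2 := (abs_le.mp (hDre (pt y (2 + r * (u - 2)) v) (by rw [pt_re]; linarith [mul_nonneg hr.1 (sub_nonneg.mpr hu)]))).2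
      rw [pt_re, pt_im, add_sub_cancel_left] at h2
      have h3 : r * (u - 2) ≤ u - 2 := mul_le_of_le_one_left (sub_nonneg.mpr hu) hr.2
      have h4 : C * (1 + (1 / 2 + (2 + r * (u - 2)))) ≤ C * (2 + u) := by
        refine mul_le_mul_of_nonneg_left ?_ (by linarith)
        linarith
      linarith
  have hr2 : ∀ u v : ℝ, 2 ≤ u → ‖γ (5 / 2 + ((y + v : ℝ) : ℂ) * I)‖ ≤ ‖γ (pt y u v)‖ *
      Real.exp (-((u - 2) * (ℓ - C * |v| - C * (2 + u)))) := by
    intro u v hu
    have hpt2 : ∀ r : ℝ, pt y u v + (r : ℂ) * (-((u - 2 : ℝ) : ℂ)) = pt y (2 + (1 - r) * (u - 2)) v := by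
      intro r
      apply Complex.ext
      · simp only [add_re, mul_re, neg_re, neg_im, ofReal_re, ofReal_im, pt_re]
        ring
      · simp only [add_im, mul_im, neg_re, neg_im, ofReal_re, ofReal_im, pt_im]
        ring
    have h1 := seg_le gp (s := pt y u v) (v := -((u - 2 : ℝ) : ℂ))
      (A := -((u - 2) * (ℓ - C * |v| - C * (2 + u)))) (fun r hr => ?_) (fun r hr => ?_)
    · have e : pt y u v + -((u - 2 : ℝ) : ℂ) = 5 / 2 + ((y + v : ℝ) : ℂ) * I := by rw [← hpt1]; ring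
      rwa [e] at h1
    · rw [hpt2, pt_re]
      linarith [mul_nonneg (sub_nonneg.mpr hr.2) (sub_nonneg.mpr hu)]
    · rw [hpt2, ← Complex.ofReal_neg, Complex.re_mul_ofReal]
      have h2 := (abs_le.mp (hDre (pt y (2 + (1 - r) * (u - 2)) v) (by rw [pt_re]; linarith [mul_nonneg (sub_nonneg.mpr hr.2) (sub_nonneg.mpr hu)]))).1
      rw [pt_re, pt_im, add_sub_cancel_left] at h2
      have h3 : (1 - r) * (u - 2) ≤ u - 2 := by linarith [mul_nonneg hr.1 (sub_nonneg.mpr hu)]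
      have h4 : C * (1 + (1 / 2 + (2 + (1 - r) * (u - 2)))) ≤ C * (2 + u) := by
        refine mul_le_mul_of_nonneg_left ?_ (by linarith)
        linarith
      nlinarith
  -- polynomial bookkeeping
  have hbook : ∀ u v : ℝ, 2 ≤ u → (u - 2) * (C * |v| + C * (2 + u)) + C * |v| + E + B ≤ K * (1 + u ^ 2 + v ^ 2) := by
    intro u v hu
    have h1 : |v| ^ 2 = v ^ 2 := sq_abs v
    have h2 := abs_nonneg v
    have h3 : (u - 2) * (|v| + (2 + u)) + |v| ≤ 4 * (1 + u ^ 2 + v ^ 2) := by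
      linarith [sq_nonneg (u - |v|), sq_nonneg u, sq_nonneg v]
    have h4 : (u - 2) * (C * |v| + C * (2 + u)) + C * |v| = C * ((u - 2) * (|v| + (2 + u)) + |v|) := by ring
    have h5 : C * ((u - 2) * (|v| + (2 + u)) + |v|) ≤ C * (4 * (1 + u ^ 2 + v ^ 2)) := by gcongr
    have h6 : 0 ≤ u ^ 2 + v ^ 2 := by positivity
    rw [h4]
    have h7 : E + B ≤ (E + B ^ 2) * (1 + u ^ 2 + v ^ 2) := by
      have g := mul_nonneg (by positivity : 0 ≤ E + B ^ 2) h6
      linarith
    have g1 : 0 ≤ C * (1 + u ^ 2 + v ^ 2) := by positivity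
    have g2 : 0 ≤ (E + B ^ 2) * (1 + u ^ 2 + v ^ 2) := by positivity
    rw [hK]
    linarith
  have hup2 : ∀ u v : ℝ, 2 ≤ u → ‖X (pt y u v)‖ ≤ M * Real.exp (ℓ * u + K * (1 + u ^ 2 + v ^ 2)) := by
    intro u v hu
    have h1 := S.hi (pt y u v) (by rw [pt_re]; linarith)
    have h2 := hr1 u v hu
    have h3 := hv1 v
    calc ‖X (pt y u v)‖ ≤ B * ‖γ (pt y u v)‖ := h1
      _ ≤ B * ((Real.exp (C * |v|) * (M * Real.exp (2 * ℓ))) * Real.exp ((u - 2) * (ℓ + C * |v| + C * (2 + u)))) := by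
          rw [← hMe]; gcongr; exact h2.trans (by gcongr)
      _ = M * Real.exp (Real.log B + C * |v| + 2 * ℓ + (u - 2) * (ℓ + C * |v| + C * (2 + u))) := by
          rw [Real.exp_add, Real.exp_add, Real.exp_add, Real.exp_log (by linarith)]; ring
      _ ≤ _ := by
          refine mul_le_mul_of_nonneg_left (Real.exp_le_exp.mpr ?_) hM0.le
          have := hbook u v hu
          linarith
  have hlo2 : ∀ u v : ℝ, 2 ≤ u → M * Real.exp (ℓ * u - K * (1 + u ^ 2 + v ^ 2)) ≤ ‖X (pt y u v)‖ := by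
    intro u v hu
    have h1 := S.lo (pt y u v) (by rw [pt_re]; linarith)
    have h2 := hr2 u v hu
    have h3 := hv2 v
    rw [hMe] at h3
    have h4 : M * Real.exp (2 * ℓ) ≤ Real.exp (C * |v|) * ((B * ‖X (pt y u v)‖) * Real.exp (-((u - 2) * (ℓ - C * |v| - C * (2 + u))))) := by
      refine h3.trans (mul_le_mul_of_nonneg_left ?_ (Real.exp_pos _).le)
      exact h2.trans (mul_le_mul_of_nonneg_right h1 (Real.exp_pos _).le)
    have h5 : M * Real.exp (ℓ * u - K * (1 + u ^ 2 + v ^ 2)) = (M * Real.exp (2 * ℓ)) *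
        Real.exp (ℓ * (u - 2) - K * (1 + u ^ 2 + v ^ 2)) := by
      rw [mul_assoc M, ← Real.exp_add]; congr 2; ring
    rw [h5]
    calc (M * Real.exp (2 * ℓ)) * Real.exp (ℓ * (u - 2) - K * (1 + u ^ 2 + v ^ 2))
        ≤ (Real.exp (C * |v|) * ((B * ‖X (pt y u v)‖) * Real.exp (-((u - 2) * (ℓ - C * |v| - C * (2 + u)))))) *
          Real.exp (ℓ * (u - 2) - K * (1 + u ^ 2 + v ^ 2)) := by gcongr
      _ = ‖X (pt y u v)‖ * Real.exp (Real.log B + C * |v| + -((u - 2) * (ℓ - C * |v| - C * (2 + u))) + (ℓ * (u - 2) - K * (1 + u ^ 2 + v ^ 2))) := by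
          rw [Real.exp_add, Real.exp_add, Real.exp_add, Real.exp_log (by linarith)]; ring
      _ ≤ ‖X (pt y u v)‖ * 1 := by
          refine mul_le_mul_of_nonneg_left (Real.exp_le_one_iff.mpr ?_) (norm_nonneg _)
          have := hbook u v hu
          linarith
      _ = _ := mul_one _
  -- the strip
  have hmid : ∀ u v : ℝ, 0 ≤ u → u ≤ 2 → ‖X (pt y u v)‖ ≤ M * Real.exp (ℓ * 2 + K * (1 + u ^ 2 + v ^ 2)) := by
    intro u v hu0 hu
    have h1 := strip_sharp (σ := 5 / 2) gp hC1 hB (by norm_num) (by norm_num) S.diff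
      (fun z hz => S.hi z (by linarith)) ⟨ε, d.norm_eq, hFfe⟩ F.bdd (s := pt y u v) (by rw [pt_re]; linarith) (by rw [pt_re]; linarith)
    rw [pt_im] at h1
    have e : (((5 / 2 : ℝ) : ℂ) + ((y + v : ℝ) : ℂ) * I) = 5 / 2 + ((y + v : ℝ) : ℂ) * I := by push_cast; ring
    rw [e] at h1
    have h3 := hv1 v
    calc ‖X (pt y u v)‖ ≤ B * Real.exp (C ^ 2 / 4 + 64) * ‖γ (5 / 2 + ((y + v : ℝ) : ℂ) * I)‖ := h1
      _ ≤ B * Real.exp E * (Real.exp (C * |v|) * (M * Real.exp (2 * ℓ))) := by rw [← hMe]; gcongr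
      _ = M * Real.exp (Real.log B + E + C * |v| + 2 * ℓ) := by
          rw [Real.exp_add (Real.log B + E + C * |v|) (2 * ℓ), Real.exp_add (Real.log B + E) _, Real.exp_add (Real.log B) E,
            Real.exp_log (by linarith)]; ring
      _ ≤ _ := by
          refine mul_le_mul_of_nonneg_left (Real.exp_le_exp.mpr ?_) hM0.le
          have h4 : |v| ≤ 1 + v ^ 2 := by linarith [sq_abs v, sq_nonneg (|v| - 1), abs_nonneg v]
          have h5 : C * |v| ≤ C * (1 + v ^ 2) := by gcongr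
          have h6 : B + E + C * (1 + v ^ 2) ≤ K * (1 + u ^ 2 + v ^ 2) := by
            rw [hK]
            have h7 : 0 ≤ u ^ 2 := sq_nonneg u
            have h8 : 0 ≤ v ^ 2 := sq_nonneg v
            have h9 : 0 ≤ E * u ^ 2 := by positivity
            have h10 : 0 ≤ E * v ^ 2 := by positivity
            have h11 : 0 ≤ B ^ 2 * u ^ 2 := by positivity
            have h12 : 0 ≤ B ^ 2 * v ^ 2 := by positivity
            have h13 : 0 ≤ C * u ^ 2 := by positivity
            have h14 : 0 ≤ C * v ^ 2 := by positivity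
            linarith
          linarith
  have hpos : ∀ u v : ℝ, 0 ≤ u → ‖X (pt y u v)‖ ≤ M * Real.exp (ℓ * max |u| 2 + K * (1 + u ^ 2 + v ^ 2)) := by
    intro u v hu
    rw [abs_of_nonneg hu]
    rcases le_total u 2 with h | h
    · rw [max_eq_right h]; exact hmid u v hu h
    · rw [max_eq_left h]; exact hup2 u v h
  -- the logarithmic derivative
  have hld : ∀ z : ℂ, 5 / 2 ≤ z.re → logDeriv X z = gaD N μ z + Qf X γ z := by
    intro z hz
    have h1 := (S.lam_der (z := z) (by linarith)).deriv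
    have h2 := (S.quot_ne (z := z) (by linarith)).2.1
    rw [logDeriv_apply, h1, mul_div_cancel_left₀ _ h2]
  refine ⟨S.diff, F.slow, ⟨ε, d.norm_eq, hFfe⟩, by norm_num, ?_, hM0, fun u v => ?_, hlo2, fun z hz => ?_, fun z w hz hw => ?_⟩
  · rw [hK]
    linarith [sq_nonneg B]
  · rcases le_total 0 u with h | h
    · exact hpos u v h
    · have h1 := hpos (-u) v (by linarith)
      rw [abs_neg, neg_sq] at h1
      have h2 : ‖X (pt y u v)‖ = ‖X (pt y (-u) v)‖ := by
        rw [hFfe (pt y u v), norm_mul, d.norm_eq, one_mul, Complex.norm_conj]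
        congr 2
        apply Complex.ext
        · simp only [sub_re, one_re, conj_re, pt_re]; ring
        · simp only [sub_im, one_im, conj_im, pt_im]; ring
      rwa [h2]
  · have hz' : 5 / 2 ≤ z.re := by linarith
    rw [hld z hz']
    have h1 := hDre z hz'
    have h2 := gp.im z (by linarith)
    have h3 := S.Qf_bound (η := 1 / 2) (by norm_num) (z := z) (by linarith)
    have h4 : ‖gaD N μ z - ℓ‖ ≤ |(gaD N μ z).re - ℓ| + |(gaD N μ z).im| := by
      refine (Complex.norm_le_abs_re_add_abs_im _).trans (le_of_eq ?_)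
      simp
    have e : gaD N μ z + Qf X γ z - ℓ = (gaD N μ z - ℓ) + Qf X γ z := by ring
    rw [e]
    refine (norm_add_le _ _).trans ?_
    have h5 : 0 ≤ |z.im - y| := abs_nonneg _
    rw [abs_of_nonneg (by linarith : (0:ℝ) ≤ z.re)]
    have h6 : 2 * B ^ 2 / (1 / 2) = 4 * B ^ 2 := by ring
    rw [h6] at h3
    have h8 : 0 ≤ z.re := by linarith
    have h9 : 0 ≤ E * z.re := by positivity
    have h10 : 0 ≤ E * |z.im - y| := by positivity
    have h11 : 0 ≤ B ^ 2 * z.re := by positivity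
    have h12 : 0 ≤ B ^ 2 * |z.im - y| := by positivity
    have h13 : 0 ≤ C * z.re := by positivity
    have h14 : 0 ≤ C * |z.im - y| := by positivity
    rw [hK]
    linarith
  · have hz' : 5 / 2 ≤ z.re := by linarith
    have hw' : 5 / 2 ≤ w.re := by linarith
    rw [hld z hz', hld w hw']
    have h1 := gp.lipD (ρ := 1) le_rfl (s := z) (t := w) (by linarith) (by linarith)
    rw [div_one] at h1
    have hconv : Convex ℝ {z : ℂ | 5 / 2 ≤ z.re} := convex_halfSpace_re_ge _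
    have h2 := hconv.norm_image_sub_le_of_norm_deriv_le (f := Qf X γ) (C := 16 * B ^ 2) (𝕜 := ℂ)
      (fun x hx => S.Qf_diff (by have : 5 / 2 ≤ x.re := hx; linarith))
      (fun x hx => by
        have h3 := S.Qf_deriv (η := 1 / 2) (by norm_num) (z := x) (by have : 5 / 2 ≤ x.re := hx; linarith)
        refine h3.trans (le_of_eq ?_)
        ring) hw' hz'
    have e : gaD N μ z + Qf X γ z - (gaD N μ w + Qf X γ w) = (gaD N μ z - gaD N μ w) + (Qf X γ z - Qf X γ w) := by ring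
    rw [e]
    refine (norm_add_le _ _).trans ((add_le_add h1 h2).trans ?_)
    rw [← add_mul]
    refine mul_le_mul_of_nonneg_right ?_ (norm_nonneg _)
    rw [hK]
    linarith [sq_nonneg B]

end Pool.Agent.H487.NZ
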