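import Pool.Agent.H487.NZ.HCrude
import Pool.Agent.H487.NZ.Circ

/-!
# If the heat flow has no zeros to the right of the line, it is nearly exponential there
-/

set_option autoImplicit false

open MeasureTheory Set Filter Topology Metric
open scoped ComplexConjugate

namespace Pool.Agent.H487.NZ

open NB

lemma logDeriv_twist {H : ℂ → ℂ} (hd : Differentiable ℂ H) (ℓ : ℝ) {z : ℂ} (hz : H z ≠ 0) :
    logDeriv (fun w => H w * Complex.exp (-(ℓ * w))) z = logDeriv H z - ℓ := by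
  have h1 : HasDerivAt (fun w : ℂ => Complex.exp (-(ℓ * w))) (Complex.exp (-(ℓ * z)) * (-(ℓ * 1))) z :=
    (((hasDerivAt_id z).const_mul (ℓ : ℂ)).neg).cexp
  have h2 : HasDerivAt (fun w => H w * Complex.exp (-(ℓ * w)))
      (deriv H z * Complex.exp (-(ℓ * z)) + H z * (Complex.exp (-(ℓ * z)) * (-(ℓ * 1)))) z :=
    (hd z).hasDerivAt.mul h1
  rw [logDeriv_apply, logDeriv_apply, h2.deriv]
  have h3 := Complex.exp_ne_zero (-((ℓ : ℂ) * z))
  field_simp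
  ring

lemma norm_twist (H : ℂ → ℂ) (ℓ : ℝ) (z : ℂ) :
    ‖H z * Complex.exp (-(ℓ * z))‖ = ‖H z‖ * Real.exp (-(ℓ * z.re)) := by
  rw [norm_mul, Complex.norm_exp]
  congr 2
  simp

lemma mem_ball_re {c w : ℂ} {r : ℝ} (h : w ∈ closedBall c r) : |w.re - c.re| ≤ r ∧ |w.im - c.im| ≤ r := by
  rw [mem_closedBall, dist_eq_norm] at h
  exact ⟨(Complex.abs_re_le_norm (w - c)).trans h, (Complex.abs_im_le_norm (w - c)).trans h⟩

/-- the logarithmic derivative is close to `ℓ` -/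
theorem h3 (a K T₀ τ₀ A δ ε : ℝ) (ha : 0 < a) (hτ₀ : 0 < τ₀) (hδ : 0 < δ) (hδ1 : δ ≤ 1) (hε : 0 < ε) (hA : 0 ≤ A) :
    ∃ ℓ₀ : ℝ, 1 ≤ ℓ₀ ∧ ∀ (X : ℂ → ℂ) (M ℓ y : ℝ), Base X a K M ℓ y → ℓ₀ ≤ ℓ → ∀ τ : ℝ, τ₀ ≤ τ → τ ≤ T₀ →
      (∀ z : ℂ, 1 / 2 < z.re → |z.im - y| ≤ A + (a + T₀ + 4) → heat (τ / (2 * ℓ)) X z ≠ 0) →
      ∀ z : ℂ, 1 / 2 + δ ≤ z.re → z.re ≤ 1 / 2 + a + T₀ + 2 → |z.im - y| ≤ A →
        ‖logDeriv (heat (τ / (2 * ℓ)) X) z - ℓ‖ ≤ ε * ℓ := by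
  by_cases hTT : τ₀ ≤ T₀
  swap
  · exact ⟨1, le_rfl, fun X M ℓ y B hℓ τ h1 h2 => absurd (h1.trans h2) hTT⟩
  have hT0 : 0 < T₀ := by linarith
  set R₁ : ℝ := a + T₀ + 4 with hR₁
  have hR₁0 : 0 < R₁ := by linarith
  set K0 : ℝ := |K| * (1 + (2 * R₁ + 1 + T₀) ^ 2 + (A + R₁) ^ 2) with hK0
  have hK00 : 0 ≤ K0 := by positivity
  obtain ⟨L1, hL1, H1⟩ := h1 a K (A + R₁) (2 * R₁) T₀ τ₀ hτ₀ (ϑ := 1 / 2) (by norm_num)
  obtain ⟨K₂, L2, hK₂, hL2, H2⟩ := h2 a K (2 * R₁ + 1) T₀ hT0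
  set B₆ : ℝ := 2 * K0 + 2 with hB₆
  set K₅ : ℝ := max (K₂ * (1 + (A + R₁) ^ 2) + K0 + 1) (8 * (B₆ + 1)) with hK₅
  have hK₅1 : 1 ≤ K₅ := by
    refine le_trans ?_ (le_max_right _ _)
    rw [hB₆]; linarith
  obtain ⟨L3, hL3, H3⟩ := flat_log (R := R₁) (δ := δ / 2) (K := K₅) (ε := ε) (by linarith) (by linarith) hK₅1 hε
  refine ⟨max L1 (max L2 L3), hL1.trans (le_max_left _ _), fun X M ℓ y B hℓ τ hτ hτT hz0 z hz1 hz2 hzi => ?_⟩
  have hℓ1 : L1 ≤ ℓ := (le_max_left _ _).trans hℓ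
  have hℓ2 : L2 ≤ ℓ := ((le_max_left _ _).trans (le_max_right _ _)).trans hℓ
  have hℓ3 : L3 ≤ ℓ := ((le_max_right _ _).trans (le_max_right _ _)).trans hℓ
  have hℓ0 : 1 ≤ ℓ := hL1.trans hℓ1
  have hK := B.hK
  have hM := B.hM
  have hKabs : |K| = K := abs_of_pos (by linarith)
  have hτ0 : 0 < τ := by linarith
  set t : ℝ := τ / (2 * ℓ) with ht
  have ht0 : 0 < t := by positivity
  set H : ℂ → ℂ := heat t X with hH
  have hHd : Differentiable ℂ H := heat_differentiable B.diff B.slow ht0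
  set c : ℂ := pt y (δ / 2 + R₁) (z.im - y) with hc
  have hcre : c.re = 1 / 2 + (δ / 2 + R₁) := by simp [hc]
  have hcim : c.im = z.im := by simp [hc]
  set h : ℂ → ℂ := fun w => H w * Complex.exp (-(ℓ * w)) with hh
  have hhd : Differentiable ℂ h := hHd.mul (by fun_prop)
  -- sizes far to the right
  have far : ∀ w : ℂ, 1 / 2 + a + T₀ ≤ w.re → w.re ≤ 1 / 2 + 2 * R₁ → |w.im - y| ≤ A + R₁ →
      M * Real.exp (ℓ * (τ / 2) - ℓ / 2 - K0 - 1) ≤ ‖h w‖ ∧ ‖h w‖ ≤ M * Real.exp (ℓ * (τ / 2) - ℓ / 2 + K0 + 1) := by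
    intro w hw1 hw2 hw3
    set u : ℝ := w.re - 1 / 2 with hu
    set v : ℝ := w.im - y with hv
    have hwpt : w = pt y u v := pt_eq y w
    have h4 := H1 X M ℓ y B hℓ1 τ hτ hτT u v (by linarith) (by linarith) hw3
    rw [← hwpt] at h4
    have h5 := B.lo (u + τ) v (by linarith)
    have h6 := B.up (u + τ) v
    have hmax : max |u + τ| a = u + τ := by
      rw [abs_of_nonneg (by linarith)]
      exact max_eq_left (by linarith)
    rw [hmax] at h6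
    have hv2 : v ^ 2 ≤ (A + R₁) ^ 2 := by rw [← sq_abs v]; exact pow_le_pow_left₀ (abs_nonneg v) hw3 2
    have hu2 : (u + τ) ^ 2 ≤ (2 * R₁ + 1 + T₀) ^ 2 := pow_le_pow_left₀ (by linarith) (by linarith) 2
    have hKK : K * (1 + (u + τ) ^ 2 + v ^ 2) ≤ K0 := by
      rw [hK0, hKabs]
      gcongr
    set Y : ℝ := ‖X (pt y (u + τ) v)‖ * Real.exp (-(τ * ℓ / 2)) with hY
    have hYn : ‖X (pt y (u + τ) v) * ((Real.exp (-(τ * ℓ / 2)) : ℝ) : ℂ)‖ = Y := by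
      rw [norm_mul, Complex.norm_real, Real.norm_of_nonneg (Real.exp_pos _).le]
    have e1 : Real.exp (ℓ * (u + τ) - K0) * Real.exp (-(τ * ℓ / 2)) * Real.exp (-(ℓ * w.re)) =
        Real.exp (ℓ * (τ / 2) - ℓ / 2 - K0) := by
      rw [← Real.exp_add, ← Real.exp_add]
      congr 1
      rw [hu]; ring
    have e2 : Real.exp (ℓ * (u + τ) + K0) * Real.exp (-(τ * ℓ / 2)) * Real.exp (-(ℓ * w.re)) =
        Real.exp (ℓ * (τ / 2) - ℓ / 2 + K0) := by
      rw [← Real.exp_add, ← Real.exp_add]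
      congr 1
      rw [hu]; ring
    have h5' : M * Real.exp (ℓ * (u + τ) - K0) ≤ ‖X (pt y (u + τ) v)‖ :=
      le_trans (mul_le_mul_of_nonneg_left (Real.exp_le_exp.mpr (by linarith)) hM.le) h5
    have h6' : ‖X (pt y (u + τ) v)‖ ≤ M * Real.exp (ℓ * (u + τ) + K0) :=
      h6.trans (mul_le_mul_of_nonneg_left (Real.exp_le_exp.mpr (by linarith)) hM.le)
    have hexp1 : Real.exp (-1 : ℝ) ≤ 1 / 2 := by
      rw [Real.exp_neg, ← one_div]
      have := Real.add_one_le_exp (1 : ℝ)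
      exact one_div_le_one_div_of_le (by norm_num) (by linarith)
    have hexp2 : (3 : ℝ) / 2 ≤ Real.exp 1 := by
      have := Real.add_one_le_exp (1 : ℝ)
      linarith
    have hYl : 1 / 2 * Y ≤ ‖H w‖ := by
      have := norm_sub_norm_le (X (pt y (u + τ) v) * ((Real.exp (-(τ * ℓ / 2)) : ℝ) : ℂ)) (H w)
      rw [norm_sub_rev, hYn] at this
      linarith
    have hYu : ‖H w‖ ≤ 3 / 2 * Y := by
      have := norm_sub_norm_le (H w) (X (pt y (u + τ) v) * ((Real.exp (-(τ * ℓ / 2)) : ℝ) : ℂ))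
      rw [hYn] at this
      linarith
    simp only [hh]
    rw [norm_twist]
    constructor
    · have : M * Real.exp (ℓ * (τ / 2) - ℓ / 2 - K0 - 1) = Real.exp (-1) * (M * (Real.exp (ℓ * (u + τ) - K0) * Real.exp (-(τ * ℓ / 2)) * Real.exp (-(ℓ * w.re)))) := by
        rw [e1, sub_eq_add_neg _ (1 : ℝ), Real.exp_add]; ring
      rw [this]
      calc Real.exp (-1) * (M * (Real.exp (ℓ * (u + τ) - K0) * Real.exp (-(τ * ℓ / 2)) * Real.exp (-(ℓ * w.re))))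
          = Real.exp (-1) * ((M * Real.exp (ℓ * (u + τ) - K0)) * Real.exp (-(τ * ℓ / 2))) * Real.exp (-(ℓ * w.re)) := by ring
        _ ≤ 1 / 2 * (‖X (pt y (u + τ) v)‖ * Real.exp (-(τ * ℓ / 2))) * Real.exp (-(ℓ * w.re)) := by gcongr
        _ ≤ ‖H w‖ * Real.exp (-(ℓ * w.re)) := mul_le_mul_of_nonneg_right hYl (Real.exp_pos _).le
    · have : M * Real.exp (ℓ * (τ / 2) - ℓ / 2 + K0 + 1) = Real.exp 1 * (M * (Real.exp (ℓ * (u + τ) + K0) * Real.exp (-(τ * ℓ / 2)) * Real.exp (-(ℓ * w.re)))) := by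
        rw [e2, Real.exp_add _ (1 : ℝ)]; ring
      rw [this]
      calc ‖H w‖ * Real.exp (-(ℓ * w.re)) ≤ 3 / 2 * Y * Real.exp (-(ℓ * w.re)) :=
            mul_le_mul_of_nonneg_right hYu (Real.exp_pos _).le
        _ ≤ Real.exp 1 * ((M * Real.exp (ℓ * (u + τ) + K0)) * Real.exp (-(τ * ℓ / 2))) * Real.exp (-(ℓ * w.re)) := by
            rw [hY]; gcongr
        _ = _ := by ring
  have hbig : ∀ w ∈ closedBall c R₁, 1 / 2 + δ / 2 ≤ w.re ∧ w.re ≤ 1 / 2 + (2 * R₁ + 1) ∧ |w.im - y| ≤ A + R₁ := by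
    intro w hw
    obtain ⟨h4, h5⟩ := mem_ball_re hw
    rw [hcre] at h4
    rw [hcim] at h5
    obtain ⟨h6, h7⟩ := abs_le.mp h4
    refine ⟨by linarith, by linarith, ?_⟩
    have := abs_add_le (w.im - z.im) (z.im - y)
    rw [sub_add_sub_cancel] at this
    linarith
  have hne : ∀ w ∈ closedBall c R₁, H w ≠ 0 := fun w hw => by
    obtain ⟨h4, h5, h6⟩ := hbig w hw
    exact hz0 w (by linarith) h6
  have hhne : ∀ w ∈ closedBall c R₁, h w ≠ 0 := fun w hw => mul_ne_zero (hne w hw) (Complex.exp_ne_zero _)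
  have hcfar := far c (by rw [hcre]; linarith) (by rw [hcre]; linarith) (by rw [hcim]; linarith)
  have hgrowth : ∀ w ∈ closedBall c R₁, ‖h w‖ ≤ Real.exp (K₅ * ℓ) * ‖h c‖ := by
    intro w hw
    obtain ⟨h4, h5, h6⟩ := hbig w hw
    have h7 := H2 X M ℓ y B hℓ2 τ hτ0 hτT (w.re - 1 / 2) (w.im - y) (by rw [abs_of_nonneg (by linarith)]; linarith)
    rw [← pt_eq] at h7
    have hv2 : (w.im - y) ^ 2 ≤ (A + R₁) ^ 2 := by rw [← sq_abs]; exact pow_le_pow_left₀ (abs_nonneg _) h6 2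
    have h8 : ‖h w‖ ≤ M * Real.exp (K₂ * (1 + (A + R₁) ^ 2) * ℓ - ℓ / 2) := by
      simp only [hh]
      rw [norm_twist]
      calc ‖H w‖ * Real.exp (-(ℓ * w.re)) ≤ M * Real.exp (K₂ * (ℓ + (w.im - y) ^ 2)) * Real.exp (-(ℓ * w.re)) := by gcongr
        _ = M * Real.exp (K₂ * (ℓ + (w.im - y) ^ 2) + -(ℓ * w.re)) := by rw [Real.exp_add]; ring
        _ ≤ _ := by
            refine mul_le_mul_of_nonneg_left (Real.exp_le_exp.mpr ?_) hM.le
            have h9 : K₂ * (ℓ + (w.im - y) ^ 2) ≤ K₂ * (ℓ + (A + R₁) ^ 2 * ℓ) := by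
              refine mul_le_mul_of_nonneg_left ?_ (by linarith)
              have g1 := mul_nonneg (sq_nonneg (A + R₁)) (sub_nonneg.mpr hℓ0)
              linarith
            have h10 : ℓ / 2 ≤ ℓ * w.re := by
              have g2 := mul_nonneg (by linarith : 0 ≤ ℓ) (by linarith : 0 ≤ w.re - 1 / 2)
              linarith
            linarith
    refine h8.trans ?_
    refine le_trans ?_ (mul_le_mul_of_nonneg_left hcfar.1 (Real.exp_pos _).le)
    have e : Real.exp (K₅ * ℓ) * (M * Real.exp (ℓ * (τ / 2) - ℓ / 2 - K0 - 1)) =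
        M * Real.exp (K₅ * ℓ + (ℓ * (τ / 2) - ℓ / 2 - K0 - 1)) := by rw [Real.exp_add]; ring
    rw [e]
    refine mul_le_mul_of_nonneg_left (Real.exp_le_exp.mpr ?_) hM.le
    have h9 : (K₂ * (1 + (A + R₁) ^ 2) + K0 + 1) * ℓ ≤ K₅ * ℓ := mul_le_mul_of_nonneg_right (le_max_left _ _) (by linarith)
    have h10 : (K0 + 1) * 1 ≤ (K0 + 1) * ℓ := mul_le_mul_of_nonneg_left hℓ0 (by linarith)
    have h11 : 0 ≤ ℓ * (τ / 2) := by positivity
    linarith
  have hsmall : ∀ w ∈ closedBall c 1, ‖logDeriv h w‖ ≤ K₅ := by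
    intro w hw
    have hw' : ∀ w' ∈ closedBall w 1, 1 / 2 + a + T₀ ≤ w'.re ∧ w'.re ≤ 1 / 2 + 2 * R₁ ∧ |w'.im - y| ≤ A + R₁ := by
      intro w' hw'
      obtain ⟨h4, h5⟩ := mem_ball_re hw
      obtain ⟨h6, h7⟩ := mem_ball_re hw'
      rw [hcre] at h4
      rw [hcim] at h5
      have h8 := abs_le.mp h4
      have h9 := abs_le.mp h6
      refine ⟨by linarith [h8.1, h9.1], by linarith [h8.2, h9.2], ?_⟩
      have e : w'.im - y = (w'.im - w.im) + (w.im - z.im) + (z.im - y) := by ring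
      rw [e]
      have := abs_add_three (w'.im - w.im) (w.im - z.im) (z.im - y)
      linarith
    have hne' : ∀ w' ∈ closedBall w 1, h w' ≠ 0 := fun w' hw'' => by
      obtain ⟨h4, h5, h6⟩ := hw' w' hw''
      exact mul_ne_zero (hz0 w' (by linarith) h6) (Complex.exp_ne_zero _)
    have h4 := H370.Loc.logDeriv_zero_free (g := h) (c := w) (r := 1) (r1 := 1 / 2) (r2 := 1 / 4) (B := B₆)
      (by norm_num) (by norm_num) (by norm_num) (by positivity)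
      (fun w' _ => hhd.analyticAt w') hne' (fun w' hw'' => ?_) (z := w) (mem_closedBall_self (by norm_num))
    · refine h4.trans ?_
      refine le_trans (le_of_eq ?_) (le_max_right _ _)
      norm_num
      ring
    · obtain ⟨p1, p2, p3⟩ := hw' w' hw''
      obtain ⟨q1, q2, q3⟩ := hw' w (mem_closedBall_self zero_le_one)
      have h5 := (far w' p1 p2 p3).2
      have h6 := (far w q1 q2 q3).1
      refine h5.trans ?_
      refine le_trans (le_of_eq ?_) (mul_le_mul_of_nonneg_left h6 (Real.exp_pos _).le)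
      rw [← mul_assoc, mul_comm (Real.exp B₆), mul_assoc, ← Real.exp_add]
      congr 2
      rw [hB₆]; ring
  have hfin := H3 ℓ hℓ3 h c (fun w _ => hhd.analyticAt w) hhne hgrowth hsmall z (by
    rw [mem_closedBall, dist_eq_norm]
    have e : z - c = ((z.re - c.re : ℝ) : ℂ) := by
      apply Complex.ext
      · simp
      · simp [hcim]
    rw [e, Complex.norm_real, Real.norm_eq_abs, hcre, abs_of_nonpos (by linarith)]
    linarith)
  rwa [logDeriv_twist hHd ℓ (hz0 z (by linarith) (by linarith))] at hfin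

end Pool.Agent.H487.NZ
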