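import Pool.Agent.H487.NZ.HFlat

/-!
# Size and Lipschitz bounds of the zero free heat flow
-/

set_option autoImplicit false

open MeasureTheory Set Filter Topology Metric
open scoped ComplexConjugate

namespace Pool.Agent.H487.NZ

open NB

/-- the information about `H` to the right of the line -/
structure HGood (H : ℂ → ℂ) (M ℓ y τ δ ε R A : ℝ) : Prop where
  diff : Differentiable ℂ H
  ne : ∀ z : ℂ, 1 / 2 + δ ≤ z.re → z.re ≤ 1 / 2 + R → |z.im - y| ≤ A → H z ≠ 0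
  lg : ∀ z : ℂ, 1 / 2 + δ ≤ z.re → z.re ≤ 1 / 2 + R → |z.im - y| ≤ A → ‖logDeriv H z - ℓ‖ ≤ ε * ℓ
  lip : ∀ z w : ℂ, 1 / 2 + δ ≤ z.re → z.re ≤ 1 / 2 + R → |z.im - y| ≤ A → 1 / 2 + δ ≤ w.re → w.re ≤ 1 / 2 + R →
    |w.im - y| ≤ A → ‖logDeriv H z - logDeriv H w‖ ≤ ε * ℓ * ‖z - w‖
  lo : ∀ u v : ℝ, δ ≤ u → u ≤ R → |v| ≤ A → M * Real.exp (ℓ * (u + τ / 2) - ε * ℓ) ≤ ‖H (pt y u v)‖
  up : ∀ u v : ℝ, δ ≤ u → u ≤ R → |v| ≤ A → ‖H (pt y u v)‖ ≤ M * Real.exp (ℓ * (u + τ / 2) + ε * ℓ)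

lemma convex_box (y x₁ x₂ A : ℝ) : Convex ℝ {z : ℂ | x₁ ≤ z.re ∧ z.re ≤ x₂ ∧ |z.im - y| ≤ A} := by
  have h1 : Convex ℝ {z : ℂ | x₁ ≤ z.re} := convex_halfSpace_re_ge x₁
  have h2 : Convex ℝ {z : ℂ | z.re ≤ x₂} := convex_halfSpace_re_le x₂
  have h3 : Convex ℝ {z : ℂ | y - A ≤ z.im} := convex_halfSpace_im_ge (y - A)
  have h4 : Convex ℝ {z : ℂ | z.im ≤ y + A} := convex_halfSpace_im_le (y + A)
  have h5 := ((h1.inter h2).inter h3).inter h4
  convert h5 using 1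
  ext z
  simp only [mem_ofPred_eq, mem_inter_iff, abs_le]
  constructor
  · rintro ⟨a1, a2, a3, a4⟩
    exact ⟨⟨⟨a1, a2⟩, by linarith⟩, by linarith⟩
  · rintro ⟨⟨⟨a1, a2⟩, a3⟩, a4⟩
    exact ⟨a1, a2, by linarith, by linarith⟩

theorem h4 (a K T₀ τ₀ A δ ε : ℝ) (ha : 0 < a) (hτ₀ : 0 < τ₀) (hδ : 0 < δ) (hδ1 : δ ≤ 1) (hε : 0 < ε) (hA : 0 ≤ A) :
    ∃ ℓ₀ : ℝ, 1 ≤ ℓ₀ ∧ ∀ (X : ℂ → ℂ) (M ℓ y : ℝ), Base X a K M ℓ y → ℓ₀ ≤ ℓ → ∀ τ : ℝ, τ₀ ≤ τ → τ ≤ T₀ →
      (∀ z : ℂ, 1 / 2 < z.re → |z.im - y| ≤ A + (a + T₀ + 5) → heat (τ / (2 * ℓ)) X z ≠ 0) →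
      HGood (heat (τ / (2 * ℓ)) X) M ℓ y τ δ ε (a + T₀ + 1) A := by
  by_cases hTT : τ₀ ≤ T₀
  swap
  · exact ⟨1, le_rfl, fun X M ℓ y B hℓ τ h1 h2 => absurd (h1.trans h2) hTT⟩
  have hT0 : 0 < T₀ := by linarith
  set R : ℝ := a + T₀ + 1 with hR
  have hR0 : 0 < R := by linarith
  set ε' : ℝ := min (ε / (2 * (R + 1))) (ε * (δ / 2)) with hε'
  have hε'0 : 0 < ε' := by positivity
  have hε'1 : ε' * (2 * (R + 1)) ≤ ε := by
    have : ε' ≤ ε / (2 * (R + 1)) := min_le_left _ _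
    rwa [le_div_iff₀ (by positivity)] at this
  have hε'2 : ε' / (δ / 2) ≤ ε := by
    rw [div_le_iff₀ (by positivity)]
    exact min_le_right _ _
  have hε'3 : ε' ≤ ε := by nlinarith
  obtain ⟨L1, hL1, H3⟩ := h3 a K T₀ τ₀ (A + 1) (δ / 2) ε' ha hτ₀ (by positivity) (by linarith) hε'0 (by linarith)
  obtain ⟨L2, hL2, H1⟩ := h1 a K A (R + 1) T₀ τ₀ hτ₀ (ϑ := 1 / 2) (by norm_num)
  set K0 : ℝ := |K| * (1 + (R + T₀) ^ 2 + A ^ 2) with hK0
  have hK00 : 0 ≤ K0 := by positivity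
  refine ⟨max (max L1 L2) (2 * (K0 + 1) / ε), hL1.trans ((le_max_left _ _).trans (le_max_left _ _)),
    fun X M ℓ y B hℓ τ hτ hτT hz0 => ?_⟩
  have hℓ1 : L1 ≤ ℓ := ((le_max_left _ _).trans (le_max_left _ _)).trans hℓ
  have hℓ2 : L2 ≤ ℓ := ((le_max_right _ _).trans (le_max_left _ _)).trans hℓ
  have hℓ3 : K0 + 1 ≤ ε / 2 * ℓ := by
    have := (le_max_right _ _).trans hℓ
    rw [div_le_iff₀ hε] at this
    linarith
  have hℓ0 : 1 ≤ ℓ := hL1.trans hℓ1
  have hK := B.hK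
  have hM := B.hM
  have hKabs : |K| = K := abs_of_pos (by linarith)
  have hτ0 : 0 < τ := by linarith
  have hz0' : ∀ z : ℂ, 1 / 2 < z.re → |z.im - y| ≤ (A + 1) + (a + T₀ + 4) → heat (τ / (2 * ℓ)) X z ≠ 0 := fun z h5 h6 =>
    hz0 z h5 (by linarith)
  have HL := H3 X M ℓ y B hℓ1 τ hτ hτT hz0'
  set t : ℝ := τ / (2 * ℓ) with ht
  have ht0 : 0 < t := by positivity
  set H : ℂ → ℂ := heat t X with hH
  have hHd : Differentiable ℂ H := heat_differentiable B.diff B.slow ht0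
  have hne : ∀ z : ℂ, 1 / 2 + δ / 2 ≤ z.re → |z.im - y| ≤ A + 1 → H z ≠ 0 := fun z h5 h6 => hz0 z (by linarith) (by linarith)
  have hLd : ∀ z : ℂ, 1 / 2 + δ / 2 ≤ z.re → |z.im - y| ≤ A + 1 → DifferentiableAt ℂ (logDeriv H) z := fun z h5 h6 =>
    ((hHd.analyticAt z).deriv.div (hHd.analyticAt z) (hne z h5 h6)).differentiableAt
  -- derivative of the logarithmic derivative
  have hder : ∀ z : ℂ, 1 / 2 + δ ≤ z.re → z.re ≤ 1 / 2 + R → |z.im - y| ≤ A → ‖deriv (logDeriv H) z‖ ≤ ε * ℓ := by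
    intro z z1 z2 z3
    have hball : ∀ w ∈ closedBall z (δ / 2), 1 / 2 + δ / 2 ≤ w.re ∧ w.re ≤ 1 / 2 + a + T₀ + 2 ∧ |w.im - y| ≤ A + 1 := by
      intro w hw
      obtain ⟨h4, h5⟩ := mem_ball_re hw
      obtain ⟨h6, h7⟩ := abs_le.mp h4
      refine ⟨by linarith, by linarith, ?_⟩
      have := abs_add_le (w.im - z.im) (z.im - y)
      rw [sub_add_sub_cancel] at this
      linarith
    have h5 := Complex.norm_deriv_le_of_forall_mem_sphere_norm_le (c := z) (R := δ / 2) (C := ε' * ℓ)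
      (f := fun w => logDeriv H w - ℓ) (by positivity)
      ⟨fun w hw => ((hLd w (hball w (ball_subset_closedBall hw)).1 (hball w (ball_subset_closedBall hw)).2.2).sub_const _).differentiableWithinAt,
       fun w hw => ((hLd w (hball w (closure_ball_subset_closedBall hw)).1 (hball w (closure_ball_subset_closedBall hw)).2.2).sub_const _).continuousAt.continuousWithinAt⟩
      (fun w hw => by
        obtain ⟨h5, h6, h7⟩ := hball w (sphere_subset_closedBall hw)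
        exact HL w h5 h6 h7)
    rw [deriv_sub_const] at h5
    refine h5.trans ?_
    rw [mul_div_right_comm]
    exact mul_le_mul_of_nonneg_right hε'2 (by linarith)
  have hlip : ∀ z w : ℂ, 1 / 2 + δ ≤ z.re → z.re ≤ 1 / 2 + R → |z.im - y| ≤ A → 1 / 2 + δ ≤ w.re → w.re ≤ 1 / 2 + R →
    |w.im - y| ≤ A → ‖logDeriv H z - logDeriv H w‖ ≤ ε * ℓ * ‖z - w‖ := by
    intro z w z1 z2 z3 w1 w2 w3
    have hconv := convex_box y (1 / 2 + δ) (1 / 2 + R) A
    exact hconv.norm_image_sub_le_of_norm_deriv_le (f := logDeriv H) (C := ε * ℓ)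
      (fun p hp => hLd p (by linarith [hp.1]) (by linarith [hp.2.2])) (fun p hp => hder p hp.1 hp.2.1 hp.2.2)
      (x := w) (y := z) ⟨w1, w2, w3⟩ ⟨z1, z2, z3⟩
  have hlg : ∀ z : ℂ, 1 / 2 + δ / 2 ≤ z.re → z.re ≤ 1 / 2 + R → |z.im - y| ≤ A → ‖logDeriv H z - ℓ‖ ≤ ε' * ℓ := by
    intro z z1 z2 z3
    exact HL z z1 (by linarith) (by linarith)
  -- sizes
  have hsize : ∀ u v : ℝ, δ ≤ u → u ≤ R → |v| ≤ A →
      ‖H (pt y R v)‖ * Real.exp (ℓ * (u - R) - ε / 2 * ℓ) ≤ ‖H (pt y u v)‖ ∧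
      ‖H (pt y u v)‖ ≤ ‖H (pt y R v)‖ * Real.exp (ℓ * (u - R) + ε / 2 * ℓ) := by
    intro u v hu huR hv
    set d : ℝ := u - R with hd
    have hmem : ∀ r ∈ Icc (0 : ℝ) 1, δ ≤ R + r * d ∧ R + r * d ≤ R := fun r hr => by
      constructor
      · nlinarith [hr.1, hr.2]
      · nlinarith [hr.1, hr.2]
    have hpt : ∀ r : ℝ, pt y (R + r * d) v = pt y R v + (r : ℂ) * ((d : ℝ) : ℂ) := fun r => by
      simp only [pt]; push_cast; ring
    have hwc : ContinuousOn (fun r : ℝ => (d : ℂ) * logDeriv H (pt y (R + r * d) v)) (Icc 0 1) := by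
      refine continuousOn_const.mul fun r hr => ?_
      have h6 := hmem r hr
      have h7 := hLd (pt y (R + r * d) v) (by rw [pt_re]; linarith) (by rw [pt_im, add_sub_cancel_left]; linarith)
      refine ContinuousAt.continuousWithinAt ?_
      refine ContinuousAt.comp (g := logDeriv H) (f := fun r : ℝ => pt y (R + r * d) v) h7.continuousAt ?_
      simp only [hpt]
      exact Continuous.continuousAt (by fun_prop)
    have h8 := exp_seg (q := fun r : ℝ => H (pt y (R + r * d) v)) hwc (fun r hr => by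
      have h6 := hmem r hr
      have h7 := hne (pt y (R + r * d) v) (by rw [pt_re]; linarith) (by rw [pt_im, add_sub_cancel_left]; linarith)
      have h9 : HasDerivAt (fun r : ℝ => pt y (R + r * d) v) ((d : ℝ) : ℂ) r := by
        simp only [hpt]
        have := ((Complex.ofRealCLM.hasDerivAt (x := r)).mul_const ((d : ℝ) : ℂ)).const_add (pt y R v)
        simpa using this
      have h10 := (hHd (pt y (R + r * d) v)).hasDerivAt.scomp r h9
      refine (h10.congr_deriv ?_).hasDerivWithinAt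
      rw [logDeriv_apply, smul_eq_mul]
      field_simp)
    simp only [one_mul, zero_mul, add_zero] at h8
    have e1 : R + d = u := by rw [hd]; ring
    rw [e1] at h8
    set J : ℂ := ∫ r in (0 : ℝ)..1, (d : ℂ) * logDeriv H (pt y (R + r * d) v) with hJ
    have hi : IntervalIntegrable (fun r : ℝ => (d : ℂ) * logDeriv H (pt y (R + r * d) v)) volume 0 1 := by
      refine ContinuousOn.intervalIntegrable ?_
      rw [uIcc_of_le zero_le_one]
      exact hwc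
    have hJb : ‖J - (d * ℓ : ℝ)‖ ≤ ε / 2 * ℓ := by
      have e2 : J - (d * ℓ : ℝ) = ∫ r in (0 : ℝ)..1, ((d : ℂ) * logDeriv H (pt y (R + r * d) v) - ((d * ℓ : ℝ) : ℂ)) := by
        rw [intervalIntegral.integral_sub hi intervalIntegrable_const, intervalIntegral.integral_const]
        simp [hJ]
      rw [e2]
      have h9 := intervalIntegral.norm_integral_le_of_norm_le_const (a := (0 : ℝ)) (b := 1) (C := ε / 2 * ℓ)
        (f := fun r : ℝ => (d : ℂ) * logDeriv H (pt y (R + r * d) v) - ((d * ℓ : ℝ) : ℂ)) (fun r hr => ?_)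
      · simpa using h9
      · rw [uIoc_of_le zero_le_one] at hr
        have h6 := hmem r ⟨hr.1.le, hr.2⟩
        have h10 := hlg (pt y (R + r * d) v) (by rw [pt_re]; linarith) (by rw [pt_re]; linarith)
          (by rw [pt_im, add_sub_cancel_left]; exact hv)
        have e3 : (d : ℂ) * logDeriv H (pt y (R + r * d) v) - ((d * ℓ : ℝ) : ℂ) =
            (d : ℂ) * (logDeriv H (pt y (R + r * d) v) - ℓ) := by push_cast; ring
        rw [e3, norm_mul, Complex.norm_real, Real.norm_eq_abs]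
        have hdR : |d| ≤ R + 1 := by
          rw [abs_of_nonpos (by rw [hd]; linarith), hd]; linarith
        calc |d| * ‖logDeriv H (pt y (R + r * d) v) - ℓ‖ ≤ (R + 1) * (ε' * ℓ) := by gcongr
          _ ≤ ε / 2 * ℓ := by nlinarith
    have hJre : |J.re - d * ℓ| ≤ ε / 2 * ℓ := by
      have := (Complex.abs_re_le_norm (J - (d * ℓ : ℝ))).trans hJb
      simpa using this
    obtain ⟨j1, j2⟩ := abs_le.mp hJre
    have e4 : ‖H (pt y u v)‖ = ‖H (pt y R v)‖ * Real.exp J.re := by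
      rw [h8, norm_mul, Complex.norm_exp]
    rw [e4]
    constructor
    · refine mul_le_mul_of_nonneg_left (Real.exp_le_exp.mpr ?_) (norm_nonneg _)
      linarith
    · refine mul_le_mul_of_nonneg_left (Real.exp_le_exp.mpr ?_) (norm_nonneg _)
      linarith
  have hright : ∀ v : ℝ, |v| ≤ A → M * Real.exp (ℓ * (R + τ / 2) - ε / 2 * ℓ) ≤ ‖H (pt y R v)‖ ∧
      ‖H (pt y R v)‖ ≤ M * Real.exp (ℓ * (R + τ / 2) + ε / 2 * ℓ) := by
    intro v hv
    have h4 := H1 X M ℓ y B hℓ2 τ hτ hτT R v (by linarith) (by linarith) hv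
    have h5 := B.lo (R + τ) v (by linarith)
    have h6 := B.up (R + τ) v
    have hmax : max |R + τ| a = R + τ := by
      rw [abs_of_nonneg (by linarith)]
      exact max_eq_left (by linarith)
    rw [hmax] at h6
    have hv2 : v ^ 2 ≤ A ^ 2 := by rw [← sq_abs v]; exact pow_le_pow_left₀ (abs_nonneg v) hv 2
    have hu2 : (R + τ) ^ 2 ≤ (R + T₀) ^ 2 := pow_le_pow_left₀ (by linarith) (by linarith) 2
    have hKK : K * (1 + (R + τ) ^ 2 + v ^ 2) ≤ K0 := by
      rw [hK0, hKabs]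
      gcongr
    set Y : ℝ := ‖X (pt y (R + τ) v)‖ * Real.exp (-(τ * ℓ / 2)) with hY
    have hYn : ‖X (pt y (R + τ) v) * ((Real.exp (-(τ * ℓ / 2)) : ℝ) : ℂ)‖ = Y := by
      rw [norm_mul, Complex.norm_real, Real.norm_of_nonneg (Real.exp_pos _).le]
    have hexp1 : Real.exp (-1 : ℝ) ≤ 1 / 2 := by
      rw [Real.exp_neg, ← one_div]
      have := Real.add_one_le_exp (1 : ℝ)
      exact one_div_le_one_div_of_le (by norm_num) (by linarith)
    have hexp2 : (3 : ℝ) / 2 ≤ Real.exp 1 := by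
      have := Real.add_one_le_exp (1 : ℝ)
      linarith
    have hYl : 1 / 2 * Y ≤ ‖H (pt y R v)‖ := by
      have := norm_sub_norm_le (X (pt y (R + τ) v) * ((Real.exp (-(τ * ℓ / 2)) : ℝ) : ℂ)) (H (pt y R v))
      rw [norm_sub_rev, hYn] at this
      linarith
    have hYu : ‖H (pt y R v)‖ ≤ 3 / 2 * Y := by
      have := norm_sub_norm_le (H (pt y R v)) (X (pt y (R + τ) v) * ((Real.exp (-(τ * ℓ / 2)) : ℝ) : ℂ))
      rw [hYn] at this
      linarith
    constructor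
    · refine le_trans ?_ hYl
      calc M * Real.exp (ℓ * (R + τ / 2) - ε / 2 * ℓ)
          ≤ M * Real.exp (-1 + (ℓ * (R + τ) - K * (1 + (R + τ) ^ 2 + v ^ 2)) + -(τ * ℓ / 2)) := by
            refine mul_le_mul_of_nonneg_left (Real.exp_le_exp.mpr ?_) hM.le
            linarith
        _ = Real.exp (-1) * ((M * Real.exp (ℓ * (R + τ) - K * (1 + (R + τ) ^ 2 + v ^ 2))) * Real.exp (-(τ * ℓ / 2))) := by
            rw [Real.exp_add (-1 + _) (-(τ * ℓ / 2)), Real.exp_add (-1) _]; ring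
        _ ≤ 1 / 2 * Y := by rw [hY]; gcongr
    · refine hYu.trans ?_
      calc 3 / 2 * Y ≤ Real.exp 1 * ((M * Real.exp (ℓ * (R + τ) + K * (1 + (R + τ) ^ 2 + v ^ 2))) * Real.exp (-(τ * ℓ / 2))) := by
            rw [hY]; gcongr
        _ = M * Real.exp (1 + (ℓ * (R + τ) + K * (1 + (R + τ) ^ 2 + v ^ 2)) + -(τ * ℓ / 2)) := by
            rw [Real.exp_add (1 + _) (-(τ * ℓ / 2)), Real.exp_add 1 _]; ring
        _ ≤ _ := by
            refine mul_le_mul_of_nonneg_left (Real.exp_le_exp.mpr ?_) hM.le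
            linarith
  refine ⟨hHd, fun z z1 z2 z3 => hne z (by linarith) (by linarith), fun z z1 z2 z3 => ?_, hlip, fun u v hu huR hv => ?_, fun u v hu huR hv => ?_⟩
  · exact (hlg z (by linarith) z2 z3).trans (mul_le_mul_of_nonneg_right hε'3 (by linarith))
  · refine le_trans ?_ (hsize u v hu huR hv).1
    refine le_trans ?_ (mul_le_mul_of_nonneg_right (hright v hv).1 (Real.exp_pos _).le)
    rw [mul_assoc, ← Real.exp_add]
    refine mul_le_mul_of_nonneg_left (Real.exp_le_exp.mpr ?_) hM.le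
    linarith
  · refine (hsize u v hu huR hv).2.trans ?_
    refine (mul_le_mul_of_nonneg_right (hright v hv).2 (Real.exp_pos _).le).trans ?_
    rw [mul_assoc, ← Real.exp_add]
    refine mul_le_mul_of_nonneg_left (Real.exp_le_exp.mpr ?_) hM.le
    linarith

end Pool.Agent.H487.NZ
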