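import Pool.Agent.H487.NB.Hurwitz

/-!
# Gaussian averages over half lines
-/

set_option autoImplicit false

open MeasureTheory Set Filter Topology
open scoped ComplexConjugate

namespace Pool.Agent.H487.NZ

open NB

/-- the average over the right half line -/
noncomputable def RR (t : ℝ) (F : ℂ → ℂ) (c : ℂ) (r : ℝ) : ℂ :=
  ∫ x in Ioi (0 : ℝ), F (c + x) * ((Real.exp (-((x - r) ^ 2 / (4 * t))) : ℝ) : ℂ)

/-- its derivative -/
noncomputable def RD (t : ℝ) (F : ℂ → ℂ) (c : ℂ) (r : ℝ) : ℂ :=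
  ∫ x in Ioi (0 : ℝ), F (c + x) * ((((x - r) / (2 * t)) * Real.exp (-((x - r) ^ 2 / (4 * t))) : ℝ) : ℂ)

lemma type0_line {F : ℂ → ℂ} (h : Type0 F) (c : ℂ) {d : ℝ} (hd : 0 < d) :
    ∃ K : ℝ, 0 < K ∧ ∀ x : ℝ, ‖F (c + x)‖ ≤ K * Real.exp (d * x ^ 2) := by
  obtain ⟨K, hK, hb⟩ := h (d / 2) (by positivity)
  refine ⟨K * Real.exp (d * ‖c‖ ^ 2), by positivity, fun x => (hb _).trans ?_⟩
  rw [mul_assoc, ← Real.exp_add]
  refine mul_le_mul_of_nonneg_left (Real.exp_le_exp.mpr ?_) hK.le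
  have h1 : ‖c + x‖ ≤ ‖c‖ + |x| := by
    refine (norm_add_le _ _).trans ?_
    rw [Complex.norm_real, Real.norm_eq_abs]
  have h2 : ‖c + x‖ ^ 2 ≤ (‖c‖ + |x|) ^ 2 := pow_le_pow_left₀ (norm_nonneg _) h1 2
  nlinarith [sq_nonneg (‖c‖ - |x|), sq_abs x]

/-- the basic bound of the integrand -/
lemma kern_bound {F : ℂ → ℂ} (h : Type0 F) (c : ℂ) {t : ℝ} (ht : 0 < t) (R : ℝ) :
    ∃ K : ℝ, 0 < K ∧ ∀ x r : ℝ, |r| ≤ R →
      ‖F (c + x)‖ * ((1 + |x|) ^ 2 * Real.exp (-((x - r) ^ 2 / (4 * t)))) ≤ K * Real.exp (-(1 / (32 * t)) * x ^ 2) := by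
  obtain ⟨K, hK, hb⟩ := type0_line h c (d := 1 / (32 * t)) (by positivity)
  -- `(1+|x|)^2 ≤ C exp (x²/32t)`
  obtain ⟨C, hC, hC2⟩ : ∃ C : ℝ, 0 < C ∧ ∀ x : ℝ, (1 + |x|) ^ 2 ≤ C * Real.exp (1 / (32 * t) * x ^ 2) := by
    refine ⟨2 + 64 * t, by positivity, fun x => ?_⟩
    have h1 : 1 + 1 / (32 * t) * x ^ 2 ≤ Real.exp (1 / (32 * t) * x ^ 2) := by
      have := Real.add_one_le_exp (1 / (32 * t) * x ^ 2)
      linarith
    have h2 : (1 + |x|) ^ 2 ≤ 2 + 2 * x ^ 2 := by nlinarith [sq_abs x, sq_nonneg (|x| - 1)]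
    calc (1 + |x|) ^ 2 ≤ 2 + 2 * x ^ 2 := h2
      _ ≤ (2 + 64 * t) * (1 + 1 / (32 * t) * x ^ 2) := by
          have e : (2 + 64 * t) * (1 + 1 / (32 * t) * x ^ 2) = 2 + 64 * t + 1 / (16 * t) * x ^ 2 + 2 * x ^ 2 := by
            field_simp
            ring
          rw [e]
          have : 0 ≤ 1 / (16 * t) * x ^ 2 := by positivity
          linarith
      _ ≤ _ := by gcongr
  refine ⟨K * C * Real.exp (R ^ 2 / (4 * t)), by positivity, fun x r hr => ?_⟩
  have h3 : Real.exp (-((x - r) ^ 2 / (4 * t))) ≤ Real.exp (R ^ 2 / (4 * t) + -(1 / (8 * t)) * x ^ 2) := by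
    apply Real.exp_le_exp.mpr
    have h4 : r ^ 2 ≤ R ^ 2 := by rw [← sq_abs]; exact pow_le_pow_left₀ (abs_nonneg _) hr 2
    have h5 : x ^ 2 / 2 - R ^ 2 ≤ (x - r) ^ 2 := by nlinarith [sq_nonneg (x - 2 * r)]
    have e : R ^ 2 / (4 * t) + -(1 / (8 * t)) * x ^ 2 = -((x ^ 2 / 2 - R ^ 2) / (4 * t)) := by
      field_simp; ring
    rw [e]
    apply neg_le_neg
    gcongr
  calc ‖F (c + x)‖ * ((1 + |x|) ^ 2 * Real.exp (-((x - r) ^ 2 / (4 * t))))
      ≤ (K * Real.exp (1 / (32 * t) * x ^ 2)) * ((C * Real.exp (1 / (32 * t) * x ^ 2)) * Real.exp (R ^ 2 / (4 * t) + -(1 / (8 * t)) * x ^ 2)) := by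
        have := hb x
        have := hC2 x
        gcongr
    _ = K * C * Real.exp (R ^ 2 / (4 * t)) * Real.exp (-(1 / (16 * t)) * x ^ 2) := by
        rw [Real.exp_add]
        have : Real.exp (1 / (32 * t) * x ^ 2) * Real.exp (1 / (32 * t) * x ^ 2) * Real.exp (-(1 / (8 * t)) * x ^ 2) = Real.exp (-(1 / (16 * t)) * x ^ 2) := by
          rw [← Real.exp_add, ← Real.exp_add]
          congr 1
          field_simp
          ring
        rw [← this]
        ring
    _ ≤ _ := by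
        gcongr
        · norm_num

lemma cont_line {F : ℂ → ℂ} (hd : Continuous F) (c : ℂ) (g : ℝ → ℝ) (hg : Continuous g) :
    Continuous fun x : ℝ => F (c + x) * ((g x : ℝ) : ℂ) :=
  (hd.comp (by fun_prop)).mul (Complex.continuous_ofReal.comp hg)

lemma line_integrable {F : ℂ → ℂ} (hd : Continuous F) (h : Type0 F) (c : ℂ) {t : ℝ} (ht : 0 < t) (r : ℝ) :
    Integrable fun x : ℝ => F (c + x) * ((Real.exp (-((x - r) ^ 2 / (4 * t))) : ℝ) : ℂ) := by
  obtain ⟨K, hK, hb⟩ := kern_bound h c ht |r|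
  refine ((integrable_exp_neg_mul_sq (by positivity : 0 < 1 / (32 * t))).const_mul K).mono' ?_ (Eventually.of_forall fun x => ?_)
  · exact (cont_line hd c _ (by fun_prop)).aestronglyMeasurable
  · rw [norm_mul, Complex.norm_real, Real.norm_of_nonneg (Real.exp_pos _).le]
    refine le_trans ?_ (hb x r le_rfl)
    refine mul_le_mul_of_nonneg_left ?_ (norm_nonneg _)
    have h1 : 1 ≤ (1 + |x|) ^ 2 := by nlinarith [abs_nonneg x]
    exact le_mul_of_one_le_left (Real.exp_pos _).le h1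

/-- decomposition into the two half lines -/
theorem heat_halves {F : ℂ → ℂ} (hd : Continuous F) (h : Type0 F) {ε : ℂ} (hfe : ∀ s, F s = ε * conj (F (1 - conj s)))
    {t : ℝ} (ht : 0 < t) (y r : ℝ) :
    heat t F (1 / 2 + y * Complex.I + r) = ((1 / Real.sqrt (4 * Real.pi * t) : ℝ) : ℂ) *
      (RR t F (1 / 2 + y * Complex.I) r + ε * conj (RR t F (1 / 2 + y * Complex.I) (-r))) := by
  set c : ℂ := 1 / 2 + y * Complex.I with hc
  unfold heat RR
  congr 1
  have e1 : ∫ x : ℝ, F (c + r + x) * ((Real.exp (-(x ^ 2 / (4 * t))) : ℝ) : ℂ) =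
      ∫ u : ℝ, F (c + u) * ((Real.exp (-((u - r) ^ 2 / (4 * t))) : ℝ) : ℂ) := by
    rw [← integral_sub_right_eq_self (fun x : ℝ => F (c + r + x) * ((Real.exp (-(x ^ 2 / (4 * t))) : ℝ) : ℂ)) r]
    refine integral_congr_ae (Eventually.of_forall fun u => ?_)
    simp only []
    congr 2
    push_cast
    ring
  have hI := line_integrable hd h c ht r
  rw [e1, ← integral_add_compl (measurableSet_Ioi (a := (0 : ℝ))) hI, compl_Ioi]
  congr 1
  have e2 : ∫ x in Iic (0 : ℝ), F (c + x) * ((Real.exp (-((x - r) ^ 2 / (4 * t))) : ℝ) : ℂ) =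
      ∫ x in Ioi (0 : ℝ), F (c + ((-x : ℝ) : ℂ)) * ((Real.exp (-((-x - r) ^ 2 / (4 * t))) : ℝ) : ℂ) := by
    rw [integral_comp_neg_Ioi (0 : ℝ) (fun x : ℝ => F (c + (x : ℂ)) * ((Real.exp (-((x - r) ^ 2 / (4 * t))) : ℝ) : ℂ)), neg_zero]
  rw [e2, ← integral_conj, ← integral_const_mul]
  refine integral_congr_ae (Eventually.of_forall fun x => ?_)
  simp only []
  have e3 : F (c + ((-x : ℝ) : ℂ)) = ε * conj (F (c + x)) := by
    rw [hfe]
    congr 3
    simp only [hc]
    apply Complex.ext <;> simp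
    ring
  rw [e3, map_mul, Complex.conj_ofReal, mul_assoc]
  congr 4
  ring_nf

/-- the derivative -/
theorem rr_deriv {F : ℂ → ℂ} (hd : Continuous F) (h : Type0 F) (c : ℂ) {t : ℝ} (ht : 0 < t) (r : ℝ) :
    HasDerivAt (RR t F c) (RD t F c r) r := by
  obtain ⟨K, hK, hb⟩ := kern_bound h c ht (|r| + 1)
  have hball : ∀ r' ∈ Metric.ball r 1, |r'| ≤ |r| + 1 := fun r' hr' => by
    rw [Metric.mem_ball, Real.dist_eq] at hr'
    have := abs_add_le (r' - r) r
    rw [sub_add_cancel] at this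
    linarith
  have hI : Integrable fun x : ℝ => K * Real.exp (-(1 / (32 * t)) * x ^ 2) :=
    (integrable_exp_neg_mul_sq (by positivity)).const_mul K
  have key := hasDerivAt_integral_of_dominated_loc_of_deriv_le (μ := (volume : Measure ℝ).restrict (Ioi 0)) (𝕜 := ℝ)
    (F := fun (r : ℝ) (x : ℝ) => F (c + x) * ((Real.exp (-((x - r) ^ 2 / (4 * t))) : ℝ) : ℂ))
    (F' := fun (r : ℝ) (x : ℝ) => F (c + x) * ((((x - r) / (2 * t)) * Real.exp (-((x - r) ^ 2 / (4 * t))) : ℝ) : ℂ))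
    (x₀ := r) (s := Metric.ball r 1)
    (bound := fun x : ℝ => ((|r| + 2) / (2 * t)) * (K * Real.exp (-(1 / (32 * t)) * x ^ 2)))
    (Metric.ball_mem_nhds _ one_pos) (Eventually.of_forall fun r' => ?_) ?_ ?_ ?_ ?_ ?_
  · exact key.2
  · exact (cont_line hd c _ (by fun_prop)).aestronglyMeasurable
  · exact (line_integrable hd h c ht r).integrableOn
  · exact (cont_line hd c _ (by fun_prop)).aestronglyMeasurable
  · refine Eventually.of_forall fun x r' hr' => ?_
    have h1 := hb x r' (hball r' hr')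
    rw [norm_mul, Complex.norm_real, norm_mul, Real.norm_of_nonneg (Real.exp_pos _).le, Real.norm_eq_abs, abs_div,
      abs_of_pos (by positivity : 0 < 2 * t)]
    have h2 : |x - r'| ≤ (|r| + 2) * (1 + |x|) ^ 2 := by
      have h3 := abs_sub x r'
      have h4 := hball r' hr'
      have h5 := abs_nonneg x
      have h6 := abs_nonneg r
      have h7 : 1 + |x| ≤ (1 + |x|) ^ 2 := by nlinarith
      have h8 : (|r| + 2) * (1 + |x|) ≤ (|r| + 2) * (1 + |x|) ^ 2 := by gcongr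
      nlinarith [mul_nonneg h6 h5]
    calc ‖F (c + x)‖ * (|x - r'| / (2 * t) * Real.exp (-((x - r') ^ 2 / (4 * t))))
        ≤ ‖F (c + x)‖ * ((|r| + 2) * (1 + |x|) ^ 2 / (2 * t) * Real.exp (-((x - r') ^ 2 / (4 * t)))) := by gcongr
      _ = ((|r| + 2) / (2 * t)) * (‖F (c + x)‖ * ((1 + |x|) ^ 2 * Real.exp (-((x - r') ^ 2 / (4 * t))))) := by ring
      _ ≤ _ := by gcongr
  · exact (hI.const_mul _).integrableOn
  · refine Eventually.of_forall fun x r' _ => ?_
    have h1 : HasDerivAt (fun r : ℝ => -((x - r) ^ 2 / (4 * t))) ((x - r') / (2 * t)) r' := by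
      have h2 : HasDerivAt (fun r : ℝ => x - r) (-1) r' := by simpa using (hasDerivAt_id r').const_sub x
      have h3 := ((h2.pow 2).div_const (4 * t)).neg
      refine h3.congr_deriv ?_
      field_simp
      push_cast
      ring
    have h4 := (h1.exp).ofReal_comp
    have h5 := h4.const_mul (F (c + x))
    refine h5.congr_deriv ?_
    push_cast
    ring

lemma rd_integrable {F : ℂ → ℂ} (hd : Continuous F) (h : Type0 F) (c : ℂ) {t : ℝ} (ht : 0 < t) (r : ℝ) :
    Integrable fun x : ℝ => F (c + x) * ((((x - r) / (2 * t)) * Real.exp (-((x - r) ^ 2 / (4 * t))) : ℝ) : ℂ) := by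
  obtain ⟨K, hK, hb⟩ := kern_bound h c ht |r|
  have hI : Integrable fun x : ℝ => ((|r| + 2) / (2 * t)) * (K * Real.exp (-(1 / (32 * t)) * x ^ 2)) :=
    ((integrable_exp_neg_mul_sq (by positivity)).const_mul K).const_mul _
  refine hI.mono' ?_ (Eventually.of_forall fun x => ?_)
  · exact (cont_line hd c _ (by fun_prop)).aestronglyMeasurable
  · have h1 := hb x r le_rfl
    rw [norm_mul, Complex.norm_real, norm_mul, Real.norm_of_nonneg (Real.exp_pos _).le, Real.norm_eq_abs, abs_div,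
      abs_of_pos (by positivity : 0 < 2 * t)]
    have h2 : |x - r| ≤ (|r| + 2) * (1 + |x|) ^ 2 := by
      have h3 := abs_sub x r
      have h5 := abs_nonneg x
      have h6 := abs_nonneg r
      have h7 : 1 + |x| ≤ (1 + |x|) ^ 2 := by nlinarith
      have h8 : (|r| + 2) * (1 + |x|) ≤ (|r| + 2) * (1 + |x|) ^ 2 := by gcongr
      nlinarith [mul_nonneg h6 h5]
    calc ‖F (c + x)‖ * (|x - r| / (2 * t) * Real.exp (-((x - r) ^ 2 / (4 * t))))
        ≤ ‖F (c + x)‖ * ((|r| + 2) * (1 + |x|) ^ 2 / (2 * t) * Real.exp (-((x - r) ^ 2 / (4 * t)))) := by gcongr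
      _ = ((|r| + 2) / (2 * t)) * (‖F (c + x)‖ * ((1 + |x|) ^ 2 * Real.exp (-((x - r) ^ 2 / (4 * t))))) := by ring
      _ ≤ _ := by gcongr

/-- **conclusion on the zeros** -/
theorem zero_final {F : ℂ → ℂ} (hd : Differentiable ℂ F) (hs : SlowGrowth F) {ε : ℂ} (hε : ‖ε‖ = 1)
    (hfe : ∀ s, F s = ε * conj (F (1 - conj s))) {t : ℝ} (ht : 0 < t) {y r₀ R : ℝ} (hr₀ : 0 < r₀)
    (h1 : ∀ r : ℝ, |r| ≤ r₀ → 0 < (RD t F (1 / 2 + y * Complex.I) r * conj (RR t F (1 / 2 + y * Complex.I) r)).re)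
    (h2 : ∀ r : ℝ, r₀ ≤ r → r ≤ R → ‖RR t F (1 / 2 + y * Complex.I) (-r)‖ < ‖RR t F (1 / 2 + y * Complex.I) r‖)
    {r : ℝ} (hr : |r| ≤ R) (hz : heat t F (1 / 2 + y * Complex.I + r) = 0) :
    r = 0 ∧ deriv (heat t F) (1 / 2 + y * Complex.I) ≠ 0 := by
  have h0 := hs.type0
  set c : ℂ := 1 / 2 + y * Complex.I with hc
  have hder := rr_deriv hd.continuous h0 c ht
  -- monotone modulus
  set φ : ℝ → ℝ := fun r => Complex.normSq (RR t F c r) with hφ
  have hφd : ∀ r : ℝ, HasDerivAt φ (2 * (RD t F c r * conj (RR t F c r)).re) r := by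
    intro r
    have h3 := hder r
    have h4 : HasDerivAt (fun r => (RR t F c r).re) (RD t F c r).re r := (Complex.reCLM.hasFDerivAt.comp_hasDerivAt r h3)
    have h5 : HasDerivAt (fun r => (RR t F c r).im) (RD t F c r).im r := (Complex.imCLM.hasFDerivAt.comp_hasDerivAt r h3)
    have h6 := (h4.mul h4).add (h5.mul h5)
    have e : φ = fun r => (RR t F c r).re * (RR t F c r).re + (RR t F c r).im * (RR t F c r).im := by
      ext r; simp only [hφ, Complex.normSq_apply]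
    rw [e]
    refine h6.congr_deriv ?_
    rw [Complex.mul_re, Complex.conj_re, Complex.conj_im]
    ring
  have hmono : StrictMonoOn φ (Icc (-r₀) r₀) := by
    refine strictMonoOn_of_deriv_pos (convex_Icc _ _) (fun x _ => (hφd x).continuousAt.continuousWithinAt) fun x hx => ?_
    rw [interior_Icc] at hx
    rw [(hφd x).deriv]
    have := h1 x (abs_le.mpr ⟨hx.1.le, hx.2.le⟩)
    linarith
  have hlt : ∀ r : ℝ, 0 < r → r ≤ R → ‖RR t F c (-r)‖ < ‖RR t F c r‖ := by
    intro r hr0 hrR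
    rcases le_total r r₀ with h | h
    · have h3 := hmono (a := -r) (b := r) ⟨by linarith, by linarith⟩ ⟨by linarith, h⟩ (by linarith)
      simp only [hφ] at h3
      rw [Complex.normSq_eq_norm_sq, Complex.normSq_eq_norm_sq] at h3
      exact lt_of_pow_lt_pow_left₀ 2 (norm_nonneg _) h3
    · exact h2 r h hrR
  have hκ : ((1 / Real.sqrt (4 * Real.pi * t) : ℝ) : ℂ) ≠ 0 := by
    have := Real.pi_pos
    have h3 : (1 / Real.sqrt (4 * Real.pi * t) : ℝ) ≠ 0 := by positivity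
    exact_mod_cast h3
  have hne : ∀ r : ℝ, r ≠ 0 → |r| ≤ R → heat t F (c + r) ≠ 0 := by
    intro r hr0 hrR h3
    rw [heat_halves hd.continuous h0 hfe ht y r] at h3
    have h4 : RR t F c r + ε * conj (RR t F c (-r)) = 0 := by
      rcases mul_eq_zero.mp h3 with h | h
      · exact absurd h hκ
      · exact h
    have h5 : ‖RR t F c r‖ = ‖RR t F c (-r)‖ := by
      rw [eq_neg_of_add_eq_zero_left h4, norm_neg, norm_mul, hε, one_mul, RCLike.norm_conj]
    rcases lt_or_gt_of_ne hr0 with h | h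
    · have h6 := hlt (-r) (by linarith) (by rw [abs_of_neg h] at hrR; exact hrR)
      rw [neg_neg, h5] at h6
      exact lt_irrefl _ h6
    · have h6 := hlt r h (by rw [abs_of_pos h] at hrR; exact hrR)
      rw [h5] at h6
      exact lt_irrefl _ h6
  have hr00 : r = 0 := by
    by_contra hcon
    exact hne r hcon hr hz
  refine ⟨hr00, fun hdz => ?_⟩
  rw [hr00, Complex.ofReal_zero, add_zero] at hz
  -- the derivative at `0`
  have d1 : HasDerivAt (fun r : ℝ => heat t F (c + r)) (deriv (heat t F) c) 0 := by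
    have h3 : HasDerivAt (heat t F) (deriv (heat t F) c) (c + ((0 : ℝ) : ℂ)) := by
      rw [Complex.ofReal_zero, add_zero]
      exact (heat_differentiable hd hs ht c).hasDerivAt
    have h4 : HasDerivAt (fun r : ℝ => c + (r : ℂ)) 1 0 := by
      have := (Complex.ofRealCLM.hasDerivAt (x := (0 : ℝ))).const_add c
      simpa using this
    have h5 := h3.scomp_of_eq (0 : ℝ) h4 rfl
    rw [one_smul] at h5
    exact h5
  have d2 : HasDerivAt (fun r : ℝ => ((1 / Real.sqrt (4 * Real.pi * t) : ℝ) : ℂ) *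
      (RR t F c r + ε * conj (RR t F c (-r)))) (((1 / Real.sqrt (4 * Real.pi * t) : ℝ) : ℂ) *
      (RD t F c 0 + ε * conj (-(RD t F c 0)))) 0 := by
    have h3 := hder 0
    have h4 : HasDerivAt (fun r : ℝ => RR t F c (-r)) (-(RD t F c 0)) 0 := by
      have h5 := hder (-0)
      have h6 : HasDerivAt (fun r : ℝ => -r) (-1) 0 := hasDerivAt_neg' 0
      have h7 := h5.scomp (0 : ℝ) h6
      rw [neg_zero, neg_one_smul] at h7
      exact h7
    have h8 : HasDerivAt (fun r : ℝ => conj (RR t F c (-r))) (conj (-(RD t F c 0))) 0 :=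
      ((Complex.conjCLE : ℂ ≃L[ℝ] ℂ).hasFDerivAt.comp_hasDerivAt (0 : ℝ) h4)
    exact (h3.add (h8.const_mul ε)).const_mul _
  have e : (fun r : ℝ => heat t F (c + r)) = fun r : ℝ => ((1 / Real.sqrt (4 * Real.pi * t) : ℝ) : ℂ) *
      (RR t F c r + ε * conj (RR t F c (-r))) := funext fun r => heat_halves hd.continuous h0 hfe ht y r
  rw [e] at d1
  have h3 := d1.unique d2
  rw [hdz] at h3
  have h4 : RD t F c 0 + ε * conj (-(RD t F c 0)) = 0 := by
    rcases mul_eq_zero.mp h3.symm with h | h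
    · exact absurd h hκ
    · exact h
  have h5 := heat_halves hd.continuous h0 hfe ht y 0
  rw [← hc, Complex.ofReal_zero, add_zero, hz, neg_zero] at h5
  have h6 : RR t F c 0 + ε * conj (RR t F c 0) = 0 := by
    rcases mul_eq_zero.mp h5.symm with h | h
    · exact absurd h hκ
    · exact h
  have h7 := h1 0 (by rw [abs_zero]; exact hr₀.le)
  -- `RD conj RR` is purely imaginary
  have hεε : ε * conj ε = 1 := by rw [Complex.mul_conj, Complex.normSq_eq_norm_sq, hε]; norm_num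
  have h8 : conj (RR t F c 0) = -(conj ε * RR t F c 0) := by
    have h9 : conj (RR t F c 0) = conj (-(ε * conj (RR t F c 0))) := by rw [← eq_neg_of_add_eq_zero_left h6]
    rw [map_neg, map_mul, Complex.conj_conj] at h9
    exact h9
  have h9 : RD t F c 0 = ε * conj (RD t F c 0) := by
    rw [map_neg] at h4
    linear_combination h4
  have h10 : RD t F c 0 * conj (RR t F c 0) = -(conj (RD t F c 0 * conj (RR t F c 0))) := by
    rw [map_mul, Complex.conj_conj]
    calc RD t F c 0 * conj (RR t F c 0) = (ε * conj (RD t F c 0)) * (-(conj ε * RR t F c 0)) := by rw [← h9, ← h8]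
      _ = -((ε * conj ε) * (conj (RD t F c 0) * RR t F c 0)) := by ring
      _ = _ := by rw [hεε, one_mul]
  have h11 : (RD t F c 0 * conj (RR t F c 0)).re = -(RD t F c 0 * conj (RR t F c 0)).re := by
    conv_lhs => rw [h10]
    rw [Complex.neg_re, Complex.conj_re]
  linarith

end Pool.Agent.H487.NZ
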