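import Pool.Agent.H487.NZ.DBase

/-!
# The local law for L-functions, products with Dirichlet L-functions, and zero free strips
-/

set_option autoImplicit false

open Filter Topology Set
open scoped ComplexConjugate

namespace Pool.Agent.H487.NZ

open NB H353.E H353.F Complex

/-- **local law**: if the zeros of `H_t` near height `y` are on the critical line then the zeros of
`Λ` at height `y` are within `t log C(y) + η` of the line -/
theorem datum_local (m : ℕ) (hm : 1 ≤ m) {θ : ℝ} (hθ0 : 0 ≤ θ) (hθ1 : θ ≤ 1 / 2) {τ₀ : ℝ} (hτ₀ : 0 < τ₀) (T₀ : ℝ)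
    {η : ℝ} (hη : 0 < η) : ∃ A Q₀ : ℝ, 0 ≤ A ∧ 1 < Q₀ ∧
      ∀ (N : ℝ) (μ : Fin m → ℂ) (α : Fin m → ℕ → ℂ) (ε : ℂ) (Λ : ℂ → ℂ), DatumT θ N μ α ε Λ →
      ∀ y t : ℝ, Q₀ ≤ NB.cond N μ y → τ₀ ≤ t * Real.log (NB.cond N μ y) → t * Real.log (NB.cond N μ y) ≤ T₀ →
      (∀ s : ℂ, |s.im - y| ≤ A → flow t (xi N Λ) s = 0 → s.re = 1 / 2) →
      ∀ s : ℂ, s.im = y → xi N Λ s = 0 → |s.re - 1 / 2| ≤ t * Real.log (NB.cond N μ y) + η := by
  obtain ⟨K, HK⟩ := datum_base m hm hθ0 hθ1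
  obtain ⟨A, ℓ₀, hA, hℓ₀, H5⟩ := h5 2 K T₀ τ₀ (η / 2) (by norm_num) hτ₀ (half_pos hη)
  refine ⟨A, Real.exp (2 * ℓ₀), hA, Real.one_lt_exp_iff.mpr (by linarith), fun N μ α ε Λ d y t hQ ht1 ht2 hz s hsy hs => ?_⟩
  have B := HK N μ α ε Λ d y
  have hlog : 2 * ℓ₀ ≤ Real.log (NB.cond N μ y) := by
    have := Real.log_le_log (Real.exp_pos _) hQ
    rwa [Real.log_exp] at this
  set L : ℝ := Real.log (NB.cond N μ y) with hL
  have hL0 : 0 < L := by linarith
  have ht0 : 0 < t := by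
    by_contra hcon
    push Not at hcon
    nlinarith
  have et : t * L / (2 * (1 / 2 * L)) = t := by field_simp
  have C0 := datum_cl hm hθ0 hθ1 d
  have hzero : ∀ z : ℂ, 1 / 2 < z.re → |z.im - y| ≤ A → heat (t * L / (2 * (1 / 2 * L))) (xi N Λ) z ≠ 0 := by
    intro z h1 h2 h3
    rw [et, heat_eq_flow C0.diff C0.type0 ht0] at h3
    have := hz z h2 h3
    linarith
  have key := H5 (xi N Λ) (Mb N μ y) (1 / 2 * L) y B (by linarith) (t * L) ht1 ht2 hzero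
  rw [abs_le]
  constructor
  · by_contra hcon
    push Not at hcon
    obtain ⟨ε', hε', hfe⟩ := B.fe
    have h1 := hfe (1 - conj s)
    have e : 1 - conj (1 - conj s) = s := by simp
    rw [e, hs, map_zero, mul_zero] at h1
    have h2 : (1 - conj s).re = 1 - s.re := by simp
    have h3 : (1 - conj s).im = s.im := by simp
    exact key (1 - conj s) (by rw [h3, hsy]) (by rw [h2]; linarith) h1
  · by_contra hcon
    push Not at hcon
    exact key s hsy (by linarith) hs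

/-! ### Products -/

lemma multip {m : ℕ} {θ : ℝ} {α : Fin m → ℕ → ℂ} (hα : ∀ j, ∀ p : ℕ, p.Prime → ‖α j p‖ ≤ (p : ℝ) ^ θ) {s : ℂ}
    (hs : 1 + θ < s.re) : Multipliable fun p : Nat.Primes => ∏ j, (1 - α j p * ((p : ℕ) : ℂ) ^ (-s))⁻¹ := by
  have hterm : ∀ (p : Nat.Primes) (j : Fin m), ‖α j p * ((p : ℕ) : ℂ) ^ (-s)‖ ≤ ((p : ℕ) : ℝ) ^ (θ - s.re) := by
    intro p j
    have hp : (0 : ℝ) < ((p : ℕ) : ℝ) := by exact_mod_cast p.2.pos
    rw [norm_mul, Complex.norm_natCast_cpow_of_pos p.2.pos, neg_re, sub_eq_add_neg, Real.rpow_add hp]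
    exact mul_le_mul_of_nonneg_right (hα j p p.2) (Real.rpow_nonneg hp.le _)
  have hx : ∀ p : Nat.Primes, ((p : ℕ) : ℝ) ^ (θ - s.re) ≤ 1 / 2 := by
    intro p
    have hp : (2 : ℝ) ≤ ((p : ℕ) : ℝ) := by exact_mod_cast p.2.two_le
    calc ((p : ℕ) : ℝ) ^ (θ - s.re) ≤ ((p : ℕ) : ℝ) ^ (-1 : ℝ) := by
          apply Real.rpow_le_rpow_of_exponent_le (by linarith)
          linarith
      _ = ((p : ℕ) : ℝ)⁻¹ := Real.rpow_neg_one _
      _ ≤ 1 / 2 := by
          rw [one_div]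
          exact inv_anti₀ (by norm_num) hp
  have hloc : ∀ p : Nat.Primes, ‖∏ j, (1 - α j p * ((p : ℕ) : ℂ) ^ (-s))⁻¹ - 1‖ ≤
      2 * m * Real.exp (2 * m) * ((p : ℕ) : ℝ) ^ (θ - s.re) := by
    intro p
    set x : ℝ := ((p : ℕ) : ℝ) ^ (θ - s.re) with hxd
    have hx2 : x ≤ 1 / 2 := hx p
    have hx0 : 0 ≤ x := Real.rpow_nonneg (Nat.cast_nonneg _) _
    have h1 := Finset.norm_prod_one_add_sub_one_le (Finset.univ : Finset (Fin m))
      (fun j => (1 - α j p * ((p : ℕ) : ℂ) ^ (-s))⁻¹ - 1)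
    simp only [add_sub_cancel] at h1
    have h2 : ∑ j : Fin m, ‖(1 - α j p * ((p : ℕ) : ℂ) ^ (-s))⁻¹ - 1‖ ≤ m * (2 * x) := by
      have h3 := Finset.sum_le_sum (s := (Finset.univ : Finset (Fin m))) fun j _ =>
        (fac_one (hterm p j) hx2).2
      rw [Finset.sum_const, Finset.card_univ, Fintype.card_fin, nsmul_eq_mul] at h3
      exact h3
    set y : ℝ := ∑ j : Fin m, ‖(1 - α j p * ((p : ℕ) : ℂ) ^ (-s))⁻¹ - 1‖ with hy
    have hy0 : 0 ≤ y := Finset.sum_nonneg fun _ _ => norm_nonneg _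
    have h4 : Real.exp y - 1 ≤ y * Real.exp y := by
      have h5 := Real.add_one_le_exp (-y)
      have h6 : Real.exp y * Real.exp (-y) = 1 := by rw [← Real.exp_add]; simp
      nlinarith [Real.exp_pos y]
    have h7 : Real.exp y ≤ Real.exp (2 * m) := by
      apply Real.exp_le_exp.mpr
      have : (0 : ℝ) ≤ m := Nat.cast_nonneg m
      nlinarith
    refine h1.trans (h4.trans ?_)
    calc y * Real.exp y ≤ (m * (2 * x)) * Real.exp (2 * m) := by gcongr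
      _ = 2 * m * Real.exp (2 * m) * x := by ring
  have hsum : Summable (fun p : Nat.Primes => ‖∏ j, (1 - α j p * ((p : ℕ) : ℂ) ^ (-s))⁻¹ - 1‖) :=
    Summable.of_nonneg_of_le (fun _ => norm_nonneg _) hloc
      ((Nat.Primes.summable_rpow.mpr (by linarith)).mul_left _)
  have h := multipliable_one_add_of_summable hsum
  simpa using h

/-- the product of an L-function of degree `m` with one of degree `1` -/
theorem datum_mul {m : ℕ} {θ : ℝ} (hθ0 : 0 ≤ θ) {N : ℝ} {μ : Fin m → ℂ} {α : Fin m → ℕ → ℂ} {ε : ℂ}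
    {Λ : ℂ → ℂ} (d : DatumT θ N μ α ε Λ) {Q : ℝ} {ν : Fin 1 → ℂ} {β : Fin 1 → ℕ → ℂ} {δ : ℂ} {M : ℂ → ℂ}
    (d' : DatumT 0 Q ν β δ M) :
    DatumT θ (N * Q) (Fin.cons (ν 0) μ : Fin (m + 1) → ℂ) (Fin.cons (β 0) α : Fin (m + 1) → ℕ → ℂ) (ε * δ)
      (fun s => Λ s * M s) := by
  have hN := d.one_le
  have hQ := d'.one_le
  refine ⟨by nlinarith, fun j => ?_, fun j => ?_, by rw [norm_mul, d.norm_eq, d'.norm_eq, one_mul], d.entire.mul d'.entire,
    fun s hs => ?_, fun s => ?_, fun a b => ?_⟩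
  · refine Fin.cases ?_ (fun i => ?_) j
    · rw [Fin.cons_zero]; exact d'.re_le 0
    · rw [Fin.cons_succ]; exact d.re_le i
  · refine Fin.cases ?_ (fun i => ?_) j
    · intro p hp
      rw [Fin.cons_zero]
      refine (d'.norm_le 0 p hp).trans ?_
      exact Real.rpow_le_rpow_of_exponent_le (by exact_mod_cast hp.one_le) hθ0
    · intro p hp
      rw [Fin.cons_succ]; exact d.norm_le i p hp
  · have h1 := multip d.norm_le hs
    have h2 := multip d'.norm_le (s := s) (by linarith)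
    rw [d.euler s hs, d'.euler s (by linarith)]
    have h3 := h1.tprod_mul h2
    rw [mul_mul_mul_comm, ← h3, Fin.prod_univ_succ]
    simp only [Fin.cons_zero, Fin.cons_succ, Finset.univ_unique, Finset.prod_singleton, Fin.default_eq_zero,
      Fin.prod_univ_succ]
    congr 1
    · ring
    · refine tprod_congr fun p => ?_
      simp
      ring
  · have e : ((N * Q : ℝ) : ℂ) ^ (1 / 2 - s) = (N : ℂ) ^ (1 / 2 - s) * (Q : ℂ) ^ (1 / 2 - s) := by
      rw [Complex.ofReal_mul, Complex.mul_cpow_ofReal_nonneg (by linarith) (by linarith)]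
    rw [e, d.fe s, d'.fe s, map_mul]
    ring
  · obtain ⟨M1, h1⟩ := d.bdd a b
    obtain ⟨M2, h2⟩ := d'.bdd a b
    refine ⟨M1 + M2, fun s hs1 hs2 => ?_⟩
    rw [norm_mul, add_mul, Real.exp_add]
    exact mul_le_mul (h1 s hs1 hs2) (h2 s hs1 hs2) (norm_nonneg _) (Real.exp_pos _).le

lemma cond_mul {m : ℕ} {N Q : ℝ} (hN : 1 ≤ N) (hQ : 1 ≤ Q) (μ : Fin m → ℂ) (ν : ℂ) (y : ℝ) :
    Q ≤ NB.cond (N * Q) (Fin.cons ν μ : Fin (m + 1) → ℂ) y := by
  have h1 := cond_one (le_refl (1 : ℝ)) (Fin.cons ν μ : Fin (m + 1) → ℂ) y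
  unfold NB.cond at h1 ⊢
  rw [one_mul] at h1
  calc Q = 1 * Q * 1 := by ring
    _ ≤ (N * Q) * ∏ j, (1 + ‖(y : ℂ) * I - (Fin.cons ν μ : Fin (m + 1) → ℂ) j‖) := by gcongr

/-- there are primitive characters of arbitrarily large conductor -/
lemma exists_prim (n : ℕ) : ∃ (q : ℕ) (_ : NeZero q) (χ : DirichletCharacter ℂ q), n ≤ q ∧ 1 < q ∧ χ.IsPrimitive := by
  obtain ⟨q, hq, hp⟩ := Nat.exists_infinite_primes (max n 3)
  have hq3 : 3 ≤ q := (le_max_right _ _).trans hq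
  have : Fact q.Prime := ⟨hp⟩
  have : NeZero q := ⟨hp.ne_zero⟩
  refine ⟨q, inferInstance, (quadraticChar (ZMod q)).ringHomComp (Int.castRingHom ℂ), (le_max_left _ _).trans hq,
    by omega, ?_⟩
  set χ : DirichletCharacter ℂ q := (quadraticChar (ZMod q)).ringHomComp (Int.castRingHom ℂ) with hχ
  have hne : χ ≠ 1 := by
    have h1 : quadraticChar (ZMod q) ≠ 1 := quadraticChar_ne_one (by
      rw [ZMod.ringChar_zmod_n]; omega)
    intro h2
    apply h1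
    exact (MulChar.ringHomComp_eq_one_iff (Int.castRingHom ℂ).injective_int).mp h2
  have h1 : χ.conductor ∣ q := DirichletCharacter.conductor_dvd_level χ
  rcases (Nat.dvd_prime hp).mp h1 with h2 | h2
  · exact absurd (DirichletCharacter.eq_one_iff_conductor_eq_one.mpr h2) hne
  · exact h2

/-- all zeros of `H_t` at heights `y` with `t log C(y) ≥ κ + η` are on the critical line, for `t ≤ t₁(η)`,
uniformly in all L-functions of degree `m` -/
def NBound (m : ℕ) (θ κ : ℝ) : Prop :=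
  ∀ η : ℝ, 0 < η → ∃ t₁ : ℝ, 0 < t₁ ∧
    ∀ (N : ℝ) (μ : Fin m → ℂ) (α : Fin m → ℕ → ℂ) (ε : ℂ) (Λ : ℂ → ℂ), DatumT θ N μ α ε Λ →
    ∀ t : ℝ, 0 < t → t ≤ t₁ → ∀ s : ℂ, κ + η ≤ t * Real.log (NB.cond N μ s.im) →
      flow t (xi N Λ) s = 0 → s.re = 1 / 2

/-- a bound for the constants in degree `m + 1` implies a zero free strip in degree `m` -/
theorem strip_of (m : ℕ) {θ κ : ℝ} (hθ0 : 0 ≤ θ) (hθ1 : θ ≤ 1 / 2) (hκ : 0 ≤ κ) (h : NBound (m + 1) θ κ)
    {N : ℝ} {μ : Fin m → ℂ} {α : Fin m → ℕ → ℂ} {ε : ℂ} {Λ : ℂ → ℂ} (d : DatumT θ N μ α ε Λ) {s : ℂ} (hs : Λ s = 0) :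
    |s.re - 1 / 2| ≤ κ := by
  by_contra hcon
  push Not at hcon
  set η : ℝ := (|s.re - 1 / 2| - κ) / 4 with hη
  have hη0 : 0 < η := by rw [hη]; linarith
  obtain ⟨t₁, ht₁, H⟩ := h η hη0
  obtain ⟨A, Q₀, hA, hQ₀, HL⟩ := datum_local (m + 1) (by omega) hθ0 hθ1 (τ₀ := κ + 2 * η) (by linarith) (κ + 2 * η) hη0
  set y : ℝ := s.im with hy
  -- the size of the modulus
  set m' : ℝ := ((m + 1 : ℕ) : ℝ) with hm'
  have hm'0 : 0 ≤ m' := Nat.cast_nonneg _
  set L₀ : ℝ := max 1 (max ((κ + 2 * η) / t₁) ((κ + 2 * η) * (m' * A + 1) / η)) with hL₀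
  obtain ⟨n, hn⟩ := exists_nat_ge (max Q₀ (Real.exp L₀))
  obtain ⟨q, _, χ, hnq, hq1, hχ⟩ := exists_prim n
  have hqn : (n : ℝ) ≤ q := by exact_mod_cast hnq
  have hqQ : Q₀ ≤ q := (le_max_left _ _).trans (hn.trans hqn)
  have hqL : Real.exp L₀ ≤ q := (le_max_right _ _).trans (hn.trans hqn)
  have dq := datumT_dir hq1 hχ
  have D := datum_mul hθ0 d dq
  have hcond : (q : ℝ) ≤ NB.cond (N * q) (Fin.cons (-H370.DL.aa χ) μ : Fin (m + 1) → ℂ) y :=
    cond_mul d.one_le dq.one_le μ _ y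
  set C : ℝ := NB.cond (N * q) (Fin.cons (-H370.DL.aa χ) μ : Fin (m + 1) → ℂ) y with hC
  set L : ℝ := Real.log C with hL
  have hLL : L₀ ≤ L := by
    have h1 := Real.log_le_log (Real.exp_pos _) (hqL.trans hcond)
    rwa [Real.log_exp] at h1
  have hL1 : 1 ≤ L := (le_max_left _ _).trans hLL
  have hL2 : (κ + 2 * η) / t₁ ≤ L := ((le_max_left _ _).trans (le_max_right _ _)).trans hLL
  have hL3 : (κ + 2 * η) * (m' * A + 1) / η ≤ L := ((le_max_right _ _).trans (le_max_right _ _)).trans hLL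
  set t : ℝ := (κ + 2 * η) / L with ht
  have hκη : 0 < κ + 2 * η := by linarith
  have ht0 : 0 < t := by positivity
  have htL : t * L = κ + 2 * η := by rw [ht]; field_simp
  have htt : t ≤ t₁ := by
    rw [ht, div_le_iff₀ (by linarith)]
    rw [div_le_iff₀ ht₁] at hL2
    linarith
  have htA : t * (m' * A + 1) ≤ η := by
    rw [ht, div_mul_eq_mul_div, div_le_iff₀ (by linarith)]
    rw [div_le_iff₀ hη0] at hL3
    linarith
  have key := HL _ _ _ _ _ D y t (hqQ.trans hcond) (by rw [← hC, ← hL, htL]) (by rw [← hC, ← hL, htL])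
    (fun z hz1 hz2 => ?_) s rfl ?_
  · rw [← hC, ← hL, htL] at key
    linarith
  · refine H _ _ _ _ _ D t ht0 htt z ?_ hz2
    have h1 := cond_shift D.one_le (Fin.cons (-H370.DL.aa χ) μ : Fin (m + 1) → ℂ) z.im y
    rw [← hC, ← hL, abs_sub_comm, ← hm'] at h1
    have h2 : m' * |z.im - y| ≤ m' * A := by gcongr
    have h3 : t * L ≤ t * (Real.log (NB.cond (N * q) (Fin.cons (-H370.DL.aa χ) μ : Fin (m + 1) → ℂ) z.im) + m' * A) := by
      gcongr; linarith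
    nlinarith
  · rw [xi_zero D.one_le]
    simp only [hs, zero_mul]

end Pool.Agent.H487.NZ
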