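import Mathlib

/-!
# Gaussian approximation of `f(u) e^{-(u-X)²/4t}`, `f' = f g` with `g` of small Lipschitz constant
-/

set_option autoImplicit false

open MeasureTheory Set Filter Topology

namespace Pool.Agent.H487.NZ

/-- `q(1) = q(0) exp ∫ w` -/
lemma exp_seg {q w : ℝ → ℂ} (hw : ContinuousOn w (Icc 0 1))
    (hq : ∀ x ∈ Icc (0 : ℝ) 1, HasDerivWithinAt q (q x * w x) (Icc 0 1) x) :
    q 1 = q 0 * Complex.exp (∫ y in (0 : ℝ)..1, w y) := by
  set W : ℝ → ℂ := IccExtend zero_le_one ((Icc (0 : ℝ) 1).domRestrict w) with hW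
  have hWc : Continuous W := Continuous.Icc_extend' (hw.domRestrict)
  have hWw : ∀ x ∈ Icc (0 : ℝ) 1, W x = w x := fun x hx => by
    rw [hW, IccExtend_of_mem zero_le_one _ hx]; rfl
  have hint : ∫ y in (0 : ℝ)..1, w y = ∫ y in (0 : ℝ)..1, W y := by
    refine intervalIntegral.integral_congr fun y hy => ?_
    rw [uIcc_of_le zero_le_one] at hy
    exact (hWw y hy).symm
  set G : ℝ → ℂ := fun x => ∫ y in (0 : ℝ)..x, W y with hG
  have hGd : ∀ x, HasDerivAt G (W x) x := fun x =>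
    intervalIntegral.integral_hasDerivAt_right (hWc.intervalIntegrable _ _)
      (hWc.stronglyMeasurableAtFilter _ _) hWc.continuousAt
  rw [hint]
  have hH : ∀ y ∈ Icc (0 : ℝ) 1, HasDerivWithinAt (fun y => q y * Complex.exp (-G y)) 0 (Icc 0 1) y := fun y hy => by
    have h1 := (hq y hy).mul ((hGd y).neg.cexp).hasDerivWithinAt
    refine h1.congr_deriv ?_
    rw [← hWw y hy]
    simp only [Pi.neg_apply]
    ring
  have h2 := (convex_Icc (0 : ℝ) 1).norm_image_sub_le_of_norm_hasDerivWithin_le (C := 0) hH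
    (fun y _ => by simp) (x := 0) (y := 1) ⟨le_rfl, zero_le_one⟩ ⟨zero_le_one, le_rfl⟩
  rw [zero_mul] at h2
  have hconst := sub_eq_zero.mp (norm_le_zero_iff.mp h2)
  have hG0 : G 0 = 0 := by simp [hG]
  rw [hG0, neg_zero, Complex.exp_zero, mul_one] at hconst
  rw [← hconst, mul_assoc, ← Complex.exp_add]
  have : -G 1 + G 1 = 0 := by ring
  have e : -G 1 + ∫ y in (0 : ℝ)..1, W y = 0 := this
  rw [e, Complex.exp_zero, mul_one]

/-- `f(u) = f(u₀) exp (g(u₀) (u - u₀) + E)` -/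
lemma expo {f g : ℝ → ℂ} {I : Set ℝ} (hI : Convex ℝ I) {κ : ℝ} (hκ : 0 ≤ κ)
    (hder : ∀ u ∈ I, HasDerivAt f (f u * g u) u)
    (hlip : ∀ u ∈ I, ∀ v ∈ I, ‖g u - g v‖ ≤ κ * |u - v|) {u₀ u : ℝ} (h0 : u₀ ∈ I) (hu : u ∈ I) :
    ∃ E : ℂ, f u = f u₀ * Complex.exp (g u₀ * (u - u₀ : ℝ) + E) ∧ ‖E‖ ≤ κ * (u - u₀) ^ 2 := by
  set v : ℝ := u - u₀ with hv
  have hmem : ∀ r ∈ Icc (0 : ℝ) 1, u₀ + r * v ∈ I := fun r hr => by
    have := hI h0 hu (sub_nonneg.mpr hr.2) hr.1 (by ring)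
    have e : (1 - r) • u₀ + r • u = u₀ + r * v := by simp only [smul_eq_mul, hv]; ring
    rwa [e] at this
  have hgc : ContinuousOn (fun r : ℝ => (v : ℂ) * g (u₀ + r * v)) (Icc 0 1) := by
    refine continuousOn_const.mul ?_
    have h1 : ContinuousOn g I := by
      have : LipschitzOnWith (Real.toNNReal κ) g I := LipschitzOnWith.of_dist_le_mul fun x hx y hy => by
        rw [dist_eq_norm, Real.coe_toNNReal _ hκ, Real.dist_eq]
        exact hlip x hx y hy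
      exact this.continuousOn
    exact h1.comp (by fun_prop) fun r hr => hmem r hr
  have hq : ∀ x ∈ Icc (0 : ℝ) 1, HasDerivWithinAt (fun r : ℝ => f (u₀ + r * v)) (f (u₀ + x * v) * ((v : ℂ) * g (u₀ + x * v))) (Icc 0 1) x := by
    intro x hx
    have h1 := hder _ (hmem x hx)
    have h2 : HasDerivAt (fun r : ℝ => u₀ + r * v) v x := by
      simpa using ((hasDerivAt_id x).mul_const v).const_add u₀
    have h3 := h1.scomp x h2
    refine (h3.congr_deriv ?_).hasDerivWithinAt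
    rw [Complex.real_smul]
    ring
  have h1 := exp_seg hgc hq
  simp only [one_mul, zero_mul, add_zero] at h1
  have e1 : u₀ + v = u := by rw [hv]; ring
  rw [e1] at h1
  have hi1 : IntervalIntegrable (fun r : ℝ => (v : ℂ) * g (u₀ + r * v)) volume 0 1 := by
    refine ContinuousOn.intervalIntegrable ?_
    rw [uIcc_of_le zero_le_one]
    exact hgc
  refine ⟨∫ y in (0 : ℝ)..1, ((v : ℂ) * g (u₀ + y * v) - g u₀ * v), ?_, ?_⟩
  · rw [h1, intervalIntegral.integral_sub hi1 intervalIntegrable_const, intervalIntegral.integral_const]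
    congr 2
    simp
  · have h2 := intervalIntegral.norm_integral_le_of_norm_le_const (a := (0 : ℝ)) (b := 1) (C := κ * v ^ 2)
      (f := fun y : ℝ => (v : ℂ) * g (u₀ + y * v) - g u₀ * v) (fun y hy => ?_)
    · simpa using h2
    · rw [uIoc_of_le zero_le_one] at hy
      have h3 := hlip _ (hmem y ⟨hy.1.le, hy.2⟩) u₀ h0
      have e2 : (v : ℂ) * g (u₀ + y * v) - g u₀ * v = v * (g (u₀ + y * v) - g u₀) := by ring
      rw [e2, norm_mul, Complex.norm_real, Real.norm_eq_abs]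
      have e3 : u₀ + y * v - u₀ = y * v := by ring
      rw [e3, abs_mul, abs_of_pos hy.1] at h3
      calc |v| * ‖g (u₀ + y * v) - g u₀‖ ≤ |v| * (κ * (y * |v|)) := by gcongr
        _ ≤ |v| * (κ * (1 * |v|)) := by gcongr; exact hy.2
        _ = κ * v ^ 2 := by rw [← sq_abs v]; ring

lemma abs_mul_exp_le {c x : ℝ} (hc : 0 < c) : |x| * Real.exp (-(2 * c * x ^ 2)) ≤ 1 / Real.sqrt c * Real.exp (-(c * x ^ 2)) := by
  have h1 : Real.sqrt c * |x| ≤ Real.exp (c * x ^ 2) := by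
    have h2 : Real.sqrt c * |x| ≤ c * x ^ 2 + 1 := by
      have h3 : (Real.sqrt c * |x|) ^ 2 = c * x ^ 2 := by rw [mul_pow, Real.sq_sqrt hc.le, sq_abs]
      nlinarith [sq_nonneg (Real.sqrt c * |x| - 1)]
    exact h2.trans (Real.add_one_le_exp _)
  have h2 : 0 < Real.sqrt c := Real.sqrt_pos.mpr hc
  have e : Real.exp (-(c * x ^ 2)) = Real.exp (c * x ^ 2) * Real.exp (-(2 * c * x ^ 2)) := by
    rw [← Real.exp_add]; congr 1; ring
  rw [e, one_div, ← mul_assoc]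
  refine mul_le_mul_of_nonneg_right ?_ (Real.exp_pos _).le
  rw [inv_mul_eq_div, le_div_iff₀ h2, mul_comm]
  exact h1

lemma sq_mul_exp_le {c x : ℝ} (hc : 0 < c) : x ^ 2 * Real.exp (-(2 * c * x ^ 2)) ≤ 1 / c * Real.exp (-(c * x ^ 2)) := by
  have h1 : c * x ^ 2 ≤ Real.exp (c * x ^ 2) := by linarith [Real.add_one_le_exp (c * x ^ 2)]
  have e : Real.exp (-(c * x ^ 2)) = Real.exp (c * x ^ 2) * Real.exp (-(2 * c * x ^ 2)) := by
    rw [← Real.exp_add]; congr 1; ring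
  rw [e, one_div, ← mul_assoc]
  refine mul_le_mul_of_nonneg_right ?_ (Real.exp_pos _).le
  rw [inv_mul_eq_div, le_div_iff₀ hc, mul_comm]
  exact h1

lemma norm_exp_sub_one_le (z : ℂ) : ‖Complex.exp z - 1‖ ≤ ‖z‖ * Real.exp ‖z‖ := by
  have h1 := Complex.norm_exp_sub_sum_le_norm_mul_exp z 1
  simpa using h1

/-- the relative error -/
noncomputable def thet (t ω κ : ℝ) : ℝ := Real.exp (8 * t * ω ^ 2) * (4 * Real.sqrt t * ω + 16 * κ * t)

/-- **the pointwise estimate.** -/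
theorem rl {f g : ℝ → ℂ} {I : Set ℝ} (hI : Convex ℝ I) {κ t ω X : ℝ} (hκ : 0 ≤ κ) (ht : 0 < t) (hω : 0 ≤ ω)
    (h32 : 32 * κ * t ≤ 1)
    (hder : ∀ u ∈ I, HasDerivAt f (f u * g u) u)
    (hlip : ∀ u ∈ I, ∀ v ∈ I, ‖g u - g v‖ ≤ κ * |u - v|) {u₀ u : ℝ} (h0 : u₀ ∈ I) (hu : u ∈ I)
    (hg : ‖g u₀ - (((u₀ - X) / (2 * t) : ℝ) : ℂ)‖ ≤ ω) :
    ‖f u * ((Real.exp (-((u - X) ^ 2 / (4 * t))) : ℝ) : ℂ) -
      f u₀ * ((Real.exp (-((u₀ - X) ^ 2 / (4 * t))) : ℝ) : ℂ) * ((Real.exp (-((u - u₀) ^ 2 / (4 * t))) : ℝ) : ℂ)‖ ≤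
    ‖f u₀‖ * Real.exp (-((u₀ - X) ^ 2 / (4 * t))) * thet t ω κ * Real.exp (-((u - u₀) ^ 2 / (16 * t))) := by
  obtain ⟨E, hE, hEb⟩ := expo hI hκ hder hlip h0 hu
  set v : ℝ := u - u₀ with hv
  set w : ℂ := (g u₀ - (((u₀ - X) / (2 * t) : ℝ) : ℂ)) * v + E with hw
  have hwb : ‖w‖ ≤ ω * |v| + κ * v ^ 2 := by
    refine (norm_add_le _ _).trans (add_le_add ?_ hEb)
    rw [norm_mul, Complex.norm_real, Real.norm_eq_abs]
    gcongr
  have e1 : f u * ((Real.exp (-((u - X) ^ 2 / (4 * t))) : ℝ) : ℂ) =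
      f u₀ * ((Real.exp (-((u₀ - X) ^ 2 / (4 * t))) : ℝ) : ℂ) * ((Real.exp (-(v ^ 2 / (4 * t))) : ℝ) : ℂ) * Complex.exp w := by
    rw [hE]
    have e2 : ((Real.exp (-((u - X) ^ 2 / (4 * t))) : ℝ) : ℂ) =
        ((Real.exp (-((u₀ - X) ^ 2 / (4 * t))) : ℝ) : ℂ) * ((Real.exp (-(v ^ 2 / (4 * t))) : ℝ) : ℂ) *
          Complex.exp (-((((u₀ - X) / (2 * t) : ℝ) : ℂ) * v)) := by
      rw [Complex.ofReal_exp, Complex.ofReal_exp, Complex.ofReal_exp, ← Complex.exp_add, ← Complex.exp_add]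
      congr 1
      have h3 : -((u - X) ^ 2 / (4 * t)) = -((u₀ - X) ^ 2 / (4 * t)) + -(v ^ 2 / (4 * t)) + -((u₀ - X) / (2 * t) * v) := by
        rw [hv]; field_simp; ring
      rw [h3]
      push_cast
      ring
    rw [e2]
    have e3 : Complex.exp w = Complex.exp (g u₀ * v + E) * Complex.exp (-((((u₀ - X) / (2 * t) : ℝ) : ℂ) * v)) := by
      rw [← Complex.exp_add]
      congr 1
      rw [hw]
      ring
    rw [e3]
    ring
  rw [e1]
  have e4 : f u₀ * ((Real.exp (-((u₀ - X) ^ 2 / (4 * t))) : ℝ) : ℂ) * ((Real.exp (-(v ^ 2 / (4 * t))) : ℝ) : ℂ) * Complex.exp w -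
      f u₀ * ((Real.exp (-((u₀ - X) ^ 2 / (4 * t))) : ℝ) : ℂ) * ((Real.exp (-(v ^ 2 / (4 * t))) : ℝ) : ℂ) =
      f u₀ * ((Real.exp (-((u₀ - X) ^ 2 / (4 * t))) : ℝ) : ℂ) * (((Real.exp (-(v ^ 2 / (4 * t))) : ℝ) : ℂ) * (Complex.exp w - 1)) := by ring
  rw [e4, norm_mul, norm_mul, Complex.norm_real, Real.norm_of_nonneg (Real.exp_pos _).le, mul_assoc]
  rw [mul_assoc (‖f u₀‖), mul_assoc (‖f u₀‖), mul_assoc (Real.exp (-((u₀ - X) ^ 2 / (4 * t))))]
  refine mul_le_mul_of_nonneg_left (mul_le_mul_of_nonneg_left ?_ (Real.exp_pos _).le) (norm_nonneg _)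
  rw [norm_mul, Complex.norm_real, Real.norm_of_nonneg (Real.exp_pos _).le]
  have h1 := norm_exp_sub_one_le w
  have hw0 : 0 ≤ ω * |v| + κ * v ^ 2 := by positivity
  -- exponent
  have h2 : ω * |v| + κ * v ^ 2 ≤ 8 * t * ω ^ 2 + v ^ 2 / (16 * t) := by
    have h3 : ω * |v| ≤ 8 * t * ω ^ 2 + v ^ 2 / (32 * t) := by
      rw [← sq_abs v]
      have h4 : 0 ≤ (16 * t * ω - |v|) ^ 2 / (32 * t) := by positivity
      have e : (16 * t * ω - |v|) ^ 2 / (32 * t) = 8 * t * ω ^ 2 + |v| ^ 2 / (32 * t) - ω * |v| := by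
        field_simp; ring
      linarith
    have h5 : κ * v ^ 2 ≤ v ^ 2 / (32 * t) := by
      rw [le_div_iff₀ (by positivity)]
      nlinarith [sq_nonneg v]
    have e : v ^ 2 / (16 * t) = v ^ 2 / (32 * t) + v ^ 2 / (32 * t) := by field_simp; ring
    linarith
  have h3 : Real.exp (-(v ^ 2 / (4 * t))) * ‖Complex.exp w - 1‖ ≤
      Real.exp (8 * t * ω ^ 2) * ((ω * |v| + κ * v ^ 2) * Real.exp (-(2 * (1 / (16 * t)) * v ^ 2))) := by
    have h4 : ‖Complex.exp w - 1‖ ≤ (ω * |v| + κ * v ^ 2) * Real.exp (8 * t * ω ^ 2 + v ^ 2 / (16 * t)) := by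
      refine h1.trans ?_
      refine mul_le_mul hwb (Real.exp_le_exp.mpr (hwb.trans h2)) (Real.exp_pos _).le hw0
    calc Real.exp (-(v ^ 2 / (4 * t))) * ‖Complex.exp w - 1‖
        ≤ Real.exp (-(v ^ 2 / (4 * t))) * ((ω * |v| + κ * v ^ 2) * Real.exp (8 * t * ω ^ 2 + v ^ 2 / (16 * t))) := by gcongr
      _ = (ω * |v| + κ * v ^ 2) * (Real.exp (-(v ^ 2 / (4 * t))) * Real.exp (8 * t * ω ^ 2 + v ^ 2 / (16 * t))) := by ring
      _ ≤ (ω * |v| + κ * v ^ 2) * (Real.exp (8 * t * ω ^ 2) * Real.exp (-(2 * (1 / (16 * t)) * v ^ 2))) := by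
          refine mul_le_mul_of_nonneg_left ?_ hw0
          rw [← Real.exp_add, ← Real.exp_add]
          apply Real.exp_le_exp.mpr
          have e : -(v ^ 2 / (4 * t)) + (8 * t * ω ^ 2 + v ^ 2 / (16 * t)) = 8 * t * ω ^ 2 - 3 * (v ^ 2 / (16 * t)) := by
            field_simp; ring
          have e2 : 8 * t * ω ^ 2 + -(2 * (1 / (16 * t)) * v ^ 2) = 8 * t * ω ^ 2 - 2 * (v ^ 2 / (16 * t)) := by
            field_simp; ring
          rw [e, e2]
          have : 0 ≤ v ^ 2 / (16 * t) := by positivity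
          linarith
      _ = _ := by ring
  refine h3.trans ?_
  unfold thet
  rw [mul_assoc (Real.exp (8 * t * ω ^ 2)) (4 * Real.sqrt t * ω + 16 * κ * t)]
  refine mul_le_mul_of_nonneg_left ?_ (Real.exp_pos _).le
  have hc : 0 < 1 / (16 * t) := by positivity
  have h5 := abs_mul_exp_le (x := v) hc
  have h6 := sq_mul_exp_le (x := v) hc
  have e5 : 1 / Real.sqrt (1 / (16 * t)) = 4 * Real.sqrt t := by
    rw [one_div (16 * t), Real.sqrt_inv, one_div, inv_inv, Real.sqrt_mul (by norm_num)]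
    congr 1
    rw [show (16 : ℝ) = 4 ^ 2 by norm_num]
    exact Real.sqrt_sq (by norm_num)
  have e6 : 1 / (1 / (16 * t)) = 16 * t := by field_simp
  have e7 : -(1 / (16 * t) * v ^ 2) = -(v ^ 2 / (16 * t)) := by ring
  rw [e5, e7] at h5
  rw [e6, e7] at h6
  calc (ω * |v| + κ * v ^ 2) * Real.exp (-(2 * (1 / (16 * t)) * v ^ 2))
      = ω * (|v| * Real.exp (-(2 * (1 / (16 * t)) * v ^ 2))) + κ * (v ^ 2 * Real.exp (-(2 * (1 / (16 * t)) * v ^ 2))) := by ring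
    _ ≤ ω * (4 * Real.sqrt t * Real.exp (-(v ^ 2 / (16 * t)))) + κ * (16 * t * Real.exp (-(v ^ 2 / (16 * t)))) := by gcongr
    _ = _ := by ring

/-- Gaussian integrals -/
lemma gint {t : ℝ} (ht : 0 < t) (u₀ : ℝ) : Integrable (fun u : ℝ => Real.exp (-((u - u₀) ^ 2 / (4 * t)))) ∧
    ∫ u : ℝ, Real.exp (-((u - u₀) ^ 2 / (4 * t))) = Real.sqrt (4 * Real.pi * t) := by
  have h1 : Integrable fun u : ℝ => Real.exp (-(1 / (4 * t)) * u ^ 2) := integrable_exp_neg_mul_sq (by positivity)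
  have e : (fun u : ℝ => Real.exp (-((u - u₀) ^ 2 / (4 * t)))) = fun u : ℝ => Real.exp (-(1 / (4 * t)) * (u - u₀) ^ 2) := by
    ext u; congr 1; ring
  rw [e]
  refine ⟨h1.comp_sub_right u₀, ?_⟩
  rw [integral_sub_right_eq_self (fun u : ℝ => Real.exp (-(1 / (4 * t)) * u ^ 2)) u₀, integral_gaussian]
  congr 1
  field_simp

/-- **from the pointwise estimate to the integral** -/
theorem rl_int {F : ℝ → ℂ} {W : ℂ} {u₀ t ϑ : ℝ} (ht : 0 < t) (hF : Continuous F)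
    (h : ∀ u, ‖F u - W * ((Real.exp (-((u - u₀) ^ 2 / (4 * t))) : ℝ) : ℂ)‖ ≤
      ‖W‖ * ϑ * Real.exp (-((u - u₀) ^ 2 / (16 * t)))) :
    ‖((1 / Real.sqrt (4 * Real.pi * t) : ℝ) : ℂ) * (∫ u, F u) - W‖ ≤ 2 * ϑ * ‖W‖ := by
  obtain ⟨i1, v1⟩ := gint ht u₀
  obtain ⟨i2, v2⟩ := gint (t := 4 * t) (by positivity) u₀
  have e16 : (4 : ℝ) * (4 * t) = 16 * t := by ring
  simp only [e16] at i2 v2
  have hs : 0 < Real.sqrt (4 * Real.pi * t) := Real.sqrt_pos.mpr (by have := Real.pi_pos; positivity)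
  have e2 : Real.sqrt (4 * Real.pi * (4 * t)) = 2 * Real.sqrt (4 * Real.pi * t) := by
    rw [show 4 * Real.pi * (4 * t) = 4 * (4 * Real.pi * t) by ring, Real.sqrt_mul (by norm_num)]
    congr 1
    rw [show (4 : ℝ) = 2 ^ 2 by norm_num]
    exact Real.sqrt_sq (by norm_num)
  rw [e2] at v2
  have i3 : Integrable fun u : ℝ => W * ((Real.exp (-((u - u₀) ^ 2 / (4 * t))) : ℝ) : ℂ) := (i1.ofReal).const_mul W
  have i4 : Integrable fun u : ℝ => F u - W * ((Real.exp (-((u - u₀) ^ 2 / (4 * t))) : ℝ) : ℂ) := by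
    refine (i2.const_mul (‖W‖ * ϑ)).mono' ?_ (Eventually.of_forall h)
    refine (hF.sub (continuous_const.mul (Complex.continuous_ofReal.comp ?_))).aestronglyMeasurable
    exact Real.continuous_exp.comp (by fun_prop)
  have i5 : Integrable F := by
    have := i4.add i3
    refine this.congr (Eventually.of_forall fun u => ?_)
    simp
  have v3 : ∫ u : ℝ, ((Real.exp (-((u - u₀) ^ 2 / (4 * t))) : ℝ) : ℂ) = ((Real.sqrt (4 * Real.pi * t) : ℝ) : ℂ) := by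
    rw [← v1]
    exact integral_ofReal
  have h1 : ∫ u, (F u - W * ((Real.exp (-((u - u₀) ^ 2 / (4 * t))) : ℝ) : ℂ)) =
      (∫ u, F u) - W * ((Real.sqrt (4 * Real.pi * t) : ℝ) : ℂ) := by
    rw [integral_sub i5 i3, integral_const_mul, v3]
  have h2 : ‖(∫ u, F u) - W * ((Real.sqrt (4 * Real.pi * t) : ℝ) : ℂ)‖ ≤ ‖W‖ * ϑ * (2 * Real.sqrt (4 * Real.pi * t)) := by
    rw [← h1, ← v2, ← integral_const_mul]
    exact norm_integral_le_of_norm_le (i2.const_mul _) (Eventually.of_forall h)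
  have e3 : ((1 / Real.sqrt (4 * Real.pi * t) : ℝ) : ℂ) * (∫ u, F u) - W =
      ((1 / Real.sqrt (4 * Real.pi * t) : ℝ) : ℂ) * ((∫ u, F u) - W * ((Real.sqrt (4 * Real.pi * t) : ℝ) : ℂ)) := by
    have : ((1 / Real.sqrt (4 * Real.pi * t) : ℝ) : ℂ) * (W * ((Real.sqrt (4 * Real.pi * t) : ℝ) : ℂ)) = W := by
      rw [mul_comm W, ← mul_assoc, ← Complex.ofReal_mul, one_div_mul_cancel hs.ne', Complex.ofReal_one, one_mul]
    rw [mul_sub, this]
  rw [e3, norm_mul, Complex.norm_real, Real.norm_of_nonneg (by positivity)]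
  calc 1 / Real.sqrt (4 * Real.pi * t) * ‖(∫ u, F u) - W * ((Real.sqrt (4 * Real.pi * t) : ℝ) : ℂ)‖
      ≤ 1 / Real.sqrt (4 * Real.pi * t) * (‖W‖ * ϑ * (2 * Real.sqrt (4 * Real.pi * t))) := by gcongr
    _ = 2 * ϑ * ‖W‖ := by field_simp

end Pool.Agent.H487.NZ
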