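import Pool.Agent.H487.NZ.XFlat
import Pool.Agent.H487.NZ.Core
import Pool.Agent.H487.NZ.Cont

/-!
# The averages over the right half line at the complex saddle point
-/

set_option autoImplicit false

open MeasureTheory Set Filter Topology Metric
open scoped ComplexConjugate

namespace Pool.Agent.H487.NZ

open NB

/-- the saddle point of the forward flow -/
lemma saddleX {X : ℂ → ℂ} {M ℓ y τ β ε R A : ℝ} (G : HGood X M ℓ y 0 β ε R A) (hτ : 0 < τ) (hℓ : 0 < ℓ)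
    (hε : 0 < ε) (hετ : ε * τ ≤ 1 / 2) {s : ℂ} (hs1 : 1 / 2 + β + ε * τ ≤ s.re + τ)
    (hs2 : s.re + τ ≤ 1 / 2 + R - ε * τ) (hs3 : |s.im - y| + ε * τ ≤ A) :
    ∃ w : ℂ, ‖w - (s + τ)‖ ≤ ε * τ ∧ w - s = 2 * ((τ / (2 * ℓ) : ℝ) : ℂ) * logDeriv X w := by
  set t : ℝ := τ / (2 * ℓ) with ht
  have ht0 : 0 < t := by positivity
  have htℓ : 2 * t * ℓ = τ := by rw [ht]; field_simp
  set S : Set ℂ := closedBall (s + τ) (ε * τ) with hS
  set Φ : ℂ → ℂ := fun z => s + 2 * (t : ℂ) * logDeriv X z with hΦ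
  have hmem : ∀ z ∈ S, 1 / 2 + β ≤ z.re ∧ z.re ≤ 1 / 2 + R ∧ |z.im - y| ≤ A := by
    intro z hz
    have h1 := mem_ball_re hz
    have e1 : (s + (τ : ℂ)).re = s.re + τ := by simp
    have e2 : (s + (τ : ℂ)).im = s.im := by simp
    rw [e1, e2] at h1
    have h2 := abs_le.mp h1.1
    refine ⟨by linarith [h2.1], by linarith [h2.2], ?_⟩
    calc |z.im - y| = |(z.im - s.im) + (s.im - y)| := by ring_nf
      _ ≤ |z.im - s.im| + |s.im - y| := abs_add_le _ _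
      _ ≤ A := by linarith [h1.2]
  have hmap : MapsTo Φ S S := by
    intro z hz
    obtain ⟨h1, h2, h3⟩ := hmem z hz
    rw [hS, mem_closedBall, dist_eq_norm]
    have e : Φ z - (s + τ) = 2 * (t : ℂ) * (logDeriv X z - ℓ) := by
      simp only [hΦ]
      rw [← htℓ]
      push_cast
      ring
    rw [e, norm_mul, norm_mul, Complex.norm_real, Real.norm_of_nonneg ht0.le, Complex.norm_ofNat]
    have h4 := G.lg z h1 h2 h3
    calc 2 * t * ‖logDeriv X z - ℓ‖ ≤ 2 * t * (ε * ℓ) := by gcongr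
      _ = ε * τ := by rw [← htℓ]; ring
  have hlip : ∀ z ∈ S, ∀ w ∈ S, dist (Φ z) (Φ w) ≤ (1 / 2) * dist z w := by
    intro z hz w hw
    obtain ⟨h1, h2, h3⟩ := hmem z hz
    obtain ⟨h4, h5, h6⟩ := hmem w hw
    rw [dist_eq_norm, dist_eq_norm]
    have e : Φ z - Φ w = 2 * (t : ℂ) * (logDeriv X z - logDeriv X w) := by
      simp only [hΦ]
      ring
    rw [e, norm_mul, norm_mul, Complex.norm_real, Real.norm_of_nonneg ht0.le, Complex.norm_ofNat]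
    have h7 := G.lip z w h1 h2 h3 h4 h5 h6
    calc 2 * t * ‖logDeriv X z - logDeriv X w‖ ≤ 2 * t * (ε * ℓ * ‖z - w‖) := by gcongr
      _ = (ε * τ) * ‖z - w‖ := by rw [← htℓ]; ring
      _ ≤ 1 / 2 * ‖z - w‖ := by gcongr
  have hcontr : ContractingWith (1 / 2 : NNReal) (hmap.restrict Φ S S) := by
    refine ⟨by
      have : ((1 / 2 : NNReal) : ℝ) < 1 := by norm_num
      exact_mod_cast this, LipschitzWith.of_dist_le_mul fun x w => ?_⟩
    have := hlip x x.2 w w.2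
    rw [Subtype.dist_eq, Subtype.dist_eq]
    simpa using this
  have hc : s + (τ : ℂ) ∈ S := mem_closedBall_self (by positivity)
  obtain ⟨z, hz, hfix, -⟩ := ContractingWith.exists_fixedPoint' (isClosed_closedBall.isComplete) hmap hcontr hc
    (edist_ne_top _ _)
  refine ⟨z, by rwa [hS, mem_closedBall, dist_eq_norm] at hz, ?_⟩
  have h1 : s + 2 * (t : ℂ) * logDeriv X z = z := hfix
  linear_combination -h1

/-- the situation: zero free to the right of `1/2 + β` near height `y` -/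
structure XC (X : ℂ → ℂ) (a K M ℓ y τ β ε R η T₀ : ℝ) : Prop where
  B : Base X a K M ℓ y
  G : HGood X M ℓ y 0 β ε R 1
  strip : ∀ u v : ℝ, |u| ≤ β → |v| ≤ 1 → ‖X (pt y u v)‖ ≤ M * Real.exp (ℓ * β + 2 * ε * ℓ)
  ha1 : 1 ≤ a
  hη : 0 < η
  hη1 : η ≤ 1
  hητ : η ≤ τ
  hτT : τ ≤ T₀
  hβ : 0 < β
  hβτ : β ≤ τ / 2 - 7 * η / 16
  hβa : β ≤ a + 1
  hR : R = a + T₀ + 2
  hε : 0 < ε
  hε1 : ε ≤ 1
  hεT : ε * (64 * T₀) ≤ 1
  hεT2 : ε * (64 * T₀ ^ 2) ≤ 1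
  hεη : ε * (3 + 4 * T₀) ≤ η / 64
  hℓ : 1 ≤ ℓ
  hℓη : 64 ≤ ℓ * η
  hℓK : 64 * T₀ * (K * (4 + 2 * (a + T₀) ^ 2) + 3) ≤ ℓ
  hℓK2 : 8 * K * T₀ * R ^ 2 ≤ ℓ
  hk1 : (a + 2) * (((2 * a + 4) / η + 2) * ℓ + 1) * Real.exp (-(η * ℓ / 4)) ≤
    Real.sqrt (4 * Real.pi * (τ / (2 * ℓ))) / 16
  hk2 : Real.sqrt (4 * Real.pi * (τ / (2 * ℓ))) ≤ 1
  hk3 : 200 ≤ ℓ * Real.sqrt (4 * Real.pi * (τ / (2 * ℓ)))

/-- the saddle point at `r` -/
structure SP (X : ℂ → ℂ) (M ℓ y τ ε r : ℝ) (w : ℂ) : Prop where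
  near : ‖w - (pt y r 0 + τ)‖ ≤ ε * τ
  eq : w - pt y r 0 = 2 * ((τ / (2 * ℓ) : ℝ) : ℂ) * logDeriv X w

variable {X : ℂ → ℂ} {a K M ℓ y τ β ε R η T₀ r : ℝ} {w : ℂ}

lemma XC.small (C : XC X a K M ℓ y τ β ε R η T₀) : ε * τ ≤ 1 / 64 ∧ ε * τ ≤ η / 64 := by
  have h1 := C.hε
  have h2 := C.hητ
  have h3 := C.hτT
  have h4 := C.hεT
  have h5 := C.hεη
  have h6 := C.hη
  have h7 : ε * τ ≤ ε * T₀ := by gcongr
  constructor
  · linarith
  · have : 0 ≤ ε * T₀ := mul_nonneg h1.le (by linarith)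
    linarith

lemma XC.exists_sp (C : XC X a K M ℓ y τ β ε R η T₀) (h1 : -(η / 16) ≤ r) (h2 : r ≤ a) :
    ∃ w, SP X M ℓ y τ ε r w := by
  obtain ⟨s1, s2⟩ := C.small
  have c1 := C.hη
  have c2 := C.hητ
  have c3 := C.hτT
  have c4 := C.hβτ
  have c5 := C.hR
  have c6 := C.hℓ
  have c7 := C.B.ha
  have hr : |(0 : ℝ)| = 0 := abs_zero
  obtain ⟨w, hw1, hw2⟩ := saddleX C.G (by linarith : 0 < τ) (by linarith) C.hε (by linarith) (s := pt y r 0)
    (by rw [pt_re]; linarith) (by rw [pt_re]; linarith) (by rw [pt_im]; simp; linarith)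
  exact ⟨w, hw1, hw2⟩

lemma SP.pos (S : SP X M ℓ y τ ε r w) : |w.re - (1 / 2 + r + τ)| ≤ ε * τ ∧ |w.im - y| ≤ ε * τ := by
  have h := mem_ball_re (c := pt y r 0 + τ) (w := w) (r := ε * τ) (by rw [mem_closedBall, dist_eq_norm]; exact S.near)
  have e1 : (pt y r 0 + (τ : ℂ)).re = 1 / 2 + r + τ := by simp
  have e2 : (pt y r 0 + (τ : ℂ)).im = y := by simp
  rwa [e1, e2] at h

/-- size at the saddle point -/
lemma size_sp (C : XC X a K M ℓ y τ β ε R η T₀) (S : SP X M ℓ y τ ε r w) (h1 : -(η / 16) ≤ r) (h2 : r ≤ a) :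
    M * Real.exp (ℓ * (r + τ / 2) - ε * (1 + 3 * τ) * ℓ) ≤ ‖X w * gk (τ / (2 * ℓ)) (pt y r 0) w‖ := by
  obtain ⟨s1, s2⟩ := C.small
  have c1 := C.hη
  have c2 := C.hητ
  have c3 := C.hτT
  have c4 := C.hβτ
  have c5 := C.hR
  have c6 := C.hℓ
  have c7 := C.B.ha
  have c8 := C.hε
  have c9 := C.hε1
  have hM := C.B.hM
  have hτ0 : 0 < τ := by linarith
  obtain ⟨p1, p2⟩ := S.pos
  obtain ⟨q1, q2⟩ := abs_le.mp p1
  rw [norm_mul, gk_norm, pt_re, pt_im, add_zero]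
  have hX := C.G.lo (w.re - 1 / 2) (w.im - y) (by linarith) (by linarith) (by linarith)
  rw [← pt_eq] at hX
  refine le_trans ?_ (mul_le_mul_of_nonneg_right hX (Real.exp_pos _).le)
  rw [mul_assoc M, ← Real.exp_add]
  refine mul_le_mul_of_nonneg_left (Real.exp_le_exp.mpr ?_) hM.le
  have e : ((w.re - (1 / 2 + r)) ^ 2 - (w.im - y) ^ 2) / (4 * (τ / (2 * ℓ))) =
      ((w.re - (1 / 2 + r)) ^ 2 - (w.im - y) ^ 2) * (ℓ / (2 * τ)) := by field_simp; ring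
  rw [e]
  have h3 : (w.re - (1 / 2 + r)) ^ 2 ≤ τ ^ 2 * (1 + 3 * ε) := by
    have h4 : w.re - (1 / 2 + r) ≤ τ * (1 + ε) := by linarith
    have h5 : 0 ≤ w.re - (1 / 2 + r) := by linarith
    have h6 := pow_le_pow_left₀ h5 h4 2
    have h7 := mul_nonneg (sq_nonneg τ) (mul_nonneg c8.le (sub_nonneg.mpr c9))
    linarith
  have h7 : ((w.re - (1 / 2 + r)) ^ 2 - (w.im - y) ^ 2) * (ℓ / (2 * τ)) ≤ τ * ℓ / 2 * (1 + 3 * ε) := by
    calc ((w.re - (1 / 2 + r)) ^ 2 - (w.im - y) ^ 2) * (ℓ / (2 * τ)) ≤ (τ ^ 2 * (1 + 3 * ε)) * (ℓ / (2 * τ)) := by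
          refine mul_le_mul_of_nonneg_right ?_ (by positivity)
          linarith [sq_nonneg (w.im - y)]
      _ = _ := by field_simp
  have h8 : ℓ * (r + τ - ε * τ) ≤ ℓ * (w.re - 1 / 2 + 0 / 2) := by
    refine mul_le_mul_of_nonneg_left ?_ (by linarith)
    linarith
  linarith [mul_pos c8 (mul_pos hτ0 (by linarith : 0 < ℓ))]

/-- the elementary estimate in the strip -/
lemma strip_small (C : XC X a K M ℓ y τ β ε R η T₀) (S : SP X M ℓ y τ ε r w) (h1 : -(η / 16) ≤ r) (h2 : r ≤ a)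
    {u v : ℝ} (hu0 : 0 ≤ u) (hu : u ≤ β) (hv : |v| ≤ ε * τ) :
    ‖X (pt y u v) * gk (τ / (2 * ℓ)) (pt y r 0) (pt y u v)‖ ≤
      ‖X w * gk (τ / (2 * ℓ)) (pt y r 0) w‖ * Real.exp (-(η * ℓ / 4)) := by
  obtain ⟨s1, s2⟩ := C.small
  have c1 := C.hη
  have c2 := C.hητ
  have c3 := C.hτT
  have c4 := C.hβτ
  have c6 := C.hℓ
  have c8 := C.hε
  have c9 := C.hε1
  have c10 := C.hεη
  have hM := C.B.hM
  have hτ0 : 0 < τ := by linarith
  refine le_trans ?_ (mul_le_mul_of_nonneg_right (size_sp C S h1 h2) (Real.exp_pos _).le)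
  rw [norm_mul, gk_norm, pt_re, pt_im, pt_re, pt_im, add_zero]
  have hX := C.strip u v (by rw [abs_of_nonneg hu0]; exact hu) (by linarith)
  have e : ((1 / 2 + u - (1 / 2 + r)) ^ 2 - (y + v - y) ^ 2) / (4 * (τ / (2 * ℓ))) =
      ((u - r) ^ 2 - v ^ 2) * (ℓ / (2 * τ)) := by field_simp; ring
  rw [e]
  have h3 : v ^ 2 * (ℓ / (2 * τ)) ≤ ε * τ * ℓ := by
    have h4 : v ^ 2 ≤ (ε * τ) ^ 2 := by rw [← sq_abs]; exact pow_le_pow_left₀ (abs_nonneg _) hv 2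
    calc v ^ 2 * (ℓ / (2 * τ)) ≤ (ε * τ) ^ 2 * (ℓ / (2 * τ)) := by gcongr
      _ = (ε / 2) * (ε * τ * ℓ) := by field_simp
      _ ≤ 1 * (ε * τ * ℓ) := by gcongr; linarith
      _ = _ := one_mul _
  have h5 : 0 ≤ (u - r) ^ 2 * (ℓ / (2 * τ)) := by positivity
  calc ‖X (pt y u v)‖ * Real.exp (-(((u - r) ^ 2 - v ^ 2) * (ℓ / (2 * τ))))
      ≤ (M * Real.exp (ℓ * β + 2 * ε * ℓ)) * Real.exp (ε * τ * ℓ) := by
        refine mul_le_mul hX (Real.exp_le_exp.mpr ?_) (Real.exp_pos _).le (by positivity)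
        linarith
    _ = M * Real.exp (ℓ * β + 2 * ε * ℓ + ε * τ * ℓ) := by rw [Real.exp_add _ (ε * τ * ℓ)]; ring
    _ ≤ M * Real.exp (ℓ * (r + τ / 2) - ε * (1 + 3 * τ) * ℓ + -(η * ℓ / 4)) := by
        refine mul_le_mul_of_nonneg_left (Real.exp_le_exp.mpr ?_) hM.le
        have h6 : ε * (3 + 4 * τ) ≤ η / 64 := by
          refine le_trans ?_ c10
          gcongr
        have h7 : β + ε * (3 + 4 * τ) + η / 4 ≤ r + τ / 2 := by linarith
        linarith [mul_le_mul_of_nonneg_left h7 (by linarith : (0:ℝ) ≤ ℓ)]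
    _ = _ := by rw [Real.exp_add _ (-(η * ℓ / 4))]; ring

lemma exp_neg_four : Real.exp (-4 : ℝ) ≤ 1 / 16 := by
  have h1 : (2 : ℝ) ≤ Real.exp 1 := by
    have := Real.add_one_le_exp (1 : ℝ); linarith
  have h2 : Real.exp (4 : ℝ) = Real.exp 1 ^ 4 := by rw [← Real.exp_nat_mul]; norm_num
  have h3 : (16 : ℝ) ≤ Real.exp 4 := by
    rw [h2]
    calc (16 : ℝ) = 2 ^ 4 := by norm_num
      _ ≤ Real.exp 1 ^ 4 := by gcongr
  rw [Real.exp_neg, ← one_div]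
  exact one_div_le_one_div_of_le (by norm_num) h3

/-- the real inequality far to the right -/
lemma ineq_far {q x u v' a T₀ τ ℓ K ε : ℝ} (hτ0 : 0 < τ) (c3 : τ ≤ T₀) (hK : 1 ≤ K) (hε : 0 < ε) (hℓ : 1 ≤ ℓ) (ha : 0 < a)
    (hq2 : 2 ≤ q) (hxx : x ^ 2 ≤ 2 * q ^ 2) (hu : u = v' + q) (hv0 : 0 ≤ u) (hv' : v' ≤ a + T₀)
    (hε1 : ε * (64 * T₀) ≤ 1) (hε2 : ε * (64 * T₀ ^ 2) ≤ 1)
    (h5 : 64 * T₀ * (K * (4 + 2 * (a + T₀) ^ 2) + 3) ≤ ℓ) :
    K * (2 + u ^ 2) + ε * τ * ℓ + ε * (1 + 3 * τ) * ℓ + 4 + x ^ 2 * (ℓ / (8 * τ)) ≤ q ^ 2 * (ℓ / (2 * τ)) := by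
  have hT0 : 0 < T₀ := by linarith
  have k2 : x ^ 2 * (ℓ / (8 * τ)) ≤ q ^ 2 * (ℓ / (4 * τ)) := by
    calc x ^ 2 * (ℓ / (8 * τ)) ≤ (2 * q ^ 2) * (ℓ / (8 * τ)) := by gcongr
      _ = _ := by field_simp; ring
  have k3 : q ^ 2 * (ℓ / (4 * T₀)) ≤ q ^ 2 * (ℓ / (4 * τ)) := by gcongr
  have k4 : q ^ 2 * (ℓ / (2 * τ)) = q ^ 2 * (ℓ / (4 * τ)) + q ^ 2 * (ℓ / (4 * τ)) := by field_simp; ring
  have hq4 : 4 ≤ q ^ 2 := by linarith [sq_nonneg (q - 2)]
  have k5 : K * (2 + u ^ 2) + 3 ≤ q ^ 2 * (ℓ / (64 * T₀)) := by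
    have h3 : u ^ 2 ≤ 2 * q ^ 2 + 2 * (a + T₀) ^ 2 := by
      have h4 : u ≤ q + (a + T₀) := by linarith
      have h6 := pow_le_pow_left₀ hv0 h4 2
      linarith [sq_nonneg (q - (a + T₀))]
    have h4 : K * (2 + u ^ 2) + 3 ≤ (K * (4 + 2 * (a + T₀) ^ 2) + 3) * q ^ 2 := by
      have h5 : K * (2 + u ^ 2) ≤ K * (2 + (2 * q ^ 2 + 2 * (a + T₀) ^ 2)) := by gcongr
      have h7 : 0 ≤ K * (a + T₀) ^ 2 := by positivity
      have h8 : 0 ≤ K * (a + T₀) ^ 2 * (q ^ 2 - 1) := mul_nonneg h7 (by linarith)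
      have h9 : 0 ≤ K * (q ^ 2 - 1) := mul_nonneg (by linarith) (by linarith)
      linarith
    refine h4.trans ?_
    rw [mul_comm]
    refine mul_le_mul_of_nonneg_left ?_ (sq_nonneg q)
    rw [le_div_iff₀ (by positivity)]
    linarith
  have k6 : ε * (1 + 3 * τ) * ℓ + ε * τ * ℓ + 1 ≤ q ^ 2 * (ℓ / (8 * T₀)) := by
    have h4 : 4 * (ℓ / (8 * T₀)) ≤ q ^ 2 * (ℓ / (8 * T₀)) := by gcongr
    refine le_trans ?_ h4
    have e : 4 * (ℓ / (8 * T₀)) = ℓ / (2 * T₀) := by field_simp; ring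
    rw [e, le_div_iff₀ (by positivity)]
    have h7 : ε * τ * T₀ ≤ ε * T₀ ^ 2 := by
      have : ε * τ * T₀ ≤ ε * T₀ * T₀ := by gcongr
      linarith
    have h8 : ε * (1 + 3 * τ) * ℓ + ε * τ * ℓ + 1 = ℓ * (ε + 4 * (ε * τ)) + 1 := by ring
    rw [h8]
    have h9 : (ε + 4 * (ε * τ)) * (2 * T₀) ≤ 1 / 4 := by linarith
    have h10 : ℓ * ((ε + 4 * (ε * τ)) * (2 * T₀)) ≤ ℓ * (1 / 4) := mul_le_mul_of_nonneg_left h9 (by linarith)
    have h11 : 4 * T₀ ≤ ℓ := by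
      have h12 : 0 ≤ T₀ * (K * (4 + 2 * (a + T₀) ^ 2)) := by positivity
      linarith
    linarith
  have k7 : q ^ 2 * (ℓ / (64 * T₀)) + q ^ 2 * (ℓ / (8 * T₀)) ≤ q ^ 2 * (ℓ / (4 * T₀)) := by
    rw [← mul_add]
    refine mul_le_mul_of_nonneg_left ?_ (sq_nonneg q)
    have e : ℓ / (64 * T₀) + ℓ / (8 * T₀) = ℓ * (9 / 64) / T₀ := by field_simp; ring
    have e2 : ℓ / (4 * T₀) = ℓ * (1 / 4) / T₀ := by field_simp
    rw [e, e2]
    exact div_le_div_of_nonneg_right (by linarith) hT0.le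
  linarith

/-- the pointwise estimate to the right of `1/2 + β` -/
lemma right_pt (C : XC X a K M ℓ y τ β ε R η T₀) (S : SP X M ℓ y τ ε r w) (h1 : -(η / 16) ≤ r) (h2 : r ≤ a)
    {x : ℝ} (hx : 1 / 2 + β ≤ w.re + x) :
    ‖X (w + x) * gk (τ / (2 * ℓ)) (pt y r 0) (w + x) -
      (X w * gk (τ / (2 * ℓ)) (pt y r 0) w) * ((Real.exp (-(x ^ 2 / (4 * (τ / (2 * ℓ))))) : ℝ) : ℂ)‖ ≤
      ‖X w * gk (τ / (2 * ℓ)) (pt y r 0) w‖ * (1 / 8) * Real.exp (-(x ^ 2 / (16 * (τ / (2 * ℓ))))) := by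
  obtain ⟨s1, s2⟩ := C.small
  have c1 := C.hη
  have c2 := C.hητ
  have c3 := C.hτT
  have c4 := C.hβτ
  have c5 := C.hR
  have c6 := C.hℓ
  have c7 := C.B.ha
  have c8 := C.hε
  have c9 := C.hε1
  have hM := C.B.hM
  have hK := C.B.hK
  have hτ0 : 0 < τ := by linarith
  have hT0 : 0 < T₀ := by linarith
  obtain ⟨p1, p2⟩ := S.pos
  obtain ⟨q1, q2⟩ := abs_le.mp p1
  set t : ℝ := τ / (2 * ℓ) with ht
  have ht0 : 0 < t := by positivity
  have htℓ : 2 * t * ℓ = τ := by rw [ht]; field_simp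
  have ht' : (t : ℂ) ≠ 0 := by exact_mod_cast ht0.ne'
  set s : ℂ := pt y r 0 with hs
  set G : ℂ := logDeriv X w with hG
  have hws : w - s = 2 * (t : ℂ) * G := S.eq
  set W : ℂ := X w * gk t s w with hW
  have hgw : gk t s w = Complex.exp (-(t * G ^ 2)) := by
    unfold gk
    rw [hws]
    congr 1
    field_simp
    ring
  have hgx : ∀ x : ℝ, gk t s (w + x) = Complex.exp (-(t * G ^ 2)) * (Complex.exp (-(x * G)) * ((Real.exp (-(x ^ 2 / (4 * t))) : ℝ) : ℂ)) := by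
    intro x
    unfold gk
    rw [Complex.ofReal_exp, ← Complex.exp_add, ← Complex.exp_add]
    have e : w + x - s = 2 * (t : ℂ) * G + x := by rw [← hws]; ring
    rw [e]
    congr 1
    push_cast
    field_simp
    ring
  rcases le_or_gt (w.re + x) (1 / 2 + R) with hxR | hxR
  · -- the main part
    set f : ℝ → ℂ := fun x => X (w + x) * Complex.exp (-(x * G)) with hf
    set g : ℝ → ℂ := fun x => logDeriv X (w + x) - G with hg
    set I : Set ℝ := Icc (1 / 2 + β - w.re) (1 / 2 + R - w.re) with hI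
    have hpre : ∀ v : ℝ, (w + (v : ℂ)).re = w.re + v := fun v => by simp
    have hpim : ∀ v : ℝ, (w + (v : ℂ)).im = w.im := fun v => by simp
    have hmem : ∀ v ∈ I, 1 / 2 + β ≤ (w + (v : ℂ)).re ∧ (w + (v : ℂ)).re ≤ 1 / 2 + R ∧ |(w + (v : ℂ)).im - y| ≤ 1 := by
      intro v hv
      rw [hpre, hpim]
      exact ⟨by linarith [hv.1], by linarith [hv.2], by linarith⟩
    have hder : ∀ v ∈ I, HasDerivAt f (f v * g v) v := by
      intro v hv
      obtain ⟨m1, m2, m3⟩ := hmem v hv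
      have hne : X (w + v) ≠ 0 := C.G.ne _ m1 m2 m3
      have h3 : HasDerivAt (fun x : ℝ => w + (x : ℂ)) 1 v := by
        simpa using (Complex.ofRealCLM.hasDerivAt (x := v)).const_add w
      have h4 := (C.G.diff (w + v)).hasDerivAt.scomp v h3
      have h5 : HasDerivAt (fun x : ℝ => -((x : ℂ) * G)) (-G) v := by
        have h6 := ((Complex.ofRealCLM.hasDerivAt (x := v)).mul_const G).neg
        refine (h6.congr_deriv ?_)
        simp
      have h7 := h4.mul h5.cexp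
      refine h7.congr_deriv ?_
      simp only [Function.comp_apply, smul_eq_mul, hf, hg, logDeriv_apply, one_mul]
      field_simp
      ring
    have hlip : ∀ u ∈ I, ∀ v ∈ I, ‖g u - g v‖ ≤ ε * ℓ * |u - v| := by
      intro u hu v hv
      obtain ⟨m1, m2, m3⟩ := hmem u hu
      obtain ⟨n1, n2, n3⟩ := hmem v hv
      have h3 := C.G.lip (w + u) (w + v) m1 m2 m3 n1 n2 n3
      have e : g u - g v = logDeriv X (w + u) - logDeriv X (w + v) := by
        simp only [hg]; ring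
      rw [e]
      refine h3.trans (le_of_eq ?_)
      congr 1
      have e3 : w + (u : ℂ) - (w + v) = ((u - v : ℝ) : ℂ) := by push_cast; ring
      rw [e3, Complex.norm_real, Real.norm_eq_abs]
    have hg0 : g 0 = 0 := by simp [hg, hG]
    have hf0 : f 0 = X w := by simp [hf]
    have h0mem : (0 : ℝ) ∈ I := ⟨by linarith, by linarith⟩
    have hxI : x ∈ I := ⟨by linarith, by linarith⟩
    have hκt : 16 * (ε * ℓ) * t ≤ 1 / 8 := by
      have : 16 * (ε * ℓ) * t = 8 * ε * τ := by rw [← htℓ]; ring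
      rw [this]
      linarith
    have h3 := rl (convex_Icc _ _) (by positivity) ht0 (le_refl (0 : ℝ)) (κ := ε * ℓ) (X := 0) (by
        have : 32 * (ε * ℓ) * t = 2 * (16 * (ε * ℓ) * t) := by ring
        rw [this]; linarith) hder hlip h0mem hxI (by rw [hg0]; simp)
    have e5 : ((Real.exp (-(((0 : ℝ) - 0) ^ 2 / (4 * t))) : ℝ) : ℂ) = 1 := by simp
    have e6 : Real.exp (-(((0 : ℝ) - 0) ^ 2 / (4 * t))) = 1 := by simp
    rw [e5, e6, hf0, mul_one, mul_one, sub_zero] at h3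
    have h4 : thet t 0 (ε * ℓ) ≤ 1 / 8 := by
      unfold thet
      rw [mul_zero, zero_add]
      simp only [ne_eq, OfNat.ofNat_ne_zero, not_false_eq_true, zero_pow, mul_zero, Real.exp_zero, one_mul]
      linarith
    have e7 : X (w + x) * gk t s (w + x) - W * ((Real.exp (-(x ^ 2 / (4 * t))) : ℝ) : ℂ) =
        Complex.exp (-(t * G ^ 2)) * (f x * ((Real.exp (-(x ^ 2 / (4 * t))) : ℝ) : ℂ) - X w * ((Real.exp (-(x ^ 2 / (4 * t))) : ℝ) : ℂ)) := by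
      rw [hgx, hW, hgw]
      simp only [hf]
      ring
    have e8 : ‖W‖ = ‖Complex.exp (-(t * G ^ 2))‖ * ‖X w‖ := by rw [hW, hgw, norm_mul, mul_comm]
    rw [e7, norm_mul, e8]
    calc ‖Complex.exp (-(t * G ^ 2))‖ * ‖f x * ((Real.exp (-(x ^ 2 / (4 * t))) : ℝ) : ℂ) - X w * ((Real.exp (-(x ^ 2 / (4 * t))) : ℝ) : ℂ)‖
        ≤ ‖Complex.exp (-(t * G ^ 2))‖ * (‖X w‖ * thet t 0 (ε * ℓ) * Real.exp (-(x ^ 2 / (16 * t)))) := by gcongr
      _ ≤ ‖Complex.exp (-(t * G ^ 2))‖ * (‖X w‖ * (1 / 8) * Real.exp (-(x ^ 2 / (16 * t)))) := by gcongr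
      _ = _ := by ring
  · -- far to the right
    set u : ℝ := w.re + x - 1 / 2 with hu
    set v : ℝ := w.im - y with hv
    have hwx : w + (x : ℂ) = pt y u v := by
      apply Complex.ext
      · simp only [pt_re, hu, Complex.add_re, Complex.ofReal_re]; ring
      · simp only [pt_im, hv, Complex.add_im, Complex.ofReal_im]; ring
    set q : ℝ := u - r - τ with hq
    have hq2 : 2 ≤ q := by rw [hq, hu]; linarith
    have hxq : |x - q| ≤ 1 / 64 := by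
      have : x - q = -(w.re - (1 / 2 + r + τ)) := by rw [hq, hu]; ring
      rw [this, abs_neg]
      linarith
    obtain ⟨x1, x2⟩ := abs_le.mp hxq
    have hv1 : v ^ 2 ≤ (ε * τ) ^ 2 := by rw [← sq_abs v]; exact pow_le_pow_left₀ (abs_nonneg _) p2 2
    have hv2 : v ^ 2 ≤ 1 := by
      have : (ε * τ) ^ 2 ≤ 1 := by
        have : 0 ≤ ε * τ := by positivity
        exact pow_le_one₀ this (by linarith)
      linarith
    have hXb : ‖X (pt y u v)‖ ≤ M * Real.exp (ℓ * u + K * (2 + u ^ 2)) := by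
      have h3 := C.B.up u v
      have hmax : max |u| a = u := by
        rw [abs_of_nonneg (by linarith)]
        exact max_eq_left (by linarith)
      rw [hmax] at h3
      refine h3.trans (mul_le_mul_of_nonneg_left (Real.exp_le_exp.mpr ?_) hM.le)
      have : K * (1 + u ^ 2 + v ^ 2) ≤ K * (2 + u ^ 2) := by
        refine mul_le_mul_of_nonneg_left ?_ (by linarith)
        linarith
      linarith
    have hgb : ‖gk t s (pt y u v)‖ ≤ Real.exp (-((u - r) ^ 2 * (ℓ / (2 * τ))) + ε * τ * ℓ) := by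
      rw [gk_norm, hs, pt_re, pt_im, pt_re, pt_im, add_zero]
      apply Real.exp_le_exp.mpr
      have e : ((1 / 2 + u - (1 / 2 + r)) ^ 2 - (y + v - y) ^ 2) / (4 * t) =
          ((u - r) ^ 2 - v ^ 2) * (ℓ / (2 * τ)) := by rw [ht]; field_simp; ring
      rw [e]
      have h3 : v ^ 2 * (ℓ / (2 * τ)) ≤ ε * τ * ℓ := by
        calc v ^ 2 * (ℓ / (2 * τ)) ≤ (ε * τ) ^ 2 * (ℓ / (2 * τ)) := by gcongr
          _ = (ε / 2) * (ε * τ * ℓ) := by field_simp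
          _ ≤ 1 * (ε * τ * ℓ) := by gcongr; linarith
          _ = _ := one_mul _
      linarith
    have hsz := size_sp C S h1 h2
    rw [← ht, ← hs, ← hW] at hsz
    have hxx : x ^ 2 ≤ 2 * q ^ 2 := by
      have g1 := pow_le_pow_left₀ (by linarith : 0 ≤ x) (by linarith : x ≤ q + 1 / 64) 2
      have g2 := mul_nonneg (by linarith : 0 ≤ q - 2) (by linarith : 0 ≤ q)
      linarith
    have hx1 : 1 ≤ x := by linarith
    have hTl : 192 * T₀ ≤ ℓ := by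
      have h3 := C.hℓK
      have h4 : 0 ≤ K * (4 + 2 * (a + T₀) ^ 2) := by positivity
      have h5 : 0 ≤ T₀ * (K * (4 + 2 * (a + T₀) ^ 2)) := mul_nonneg hT0.le h4
      linarith
    have e16 : x ^ 2 / (16 * t) = x ^ 2 * (ℓ / (8 * τ)) := by rw [ht]; field_simp; ring
    have e4 : x ^ 2 / (4 * t) = x ^ 2 * (ℓ / (2 * τ)) := by rw [ht]; field_simp; ring
    have b1 : ‖X (w + x) * gk t s (w + x)‖ ≤ ‖W‖ * (1 / 16) * Real.exp (-(x ^ 2 / (16 * t))) := by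
      rw [hwx, norm_mul]
      calc ‖X (pt y u v)‖ * ‖gk t s (pt y u v)‖
          ≤ (M * Real.exp (ℓ * u + K * (2 + u ^ 2))) * Real.exp (-((u - r) ^ 2 * (ℓ / (2 * τ))) + ε * τ * ℓ) := by gcongr
        _ = M * Real.exp (ℓ * u + K * (2 + u ^ 2) + (-((u - r) ^ 2 * (ℓ / (2 * τ))) + ε * τ * ℓ)) := by rw [mul_assoc, ← Real.exp_add]
        _ ≤ M * Real.exp (ℓ * (r + τ / 2) - ε * (1 + 3 * τ) * ℓ + -4 + -(x ^ 2 / (16 * t))) := by
            refine mul_le_mul_of_nonneg_left (Real.exp_le_exp.mpr ?_) hM.le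
            have k1 : ℓ * u - (u - r) ^ 2 * (ℓ / (2 * τ)) = ℓ * (r + τ / 2) - q ^ 2 * (ℓ / (2 * τ)) := by
              have : u = r + τ + q := by rw [hq]; ring
              rw [this]
              field_simp
              ring
            have k2 := ineq_far (u := u) (v' := r + τ) hτ0 c3 hK c8 c6 c7 hq2 hxx (by rw [hq]; ring) (by rw [hu]; linarith)
              (by linarith) C.hεT C.hεT2 C.hℓK
            rw [e16]
            linarith
        _ = (M * Real.exp (ℓ * (r + τ / 2) - ε * (1 + 3 * τ) * ℓ)) * Real.exp (-4) * Real.exp (-(x ^ 2 / (16 * t))) := by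
            rw [Real.exp_add _ (-(x ^ 2 / (16 * t))), Real.exp_add _ (-4)]; ring
        _ ≤ _ := by
            have := exp_neg_four
            gcongr
    have b2 : ‖W * ((Real.exp (-(x ^ 2 / (4 * t))) : ℝ) : ℂ)‖ ≤ ‖W‖ * (1 / 16) * Real.exp (-(x ^ 2 / (16 * t))) := by
      rw [norm_mul, Complex.norm_real, Real.norm_of_nonneg (Real.exp_pos _).le, mul_assoc]
      refine mul_le_mul_of_nonneg_left ?_ (norm_nonneg _)
      refine le_trans ?_ (mul_le_mul_of_nonneg_right exp_neg_four (Real.exp_pos _).le)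
      rw [← Real.exp_add]
      apply Real.exp_le_exp.mpr
      rw [e4, e16]
      have h3 : 4 ≤ x ^ 2 * (ℓ / (4 * τ)) := by
        have h4 : 1 ≤ x ^ 2 := one_le_pow₀ hx1
        have h5 : 1 * (ℓ / (4 * τ)) ≤ x ^ 2 * (ℓ / (4 * τ)) := by gcongr
        refine le_trans ?_ h5
        rw [one_mul, le_div_iff₀ (by positivity)]
        linarith
      have h4 : x ^ 2 * (ℓ / (2 * τ)) = x ^ 2 * (ℓ / (4 * τ)) + 2 * (x ^ 2 * (ℓ / (8 * τ))) := by field_simp; ring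
      have h5 : 0 ≤ x ^ 2 * (ℓ / (8 * τ)) := by positivity
      linarith
    refine (norm_sub_le _ _).trans ((add_le_add b1 b2).trans (le_of_eq ?_))
    ring

/-- the Gaussian to the left is negligible -/
lemma left_pt (C : XC X a K M ℓ y τ β ε R η T₀) (S : SP X M ℓ y τ ε r w) (h1 : -(η / 16) ≤ r)
    {x : ℝ} (hx : w.re + x ≤ 1 / 2 + β) :
    Real.exp (-(x ^ 2 / (4 * (τ / (2 * ℓ))))) ≤ (1 / 8) * Real.exp (-(x ^ 2 / (16 * (τ / (2 * ℓ))))) := by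
  obtain ⟨s1, s2⟩ := C.small
  have c1 := C.hη
  have c2 := C.hητ
  have c4 := C.hβτ
  have c6 := C.hℓ
  have c10 := C.hℓη
  have hτ0 : 0 < τ := by linarith
  obtain ⟨p1, p2⟩ := S.pos
  obtain ⟨q1, q2⟩ := abs_le.mp p1
  have hx2 : x ≤ -(τ / 2) := by linarith
  have hxx : (τ / 2) ^ 2 ≤ x ^ 2 := by
    have g1 := mul_nonneg (by linarith : 0 ≤ -x - τ / 2) (by linarith : 0 ≤ -x + τ / 2)
    linarith
  refine le_trans ?_ (mul_le_mul_of_nonneg_right exp_neg_three (Real.exp_pos _).le)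
  rw [← Real.exp_add]
  apply Real.exp_le_exp.mpr
  have e4 : x ^ 2 / (4 * (τ / (2 * ℓ))) = x ^ 2 * (ℓ / (2 * τ)) := by field_simp; ring
  have e16 : x ^ 2 / (16 * (τ / (2 * ℓ))) = x ^ 2 * (ℓ / (8 * τ)) := by field_simp; ring
  rw [e4, e16]
  have h3 : 4 ≤ x ^ 2 * (ℓ / (4 * τ)) := by
    have h4 : (τ / 2) ^ 2 * (ℓ / (4 * τ)) ≤ x ^ 2 * (ℓ / (4 * τ)) := by gcongr
    refine le_trans ?_ h4
    have e : (τ / 2) ^ 2 * (ℓ / (4 * τ)) = τ * ℓ / 16 := by field_simp; ring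
    rw [e]
    have g1 := mul_le_mul_of_nonneg_left c2 (by linarith : 0 ≤ ℓ)
    linarith
  have h4 : x ^ 2 * (ℓ / (2 * τ)) = x ^ 2 * (ℓ / (4 * τ)) + 2 * (x ^ 2 * (ℓ / (8 * τ))) := by field_simp; ring
  have h5 : 0 ≤ x ^ 2 * (ℓ / (8 * τ)) := by positivity
  linarith

end Pool.Agent.H487.NZ
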