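import Pool.Agent.H487.NZ.XFinal
import Pool.Agent.H487.NZ.Prod

/-!
# Zero free half planes and the heat flow, for L-functions
-/

set_option autoImplicit false

open Filter Topology Set
open scoped ComplexConjugate

namespace Pool.Agent.H487.NZ

open NB H353.E H353.F Complex

lemma pt_line (s : ℂ) : s = 1 / 2 + (s.im : ℂ) * I + ((s.re - 1 / 2 : ℝ) : ℂ) := by
  apply Complex.ext <;> simp

/-- zeros of the completed function and of the flow are in a strip -/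
lemma datum_strip {m : ℕ} (hm : 1 ≤ m) {θ : ℝ} (hθ0 : 0 ≤ θ) (hθ1 : θ ≤ 1 / 2) {N : ℝ} {μ : Fin m → ℂ}
    {α : Fin m → ℕ → ℂ} {ε : ℂ} {Λ : ℂ → ℂ} (d : DatumT θ N μ α ε Λ) {t : ℝ} (ht : 0 ≤ t) {s : ℂ}
    (hs : flow t (xi N Λ) s = 0) : |s.re - 1 / 2| ≤ 3 / 2 := by
  have C1 := (datum_cl hm hθ0 hθ1 d).flow ht
  obtain ⟨ε', hfe⟩ := C1.fe
  have h1 := C1.zer s hs
  have h2 : flow t (xi N Λ) (1 - conj s) = 0 := by
    rw [hfe]
    have : 1 - conj (1 - conj s) = s := by simp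
    rw [this, hs, map_zero, mul_zero]
  have h3 := C1.zer _ h2
  have h4 : (1 - conj s).re = 1 - s.re := by simp
  rw [h4] at h3
  rw [abs_le]
  constructor <;> linarith

/-- **converse law** -/
theorem datum_conv (m : ℕ) (hm : 1 ≤ m) {θ : ℝ} (hθ0 : 0 ≤ θ) (hθ1 : θ ≤ 1 / 2) {η : ℝ} (hη : 0 < η) :
    ∃ A t₁ : ℝ, 0 < A ∧ 0 < t₁ ∧
      ∀ (N : ℝ) (μ : Fin m → ℂ) (α : Fin m → ℕ → ℂ) (ε : ℂ) (Λ : ℂ → ℂ), DatumT θ N μ α ε Λ →
      ∀ y t b : ℝ, 0 < t → t ≤ t₁ → 0 ≤ b → 2 * b + η ≤ t * Real.log (NB.cond N μ y) →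
      (∀ z : ℂ, 1 / 2 + b < z.re → |z.im - y| ≤ A → xi N Λ z ≠ 0) →
      ∀ s : ℂ, s.im = y → flow t (xi N Λ) s = 0 → s.re = 1 / 2 ∧ deriv (flow t (xi N Λ)) s ≠ 0 := by
  obtain ⟨K, HK⟩ := datum_base m hm hθ0 hθ1
  obtain ⟨A, ℓ₀, hA, hℓ₀, H5⟩ := x5 2 K 5 (min η 1) (by norm_num) (lt_min hη one_pos)
  obtain ⟨t₂, ht₂, H0⟩ := datum_heat m hm hθ0 hθ1 (η := 1) one_pos
  have hη' : 0 < min η 1 := lt_min hη one_pos
  refine ⟨A + 1, min t₂ (min η 1 / (2 * ℓ₀)), by linarith, by positivity, fun N μ α ε Λ d y t b ht ht1 hb hbt hz s hsy hs => ?_⟩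
  have C0 := datum_cl hm hθ0 hθ1 d
  have B := HK N μ α ε Λ d y
  set L : ℝ := Real.log (NB.cond N μ y) with hL
  have htt : t ≤ t₂ := ht1.trans (min_le_left _ _)
  have htℓ : t * (2 * ℓ₀) ≤ min η 1 := by
    have := ht1.trans (min_le_right _ _)
    rwa [le_div_iff₀ (by linarith)] at this
  have hLℓ : 2 * ℓ₀ ≤ L := by
    have h1 : t * (2 * ℓ₀) ≤ t * L := by linarith [min_le_left η 1]
    exact le_of_mul_le_mul_left h1 ht
  have hL0 : 0 < L := by linarith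
  rcases le_total (t * L) 5 with h5 | h5
  · have hηη : min η 1 ≤ η := min_le_left _ _
    have hne : ∀ z : ℂ, 1 / 2 + min b 2 < z.re → |z.im - y| ≤ A → xi N Λ z ≠ 0 := by
      intro z h1 h2
      rcases le_total b 2 with h | h
      · rw [min_eq_left h] at h1
        exact hz z h1 (by linarith)
      · rw [min_eq_right h] at h1
        exact B.ne (by linarith)
    have hmb := min_le_left b 2
    have key := H5 (xi N Λ) (Mb N μ y) (1 / 2 * L) y B (by linarith) (t * L) (min b 2) h5 (by positivity) (min_le_right _ _)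
      (by linarith) hne (s.re - 1 / 2) (by linarith [datum_strip hm hθ0 hθ1 d ht.le hs])
    have et : t * L / (2 * (1 / 2 * L)) = t := by field_simp
    rw [et, heat_eq_flow C0.diff C0.type0 ht] at key
    have es : 1 / 2 + (y : ℂ) * I + ((s.re - 1 / 2 : ℝ) : ℂ) = s := by rw [← hsy]; exact (pt_line s).symm
    rw [es] at key
    obtain ⟨k1, k2⟩ := key hs
    have k3 : s.re = 1 / 2 := by linarith
    refine ⟨k3, ?_⟩
    have es2 : 1 / 2 + (y : ℂ) * I = s := by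
      rw [← hsy]
      apply Complex.ext <;> simp [k3]
    rwa [es2] at k2
  · have h1 := H0 N μ α ε Λ d t ht htt s (by rw [hsy, ← hL]; linarith)
    rw [heat_eq_flow C0.diff C0.type0 ht] at h1
    exact h1 hs

/-- **direct law** -/
theorem datum_dirc (m : ℕ) (hm : 1 ≤ m) {θ : ℝ} (hθ0 : 0 ≤ θ) (hθ1 : θ ≤ 1 / 2) {η : ℝ} (hη : 0 < η) :
    ∃ A C₀ : ℝ, 0 < A ∧ 1 < C₀ ∧
      ∀ (N : ℝ) (μ : Fin m → ℂ) (α : Fin m → ℕ → ℂ) (ε : ℂ) (Λ : ℂ → ℂ), DatumT θ N μ α ε Λ →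
      ∀ y t : ℝ, C₀ ≤ NB.cond N μ y → η ≤ t * Real.log (NB.cond N μ y) →
      (∀ s : ℂ, |s.im - y| ≤ A → flow t (xi N Λ) s = 0 → s.re = 1 / 2) →
      ∀ s : ℂ, s.im = y → xi N Λ s = 0 → |s.re - 1 / 2| ≤ t * Real.log (NB.cond N μ y) + η := by
  obtain ⟨A, Q₀, hA, hQ₀, H⟩ := datum_local m hm hθ0 hθ1 hη 2 hη
  refine ⟨A + 1, Q₀, by linarith, hQ₀, fun N μ α ε Λ d y t hC ht hz s hsy hs => ?_⟩
  rcases le_total (t * Real.log (NB.cond N μ y)) 2 with h | h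
  · exact H N μ α ε Λ d y t hC ht h (fun z h1 h2 => hz z (by linarith) h2) s hsy hs
  · have h1 := datum_strip hm hθ0 hθ1 d le_rfl (s := s) (by rw [flow_zero]; exact hs)
    linarith

end Pool.Agent.H487.NZ
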