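import Pool.Agent.H487.NZ.HSize

/-!
# The same for the function itself, in a zero free half plane
-/

set_option autoImplicit false

open MeasureTheory Set Filter Topology Metric
open scoped ComplexConjugate

namespace Pool.Agent.H487.NZ

open NB

/-- from the logarithmic derivative to `HGood` -/
theorem good_of {H : ℂ → ℂ} (hHd : Differentiable ℂ H) {M ℓ y τ δ r ε ε' R A : ℝ} (hM : 0 < M) (hℓ : 0 < ℓ)
    (hr : 0 < r) (hr1 : r ≤ 1) (hδR : δ ≤ R) (hδ0 : 0 ≤ δ) (hε' : 0 < ε')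
    (hε1 : ε' * (2 * (R + 1)) ≤ ε) (hε2 : ε' / r ≤ ε)
    (hne : ∀ z : ℂ, 1 / 2 + δ - r ≤ z.re → |z.im - y| ≤ A + 1 → H z ≠ 0)
    (HL : ∀ z : ℂ, 1 / 2 + δ - r ≤ z.re → z.re ≤ 1 / 2 + R + 1 → |z.im - y| ≤ A + 1 → ‖logDeriv H z - ℓ‖ ≤ ε' * ℓ)
    (hright : ∀ v : ℝ, |v| ≤ A → M * Real.exp (ℓ * (R + τ / 2) - ε / 2 * ℓ) ≤ ‖H (pt y R v)‖ ∧
      ‖H (pt y R v)‖ ≤ M * Real.exp (ℓ * (R + τ / 2) + ε / 2 * ℓ)) :
    HGood H M ℓ y τ δ ε R A := by
  have hR0 : 0 ≤ R := hδ0.trans hδR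
  have hεε : ε' ≤ ε := by nlinarith
  have hLd : ∀ z : ℂ, 1 / 2 + δ - r ≤ z.re → |z.im - y| ≤ A + 1 → DifferentiableAt ℂ (logDeriv H) z := fun z h5 h6 =>
    ((hHd.analyticAt z).deriv.div (hHd.analyticAt z) (hne z h5 h6)).differentiableAt
  have hder : ∀ z : ℂ, 1 / 2 + δ ≤ z.re → z.re ≤ 1 / 2 + R → |z.im - y| ≤ A → ‖deriv (logDeriv H) z‖ ≤ ε * ℓ := by
    intro z z1 z2 z3
    have hball : ∀ w ∈ closedBall z r, 1 / 2 + δ - r ≤ w.re ∧ w.re ≤ 1 / 2 + R + 1 ∧ |w.im - y| ≤ A + 1 := by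
      intro w hw
      obtain ⟨h4, h5⟩ := mem_ball_re hw
      obtain ⟨h6, h7⟩ := abs_le.mp h4
      refine ⟨by linarith, by linarith, ?_⟩
      have := abs_add_le (w.im - z.im) (z.im - y)
      rw [sub_add_sub_cancel] at this
      linarith
    have h5 := Complex.norm_deriv_le_of_forall_mem_sphere_norm_le (c := z) (R := r) (C := ε' * ℓ)
      (f := fun w => logDeriv H w - ℓ) hr
      ⟨fun w hw => ((hLd w (hball w (ball_subset_closedBall hw)).1 (hball w (ball_subset_closedBall hw)).2.2).sub_const _).differentiableWithinAt,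
       fun w hw => ((hLd w (hball w (closure_ball_subset_closedBall hw)).1 (hball w (closure_ball_subset_closedBall hw)).2.2).sub_const _).continuousAt.continuousWithinAt⟩
      (fun w hw => by
        obtain ⟨h5, h6, h7⟩ := hball w (sphere_subset_closedBall hw)
        exact HL w h5 h6 h7)
    rw [deriv_sub_const] at h5
    refine h5.trans ?_
    rw [mul_div_right_comm]
    exact mul_le_mul_of_nonneg_right hε2 hℓ.le
  have hlip : ∀ z w : ℂ, 1 / 2 + δ ≤ z.re → z.re ≤ 1 / 2 + R → |z.im - y| ≤ A → 1 / 2 + δ ≤ w.re → w.re ≤ 1 / 2 + R →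
    |w.im - y| ≤ A → ‖logDeriv H z - logDeriv H w‖ ≤ ε * ℓ * ‖z - w‖ := by
    intro z w z1 z2 z3 w1 w2 w3
    have hconv := convex_box y (1 / 2 + δ) (1 / 2 + R) A
    exact hconv.norm_image_sub_le_of_norm_deriv_le (f := logDeriv H) (C := ε * ℓ)
      (fun p hp => hLd p (by linarith [hp.1]) (by linarith [hp.2.2])) (fun p hp => hder p hp.1 hp.2.1 hp.2.2)
      (x := w) (y := z) ⟨w1, w2, w3⟩ ⟨z1, z2, z3⟩
  have hlg : ∀ z : ℂ, 1 / 2 + δ - r ≤ z.re → z.re ≤ 1 / 2 + R → |z.im - y| ≤ A → ‖logDeriv H z - ℓ‖ ≤ ε' * ℓ := by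
    intro z z1 z2 z3
    exact HL z z1 (by linarith) (by linarith)
  have hsize : ∀ u v : ℝ, δ ≤ u → u ≤ R → |v| ≤ A →
      ‖H (pt y R v)‖ * Real.exp (ℓ * (u - R) - ε / 2 * ℓ) ≤ ‖H (pt y u v)‖ ∧
      ‖H (pt y u v)‖ ≤ ‖H (pt y R v)‖ * Real.exp (ℓ * (u - R) + ε / 2 * ℓ) := by
    intro u v hu huR hv
    set d : ℝ := u - R with hd
    have hmem : ∀ x ∈ Icc (0 : ℝ) 1, δ ≤ R + x * d ∧ R + x * d ≤ R := fun x hx => by
      constructor
      · nlinarith [hx.1, hx.2]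
      · nlinarith [hx.1, hx.2]
    have hpt : ∀ x : ℝ, pt y (R + x * d) v = pt y R v + (x : ℂ) * ((d : ℝ) : ℂ) := fun x => by
      simp only [pt]; push_cast; ring
    have hwc : ContinuousOn (fun x : ℝ => (d : ℂ) * logDeriv H (pt y (R + x * d) v)) (Icc 0 1) := by
      refine continuousOn_const.mul fun x hx => ?_
      have h6 := hmem x hx
      have h7 := hLd (pt y (R + x * d) v) (by rw [pt_re]; linarith) (by rw [pt_im, add_sub_cancel_left]; linarith)
      refine ContinuousAt.continuousWithinAt ?_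
      refine ContinuousAt.comp (g := logDeriv H) (f := fun x : ℝ => pt y (R + x * d) v) h7.continuousAt ?_
      simp only [hpt]
      exact Continuous.continuousAt (by fun_prop)
    have h8 := exp_seg (q := fun x : ℝ => H (pt y (R + x * d) v)) hwc (fun x hx => by
      have h6 := hmem x hx
      have h7 := hne (pt y (R + x * d) v) (by rw [pt_re]; linarith) (by rw [pt_im, add_sub_cancel_left]; linarith)
      have h9 : HasDerivAt (fun x : ℝ => pt y (R + x * d) v) ((d : ℝ) : ℂ) x := by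
        simp only [hpt]
        have := ((Complex.ofRealCLM.hasDerivAt (x := x)).mul_const ((d : ℝ) : ℂ)).const_add (pt y R v)
        simpa using this
      have h10 := (hHd (pt y (R + x * d) v)).hasDerivAt.scomp x h9
      refine (h10.congr_deriv ?_).hasDerivWithinAt
      rw [logDeriv_apply, smul_eq_mul]
      field_simp)
    simp only [one_mul, zero_mul, add_zero] at h8
    have e1 : R + d = u := by rw [hd]; ring
    rw [e1] at h8
    set J : ℂ := ∫ x in (0 : ℝ)..1, (d : ℂ) * logDeriv H (pt y (R + x * d) v) with hJ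
    have hi : IntervalIntegrable (fun x : ℝ => (d : ℂ) * logDeriv H (pt y (R + x * d) v)) volume 0 1 := by
      refine ContinuousOn.intervalIntegrable ?_
      rw [uIcc_of_le zero_le_one]
      exact hwc
    have hJb : ‖J - (d * ℓ : ℝ)‖ ≤ ε / 2 * ℓ := by
      have e2 : J - (d * ℓ : ℝ) = ∫ x in (0 : ℝ)..1, ((d : ℂ) * logDeriv H (pt y (R + x * d) v) - ((d * ℓ : ℝ) : ℂ)) := by
        rw [intervalIntegral.integral_sub hi intervalIntegrable_const, intervalIntegral.integral_const]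
        simp [hJ]
      rw [e2]
      have h9 := intervalIntegral.norm_integral_le_of_norm_le_const (a := (0 : ℝ)) (b := 1) (C := ε / 2 * ℓ)
        (f := fun x : ℝ => (d : ℂ) * logDeriv H (pt y (R + x * d) v) - ((d * ℓ : ℝ) : ℂ)) (fun x hx => ?_)
      · simpa using h9
      · rw [uIoc_of_le zero_le_one] at hx
        have h6 := hmem x ⟨hx.1.le, hx.2⟩
        have h10 := hlg (pt y (R + x * d) v) (by rw [pt_re]; linarith) (by rw [pt_re]; linarith)
          (by rw [pt_im, add_sub_cancel_left]; exact hv)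
        have e3 : (d : ℂ) * logDeriv H (pt y (R + x * d) v) - ((d * ℓ : ℝ) : ℂ) =
            (d : ℂ) * (logDeriv H (pt y (R + x * d) v) - ℓ) := by push_cast; ring
        rw [e3, norm_mul, Complex.norm_real, Real.norm_eq_abs]
        have hdR : |d| ≤ R + 1 := by
          rw [abs_of_nonpos (by rw [hd]; linarith), hd]; linarith
        calc |d| * ‖logDeriv H (pt y (R + x * d) v) - ℓ‖ ≤ (R + 1) * (ε' * ℓ) := by gcongr
          _ ≤ ε / 2 * ℓ := by nlinarith
    have hJre : |J.re - d * ℓ| ≤ ε / 2 * ℓ := by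
      have := (Complex.abs_re_le_norm (J - (d * ℓ : ℝ))).trans hJb
      simpa using this
    obtain ⟨j1, j2⟩ := abs_le.mp hJre
    have e4 : ‖H (pt y u v)‖ = ‖H (pt y R v)‖ * Real.exp J.re := by
      rw [h8, norm_mul, Complex.norm_exp]
    rw [e4]
    constructor
    · refine mul_le_mul_of_nonneg_left (Real.exp_le_exp.mpr ?_) (norm_nonneg _)
      linarith
    · refine mul_le_mul_of_nonneg_left (Real.exp_le_exp.mpr ?_) (norm_nonneg _)
      linarith
  refine ⟨hHd, fun z z1 z2 z3 => hne z (by linarith) (by linarith), fun z z1 z2 z3 => ?_, hlip, fun u v hu huR hv => ?_, fun u v hu huR hv => ?_⟩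
  · exact (hlg z (by linarith) z2 z3).trans (mul_le_mul_of_nonneg_right hεε (by linarith))
  · refine le_trans ?_ (hsize u v hu huR hv).1
    refine le_trans ?_ (mul_le_mul_of_nonneg_right (hright v hv).1 (Real.exp_pos _).le)
    rw [mul_assoc, ← Real.exp_add]
    refine mul_le_mul_of_nonneg_left (Real.exp_le_exp.mpr ?_) hM.le
    linarith
  · refine (hsize u v hu huR hv).2.trans ?_
    refine (mul_le_mul_of_nonneg_right (hright v hv).2 (Real.exp_pos _).le).trans ?_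
    rw [mul_assoc, ← Real.exp_add]
    refine mul_le_mul_of_nonneg_left (Real.exp_le_exp.mpr ?_) hM.le
    linarith

/-- flatness of the function itself -/
theorem x3 (a K A R δ ε : ℝ) (ha : 0 < a) (hδ : 0 < δ) (hδ1 : δ ≤ 1) (hε : 0 < ε) (hA : 0 ≤ A) :
    ∃ ℓ₀ : ℝ, 1 ≤ ℓ₀ ∧ ∀ (X : ℂ → ℂ) (M ℓ y : ℝ), Base X a K M ℓ y → ℓ₀ ≤ ℓ → ∀ b : ℝ, 0 ≤ b → b ≤ a →
      (∀ z : ℂ, 1 / 2 + b < z.re → |z.im - y| ≤ A + (a + 3) → X z ≠ 0) →
      ∀ z : ℂ, 1 / 2 + b + δ ≤ z.re → z.re ≤ 1 / 2 + R → |z.im - y| ≤ A → ‖logDeriv X z - ℓ‖ ≤ ε * ℓ := by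
  set R₁ : ℝ := a + 3 with hR₁
  have hR₁0 : 0 < R₁ := by linarith
  set K0 : ℝ := |K| * (1 + (3 * R₁) ^ 2 + (A + R₁) ^ 2) with hK0
  have hK00 : 0 ≤ K0 := by positivity
  set K₅ : ℝ := max (3 * R₁ + 2 * K0) (|K| * (1 + (1 / 2 + 3 * R₁) + (A + R₁))) + 1 with hK₅
  have hK₅1 : 1 ≤ K₅ := by
    have : 0 ≤ 3 * R₁ + 2 * K0 := by positivity
    have := this.trans (le_max_left (3 * R₁ + 2 * K0) (|K| * (1 + (1 / 2 + 3 * R₁) + (A + R₁))))
    linarith
  obtain ⟨L3, hL3, H3⟩ := flat_log (R := R₁) (δ := δ / 2) (K := K₅) (ε := ε) (by linarith) (by linarith) hK₅1 hε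
  refine ⟨max L3 (|K| * (1 + (1 / 2 + |R|) + A) / ε), hL3.trans (le_max_left _ _), fun X M ℓ y B hℓ b hb hba hz0 z hz1 hz2 hzi => ?_⟩
  have hℓ3 : L3 ≤ ℓ := (le_max_left _ _).trans hℓ
  have hℓR : |K| * (1 + (1 / 2 + |R|) + A) ≤ ε * ℓ := by
    have := (le_max_right _ _).trans hℓ
    rw [div_le_iff₀ hε] at this
    linarith
  have hℓ0 : 1 ≤ ℓ := hL3.trans hℓ3
  have hK := B.hK
  have hM := B.hM
  have hKabs : |K| = K := abs_of_pos (by linarith)
  rcases le_total (1 / 2 + a) z.re with hza | hza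
  · refine (B.lg z hza).trans (le_trans ?_ hℓR)
    rw [hKabs, abs_of_nonneg (by linarith : (0:ℝ) ≤ z.re)]
    have := le_abs_self R
    gcongr
    linarith
  have hHd := B.diff
  set c : ℂ := pt y (b + δ / 2 + R₁) (z.im - y) with hc
  have hcre : c.re = 1 / 2 + (b + δ / 2 + R₁) := by simp [hc]
  have hcim : c.im = z.im := by simp [hc]
  set h : ℂ → ℂ := fun w => X w * Complex.exp (-(ℓ * w)) with hh
  have hhd : Differentiable ℂ h := hHd.mul (by fun_prop)
  have hbig : ∀ w ∈ closedBall c R₁, 1 / 2 + b + δ / 2 ≤ w.re ∧ w.re ≤ 1 / 2 + 3 * R₁ ∧ |w.im - y| ≤ A + R₁ := by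
    intro w hw
    obtain ⟨h4, h5⟩ := mem_ball_re hw
    rw [hcre] at h4
    rw [hcim] at h5
    obtain ⟨h6, h7⟩ := abs_le.mp h4
    refine ⟨by linarith, by linarith, ?_⟩
    have := abs_add_le (w.im - z.im) (z.im - y)
    rw [sub_add_sub_cancel] at this
    linarith
  have hhne : ∀ w ∈ closedBall c R₁, h w ≠ 0 := fun w hw => by
    obtain ⟨h4, h5, h6⟩ := hbig w hw
    exact mul_ne_zero (hz0 w (by linarith) h6) (Complex.exp_ne_zero _)
  have hv2 : ∀ w ∈ closedBall c R₁, K * (1 + (w.re - 1 / 2) ^ 2 + (w.im - y) ^ 2) ≤ K0 := by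
    intro w hw
    obtain ⟨h4, h5, h6⟩ := hbig w hw
    have h7 : (w.im - y) ^ 2 ≤ (A + R₁) ^ 2 := by rw [← sq_abs]; exact pow_le_pow_left₀ (abs_nonneg _) h6 2
    have h8 : (w.re - 1 / 2) ^ 2 ≤ (3 * R₁) ^ 2 := pow_le_pow_left₀ (by linarith) (by linarith) 2
    rw [hK0, hKabs]
    gcongr
  have hcm : c ∈ closedBall c R₁ := mem_closedBall_self hR₁0.le
  have hclow : M * Real.exp (-(ℓ / 2) - K0) ≤ ‖h c‖ := by
    simp only [hh]
    rw [norm_twist]
    have h5 := B.lo (c.re - 1 / 2) (c.im - y) (by rw [hcre]; linarith)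
    rw [← pt_eq] at h5
    refine le_trans ?_ (mul_le_mul_of_nonneg_right h5 (Real.exp_pos _).le)
    rw [mul_assoc, ← Real.exp_add]
    refine mul_le_mul_of_nonneg_left (Real.exp_le_exp.mpr ?_) hM.le
    have := hv2 c hcm
    linarith
  have hgrowth : ∀ w ∈ closedBall c R₁, ‖h w‖ ≤ Real.exp (K₅ * ℓ) * ‖h c‖ := by
    intro w hw
    obtain ⟨h4, h5, h6⟩ := hbig w hw
    have h7 := B.up (w.re - 1 / 2) (w.im - y)
    rw [← pt_eq] at h7
    have hmax : max |w.re - 1 / 2| a ≤ 3 * R₁ := by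
      refine max_le ?_ (by linarith)
      rw [abs_of_nonneg (by linarith)]; linarith
    have h8 : ‖h w‖ ≤ M * Real.exp (ℓ * (3 * R₁) + K0 - ℓ / 2) := by
      simp only [hh]
      rw [norm_twist]
      refine (mul_le_mul_of_nonneg_right h7 (Real.exp_pos _).le).trans ?_
      rw [mul_assoc, ← Real.exp_add]
      refine mul_le_mul_of_nonneg_left (Real.exp_le_exp.mpr ?_) hM.le
      have h9 := hv2 w hw
      have h10 : ℓ * max |w.re - 1 / 2| a ≤ ℓ * (3 * R₁) := by gcongr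
      have h11 : ℓ / 2 ≤ ℓ * w.re := by nlinarith
      linarith
    refine h8.trans ?_
    refine le_trans ?_ (mul_le_mul_of_nonneg_left hclow (Real.exp_pos _).le)
    have e : Real.exp (K₅ * ℓ) * (M * Real.exp (-(ℓ / 2) - K0)) = M * Real.exp (K₅ * ℓ + (-(ℓ / 2) - K0)) := by
      rw [Real.exp_add]; ring
    rw [e]
    refine mul_le_mul_of_nonneg_left (Real.exp_le_exp.mpr ?_) hM.le
    have h9 : (3 * R₁ + 2 * K0) * ℓ ≤ K₅ * ℓ := by
      refine mul_le_mul_of_nonneg_right ?_ (by linarith)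
      have := le_max_left (3 * R₁ + 2 * K0) (|K| * (1 + (1 / 2 + 3 * R₁) + (A + R₁)))
      linarith
    have h10 : K0 * 1 ≤ K0 * ℓ := mul_le_mul_of_nonneg_left hℓ0 hK00
    nlinarith
  have hsmall : ∀ w ∈ closedBall c 1, ‖logDeriv h w‖ ≤ K₅ := by
    intro w hw
    have hwR := hbig w (closedBall_subset_closedBall (by linarith) hw)
    obtain ⟨h4, h5⟩ := mem_ball_re hw
    rw [hcre] at h4
    have h8 := abs_le.mp h4
    rw [logDeriv_twist hHd ℓ (hz0 w (by linarith) hwR.2.2)]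
    refine (B.lg w (by linarith)).trans ?_
    have h9 : K * (1 + |w.re| + |w.im - y|) ≤ |K| * (1 + (1 / 2 + 3 * R₁) + (A + R₁)) := by
      rw [hKabs, abs_of_nonneg (by linarith : (0:ℝ) ≤ w.re)]
      gcongr
      · linarith
      · exact hwR.2.2
    have := h9.trans (le_max_right (3 * R₁ + 2 * K0) _)
    linarith
  have hfin := H3 ℓ hℓ3 h c (fun w _ => hhd.analyticAt w) hhne hgrowth hsmall z (by
    rw [mem_closedBall, dist_eq_norm]
    have e : z - c = ((z.re - c.re : ℝ) : ℂ) := by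
      apply Complex.ext
      · simp
      · simp [hcim]
    rw [e, Complex.norm_real, Real.norm_eq_abs, hcre, abs_of_nonpos (by linarith)]
    linarith)
  rwa [logDeriv_twist hHd ℓ (hz0 z (by linarith) (by linarith))] at hfin

/-- the function itself in a zero free half plane -/
theorem x4 (a K A R δ ε : ℝ) (ha : 0 < a) (hδ : 0 < δ) (hδ1 : δ ≤ 1) (hε : 0 < ε) (hA : 0 ≤ A) (hR : a + 1 ≤ R) :
    ∃ ℓ₀ : ℝ, 1 ≤ ℓ₀ ∧ ∀ (X : ℂ → ℂ) (M ℓ y : ℝ), Base X a K M ℓ y → ℓ₀ ≤ ℓ → ∀ b : ℝ, 0 ≤ b → b ≤ a →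
      (∀ z : ℂ, 1 / 2 + b < z.re → |z.im - y| ≤ A + (a + 4) → X z ≠ 0) →
      HGood X M ℓ y 0 (b + δ) ε R A := by
  have hR0 : 0 < R := by linarith
  set ε' : ℝ := min (ε / (2 * (R + 1))) (ε * (δ / 2)) with hε'
  have hε'0 : 0 < ε' := by positivity
  have hε'1 : ε' * (2 * (R + 1)) ≤ ε := by
    have : ε' ≤ ε / (2 * (R + 1)) := min_le_left _ _
    rwa [le_div_iff₀ (by positivity)] at this
  have hε'2 : ε' / (δ / 2) ≤ ε := by
    rw [div_le_iff₀ (by positivity)]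
    exact min_le_right _ _
  obtain ⟨L1, hL1, H3⟩ := x3 a K (A + 1) (R + 1) (δ / 2) ε' ha (by positivity) (by linarith) hε'0 (by linarith)
  set K0 : ℝ := |K| * (1 + R ^ 2 + A ^ 2) with hK0
  have hK00 : 0 ≤ K0 := by positivity
  refine ⟨max L1 (2 * K0 / ε), hL1.trans (le_max_left _ _), fun X M ℓ y B hℓ b hb hba hz0 => ?_⟩
  have hℓ1 : L1 ≤ ℓ := (le_max_left _ _).trans hℓ
  have hℓ3 : K0 ≤ ε / 2 * ℓ := by
    have := (le_max_right _ _).trans hℓ
    rw [div_le_iff₀ hε] at this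
    linarith
  have hℓ0 : 1 ≤ ℓ := hL1.trans hℓ1
  have hK := B.hK
  have hM := B.hM
  have hKabs : |K| = K := abs_of_pos (by linarith)
  have HL := H3 X M ℓ y B hℓ1 b hb hba (fun z h5 h6 => hz0 z h5 (by linarith))
  refine good_of (r := δ / 2) (ε' := ε') B.diff hM (by linarith) (by linarith) (by linarith) (by linarith) (by linarith) hε'0 hε'1 hε'2
    (fun z h5 h6 => hz0 z (by linarith) (by linarith)) (fun z h5 h6 h7 => HL z (by linarith) (by linarith) h7) (fun v hv => ?_)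
  have hv2 : v ^ 2 ≤ A ^ 2 := by rw [← sq_abs v]; exact pow_le_pow_left₀ (abs_nonneg v) hv 2
  have hKK : K * (1 + R ^ 2 + v ^ 2) ≤ K0 := by
    rw [hK0, hKabs]
    gcongr
  have h5 := B.lo R v (by linarith)
  have h6 := B.up R v
  have hmax : max |R| a = R := by
    rw [abs_of_nonneg hR0.le]
    exact max_eq_left (by linarith)
  rw [hmax] at h6
  constructor
  · refine le_trans (mul_le_mul_of_nonneg_left (Real.exp_le_exp.mpr ?_) hM.le) h5
    linarith
  · refine h6.trans (mul_le_mul_of_nonneg_left (Real.exp_le_exp.mpr ?_) hM.le)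
    linarith

end Pool.Agent.H487.NZ
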