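import Pool.Agent.H487.NZ.XCore

/-!
# The averages over the right half line: integration
-/

set_option autoImplicit false

open MeasureTheory Set Filter Topology Metric
open scoped ComplexConjugate

namespace Pool.Agent.H487.NZ

open NB

/-- from the pointwise estimate to the integral and the first moment -/
theorem rl_int2 {F : ℝ → ℂ} {W : ℂ} {t : ℝ} (ht : 0 < t) (hF : AEStronglyMeasurable F)
    (h : ∀ u, ‖F u - W * ((Real.exp (-(u ^ 2 / (4 * t))) : ℝ) : ℂ)‖ ≤
      ‖W‖ * (1 / 8) * Real.exp (-(u ^ 2 / (16 * t)))) :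
    Integrable F ∧ ‖(∫ u, F u) - ((Real.sqrt (4 * Real.pi * t) : ℝ) : ℂ) * W‖ ≤ 1 / 4 * Real.sqrt (4 * Real.pi * t) * ‖W‖ ∧
    Integrable (fun u : ℝ => ((u / (2 * t) : ℝ) : ℂ) * F u) ∧ ‖∫ u : ℝ, ((u / (2 * t) : ℝ) : ℂ) * F u‖ ≤ 36 * ‖W‖ := by
  obtain ⟨i1, v1⟩ := gint ht 0
  obtain ⟨i2, v2⟩ := gint (t := 4 * t) (by positivity) 0
  obtain ⟨i8, v8⟩ := gint (t := 8 * t) (by positivity) 0
  simp only [sub_zero] at i1 v1 i2 v2 i8 v8
  have e16 : (4 : ℝ) * (4 * t) = 16 * t := by ring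
  have e32 : (4 : ℝ) * (8 * t) = 32 * t := by ring
  simp only [e16] at i2 v2
  simp only [e32] at i8 v8
  have hpi := Real.pi_pos
  have hs : 0 < Real.sqrt (4 * Real.pi * t) := Real.sqrt_pos.mpr (by positivity)
  have e2 : Real.sqrt (4 * Real.pi * (4 * t)) = 2 * Real.sqrt (4 * Real.pi * t) := by
    rw [show 4 * Real.pi * (4 * t) = 4 * (4 * Real.pi * t) by ring, Real.sqrt_mul (by norm_num)]
    congr 1
    rw [show (4 : ℝ) = 2 ^ 2 by norm_num]
    exact Real.sqrt_sq (by norm_num)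
  rw [e2] at v2
  have i3 : Integrable fun u : ℝ => W * ((Real.exp (-(u ^ 2 / (4 * t))) : ℝ) : ℂ) := (i1.ofReal).const_mul W
  have hcont : Continuous fun u : ℝ => W * ((Real.exp (-(u ^ 2 / (4 * t))) : ℝ) : ℂ) :=
    continuous_const.mul (Complex.continuous_ofReal.comp (Real.continuous_exp.comp (by fun_prop)))
  have i4 : Integrable fun u : ℝ => F u - W * ((Real.exp (-(u ^ 2 / (4 * t))) : ℝ) : ℂ) :=
    (i2.const_mul (‖W‖ * (1 / 8))).mono' (hF.sub hcont.aestronglyMeasurable) (Eventually.of_forall h)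
  have i5 : Integrable F := by
    have := i4.add i3
    refine this.congr (Eventually.of_forall fun u => ?_)
    simp
  have v3 : ∫ u : ℝ, ((Real.exp (-(u ^ 2 / (4 * t))) : ℝ) : ℂ) = ((Real.sqrt (4 * Real.pi * t) : ℝ) : ℂ) := by
    rw [← v1]
    exact integral_ofReal
  have h1 : ∫ u, (F u - W * ((Real.exp (-(u ^ 2 / (4 * t))) : ℝ) : ℂ)) =
      (∫ u, F u) - W * ((Real.sqrt (4 * Real.pi * t) : ℝ) : ℂ) := by
    rw [integral_sub i5 i3, integral_const_mul, v3]
  have h2 : ‖(∫ u, F u) - W * ((Real.sqrt (4 * Real.pi * t) : ℝ) : ℂ)‖ ≤ ‖W‖ * (1 / 8) * (2 * Real.sqrt (4 * Real.pi * t)) := by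
    rw [← h1, ← v2, ← integral_const_mul]
    exact norm_integral_le_of_norm_le (i2.const_mul _) (Eventually.of_forall h)
  -- the size
  have hFb : ∀ u, ‖F u‖ ≤ ‖W‖ * (9 / 8) * Real.exp (-(u ^ 2 / (16 * t))) := by
    intro u
    have h3 := norm_add_le (F u - W * ((Real.exp (-(u ^ 2 / (4 * t))) : ℝ) : ℂ)) (W * ((Real.exp (-(u ^ 2 / (4 * t))) : ℝ) : ℂ))
    rw [sub_add_cancel] at h3
    have h4 : ‖W * ((Real.exp (-(u ^ 2 / (4 * t))) : ℝ) : ℂ)‖ ≤ ‖W‖ * Real.exp (-(u ^ 2 / (16 * t))) := by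
      rw [norm_mul, Complex.norm_real, Real.norm_of_nonneg (Real.exp_pos _).le]
      refine mul_le_mul_of_nonneg_left (Real.exp_le_exp.mpr ?_) (norm_nonneg _)
      apply neg_le_neg
      apply div_le_div_of_nonneg_left (sq_nonneg u) (by positivity)
      linarith
    have h5 := h u
    linarith
  have hmom : ∀ u : ℝ, ‖((u / (2 * t) : ℝ) : ℂ) * F u‖ ≤
      ‖W‖ * (9 / 8) * (1 / (2 * t)) * (Real.sqrt (32 * t) * Real.exp (-(u ^ 2 / (32 * t)))) := by
    intro u
    rw [norm_mul, Complex.norm_real, Real.norm_eq_abs, abs_div, abs_of_pos (by positivity : 0 < 2 * t)]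
    have h3 := abs_mul_exp_le (c := 1 / (32 * t)) (x := u) (by positivity)
    have e5 : 1 / Real.sqrt (1 / (32 * t)) = Real.sqrt (32 * t) := by
      rw [one_div (32 * t), Real.sqrt_inv, one_div, inv_inv]
    have e6 : 2 * (1 / (32 * t)) * u ^ 2 = u ^ 2 / (16 * t) := by field_simp; ring
    have e7 : 1 / (32 * t) * u ^ 2 = u ^ 2 / (32 * t) := by ring
    rw [e5, e6, e7] at h3
    calc |u| / (2 * t) * ‖F u‖ ≤ |u| / (2 * t) * (‖W‖ * (9 / 8) * Real.exp (-(u ^ 2 / (16 * t)))) := by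
          have := hFb u
          gcongr
      _ = ‖W‖ * (9 / 8) * (1 / (2 * t)) * (|u| * Real.exp (-(u ^ 2 / (16 * t)))) := by ring
      _ ≤ _ := by gcongr
  have i6 : Integrable fun u : ℝ => ‖W‖ * (9 / 8) * (1 / (2 * t)) * (Real.sqrt (32 * t) * Real.exp (-(u ^ 2 / (32 * t)))) :=
    (i8.const_mul _).const_mul _
  have i7 : Integrable (fun u : ℝ => ((u / (2 * t) : ℝ) : ℂ) * F u) := by
    refine i6.mono' (AEStronglyMeasurable.mul ?_ hF) (Eventually.of_forall hmom)
    exact (Complex.continuous_ofReal.comp (by fun_prop)).aestronglyMeasurable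
  refine ⟨i5, ?_, i7, ?_⟩
  · rw [mul_comm _ W]
    refine h2.trans (le_of_eq ?_)
    ring
  · refine (norm_integral_le_of_norm_le i6 (Eventually.of_forall hmom)).trans ?_
    rw [integral_const_mul, integral_const_mul, v8]
    have e8 : Real.sqrt (32 * t) * Real.sqrt (4 * Real.pi * (8 * t)) = 32 * t * Real.sqrt Real.pi := by
      rw [show 4 * Real.pi * (8 * t) = (32 * t) * Real.pi by ring, Real.sqrt_mul (by positivity) Real.pi, ← mul_assoc,
        Real.mul_self_sqrt (by positivity)]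
    rw [e8]
    have e9 : Real.sqrt Real.pi ≤ 2 := by
      rw [Real.sqrt_le_left (by norm_num)]
      have := Real.pi_le_four
      linarith
    have e10 : ‖W‖ * (9 / 8) * (1 / (2 * t)) * (32 * t * Real.sqrt Real.pi) = 18 * ‖W‖ * Real.sqrt Real.pi := by
      field_simp
      ring
    rw [e10]
    have := norm_nonneg W
    nlinarith

lemma rr_eq (t : ℝ) (F : ℂ → ℂ) (y r : ℝ) : RR t F (1 / 2 + y * Complex.I) r =
    ∫ x in Ioi (1 / 2 : ℝ), F (x + y * Complex.I) * gk t (pt y r 0) (x + y * Complex.I) := by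
  unfold RR
  rw [← integral_indicator measurableSet_Ioi, ← integral_indicator measurableSet_Ioi]
  rw [← integral_add_right_eq_self (fun x => (Ioi (1 / 2 : ℝ)).indicator (fun x : ℝ => F (x + y * Complex.I) * gk t (pt y r 0) (x + y * Complex.I)) x) (1 / 2)]
  refine integral_congr_ae (Eventually.of_forall fun x => ?_)
  simp only [indicator, mem_Ioi]
  by_cases h : 0 < x
  · rw [if_pos h, if_pos (by linarith)]
    have e1 : (((x + 1 / 2 : ℝ) : ℂ) + y * Complex.I) = 1 / 2 + y * Complex.I + x := by push_cast; ring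
    rw [e1]
    congr 1
    unfold gk
    rw [Complex.ofReal_exp]
    congr 1
    have e2 : 1 / 2 + (y : ℂ) * Complex.I + x - pt y r 0 = ((x - r : ℝ) : ℂ) := by
      unfold pt; push_cast; ring
    rw [e2]
    push_cast
    ring
  · rw [if_neg h, if_neg (by intro h'; linarith)]

lemma rd_eq (t : ℝ) (F : ℂ → ℂ) (y r : ℝ) : RD t F (1 / 2 + y * Complex.I) r =
    ∫ x in Ioi (1 / 2 : ℝ), (F (x + y * Complex.I) * (((x + y * Complex.I) - pt y r 0) / (2 * t))) *
      gk t (pt y r 0) (x + y * Complex.I) := by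
  unfold RD
  rw [← integral_indicator measurableSet_Ioi, ← integral_indicator measurableSet_Ioi]
  rw [← integral_add_right_eq_self (fun x => (Ioi (1 / 2 : ℝ)).indicator (fun x : ℝ => (F (x + y * Complex.I) *
    (((x + y * Complex.I) - pt y r 0) / (2 * t))) * gk t (pt y r 0) (x + y * Complex.I)) x) (1 / 2)]
  refine integral_congr_ae (Eventually.of_forall fun x => ?_)
  simp only [indicator, mem_Ioi]
  by_cases h : 0 < x
  · rw [if_pos h, if_pos (by linarith)]
    have e1 : (((x + 1 / 2 : ℝ) : ℂ) + y * Complex.I) = 1 / 2 + y * Complex.I + x := by push_cast; ring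
    rw [e1]
    have e2 : 1 / 2 + (y : ℂ) * Complex.I + x - pt y r 0 = ((x - r : ℝ) : ℂ) := by
      unfold pt; push_cast; ring
    unfold gk
    rw [e2, Complex.ofReal_mul, Complex.ofReal_exp, mul_assoc]
    congr 2
    · push_cast; ring
    · congr 1
      push_cast
      ring
  · rw [if_neg h, if_neg (by intro h'; linarith)]

lemma type0_affine {F : ℂ → ℂ} (h : Type0 F) (α β' : ℂ) : Type0 fun w => F w * (α * w + β') := by
  intro c hc
  obtain ⟨K, hK, hb⟩ := h (c / 2) (by positivity)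
  refine ⟨K * ((‖α‖ + ‖β'‖) * (2 * (1 + 1 / c)) + 1), by positivity, fun w => ?_⟩
  rw [norm_mul]
  have h1 : ‖α * w + β'‖ ≤ (‖α‖ + ‖β'‖) * (1 + ‖w‖) := by
    refine (norm_add_le _ _).trans ?_
    rw [norm_mul]
    nlinarith [norm_nonneg α, norm_nonneg β', norm_nonneg w, mul_nonneg (norm_nonneg β') (norm_nonneg w)]
  have h2 : 1 + ‖w‖ ≤ 2 * (1 + 1 / c) * Real.exp (c / 2 * ‖w‖ ^ 2) := by
    have h3 := Real.add_one_le_exp (c / 2 * ‖w‖ ^ 2)
    have h4 : 2 * (1 + 1 / c) * (1 + c / 2 * ‖w‖ ^ 2) ≤ 2 * (1 + 1 / c) * Real.exp (c / 2 * ‖w‖ ^ 2) := by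
      gcongr; linarith
    refine le_trans ?_ h4
    have e : 2 * (1 + 1 / c) * (1 + c / 2 * ‖w‖ ^ 2) = 2 + 2 / c + c * ‖w‖ ^ 2 + ‖w‖ ^ 2 := by
      field_simp
      ring
    rw [e]
    have h5 : 0 ≤ 2 / c := by positivity
    have h6 : 0 ≤ c * ‖w‖ ^ 2 := by positivity
    nlinarith [sq_nonneg (‖w‖ - 1)]
  calc ‖F w‖ * ‖α * w + β'‖ ≤ (K * Real.exp (c / 2 * ‖w‖ ^ 2)) * ((‖α‖ + ‖β'‖) * (1 + ‖w‖)) := by
        have := hb w
        gcongr
    _ ≤ (K * Real.exp (c / 2 * ‖w‖ ^ 2)) * ((‖α‖ + ‖β'‖) * (2 * (1 + 1 / c) * Real.exp (c / 2 * ‖w‖ ^ 2))) := by gcongr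
    _ = K * ((‖α‖ + ‖β'‖) * (2 * (1 + 1 / c))) * (Real.exp (c / 2 * ‖w‖ ^ 2) * Real.exp (c / 2 * ‖w‖ ^ 2)) := by ring
    _ = K * ((‖α‖ + ‖β'‖) * (2 * (1 + 1 / c))) * Real.exp (c * ‖w‖ ^ 2) := by
        rw [← Real.exp_add]; congr 2; ring
    _ ≤ _ := by
        refine mul_le_mul_of_nonneg_right (mul_le_mul_of_nonneg_left ?_ hK.le) (Real.exp_pos _).le
        linarith

/-- one horizontal half line: the part over the strip and the vertical segment are negligible -/
lemma half_split {F : ℂ → ℂ} (hd : Differentiable ℂ F) (h : Type0 F) {t : ℝ} (ht : 0 < t) (s : ℂ) {y y₁ β E : ℝ}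
    (hβ : 0 ≤ β) (h1 : ∀ x : ℝ, 1 / 2 ≤ x → x ≤ 1 / 2 + β → ‖F (x + y₁ * Complex.I) * gk t s (x + y₁ * Complex.I)‖ ≤ E)
    (h2 : ∀ v : ℝ, |v - y| ≤ |y₁ - y| → ‖F (1 / 2 + v * Complex.I) * gk t s (1 / 2 + v * Complex.I)‖ ≤ E) :
    ‖(∫ x in Ioi (1 / 2 : ℝ), F (x + y * Complex.I) * gk t s (x + y * Complex.I)) -
      ∫ x in Ioi (1 / 2 + β : ℝ), F (x + y₁ * Complex.I) * gk t s (x + y₁ * Complex.I)‖ ≤ (β + |y₁ - y|) * E := by
  rw [half_shift hd h ht s (1 / 2) y y₁]
  have i1 := gk_integrable hd.continuous h ht s y₁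
  have h3 := intervalIntegral.integral_interval_add_Ioi (μ := volume) (a := (1 / 2 : ℝ)) (b := 1 / 2 + β)
    i1.integrableOn i1.integrableOn
  rw [← h3]
  have e : ∀ A B D : ℂ, A + B + D - B = A + D := fun A B D => by ring
  rw [e]
  refine (norm_add_le _ _).trans ?_
  rw [add_mul]
  refine add_le_add ?_ ?_
  · have h4 := intervalIntegral.norm_integral_le_of_norm_le_const (a := (1 / 2 : ℝ)) (b := 1 / 2 + β) (C := E)
      (f := fun x : ℝ => F (x + y₁ * Complex.I) * gk t s (x + y₁ * Complex.I)) (fun x hx => by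
        rw [uIoc_of_le (by linarith)] at hx
        exact h1 x hx.1.le hx.2)
    refine h4.trans (le_of_eq ?_)
    rw [add_sub_cancel_left, abs_of_nonneg hβ]
    ring
  · rw [norm_mul, Complex.norm_I, one_mul]
    have h4 := intervalIntegral.norm_integral_le_of_norm_le_const (a := y) (b := y₁) (C := E)
      (f := fun v : ℝ => F (((1 / 2 : ℝ) : ℂ) + v * Complex.I) * gk t s (((1 / 2 : ℝ) : ℂ) + v * Complex.I)) (fun v hv => by
        have e2 : (((1 / 2 : ℝ) : ℂ)) = 1 / 2 := by push_cast; ring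
        rw [e2]
        refine h2 v ?_
        rcases le_total y y₁ with h5 | h5
        · rw [uIoc_of_le h5] at hv
          rw [abs_of_nonneg (by linarith [hv.1]), abs_of_nonneg (by linarith)]
          linarith [hv.2]
        · rw [uIoc_of_ge h5] at hv
          rw [abs_of_nonpos (by linarith [hv.2]), abs_of_nonpos (by linarith)]
          linarith [hv.1])
    refine h4.trans (le_of_eq ?_)
    ring

variable {X : ℂ → ℂ} {a K M ℓ y τ β ε R η T₀ r : ℝ} {w : ℂ}

/-- **the averages at the saddle point** -/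
theorem est (C : XC X a K M ℓ y τ β ε R η T₀) (S : SP X M ℓ y τ ε r w) (h1 : -(η / 16) ≤ r) (h2 : r ≤ a) :
    ‖RR (τ / (2 * ℓ)) X (1 / 2 + y * Complex.I) r - ((Real.sqrt (4 * Real.pi * (τ / (2 * ℓ))) : ℝ) : ℂ) *
        (X w * gk (τ / (2 * ℓ)) (pt y r 0) w)‖ ≤
      1 / 2 * Real.sqrt (4 * Real.pi * (τ / (2 * ℓ))) * ‖X w * gk (τ / (2 * ℓ)) (pt y r 0) w‖ ∧
    ‖RD (τ / (2 * ℓ)) X (1 / 2 + y * Complex.I) r - logDeriv X w * RR (τ / (2 * ℓ)) X (1 / 2 + y * Complex.I) r‖ ≤
      40 * ‖X w * gk (τ / (2 * ℓ)) (pt y r 0) w‖ := by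
  obtain ⟨s1, s2⟩ := C.small
  have c1 := C.hη
  have c1' := C.hη1
  have c2 := C.hητ
  have c3 := C.hτT
  have c4 := C.hβτ
  have c5 := C.hβ
  have c6 := C.hℓ
  have c7 := C.B.ha
  have c8 := C.hε
  have c9 := C.hε1
  have c10 := C.hβa
  have hτ0 : 0 < τ := by linarith
  obtain ⟨p1, p2⟩ := S.pos
  obtain ⟨q1, q2⟩ := abs_le.mp p1
  have hk1 := C.hk1
  have hk2 := C.hk2
  have hright := fun x : ℝ => right_pt C S h1 h2 (x := x)
  have hleft := fun x : ℝ => left_pt C S h1 (x := x)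
  have hstrip := fun u v : ℝ => strip_small C S h1 h2 (u := u) (v := v)
  set t : ℝ := τ / (2 * ℓ) with ht
  have ht0 : 0 < t := by positivity
  have ht' : (t : ℂ) ≠ 0 := by exact_mod_cast ht0.ne'
  set s : ℂ := pt y r 0 with hs
  set W : ℂ := X w * gk t s w with hW
  set G : ℂ := logDeriv X w with hG
  set κ : ℝ := Real.sqrt (4 * Real.pi * t) with hκ
  have hκ0 : 0 ≤ κ := Real.sqrt_nonneg _
  have hws : w - s = 2 * (t : ℂ) * G := S.eq
  have hd := C.B.diff
  have h0 : Type0 X := C.B.slow.type0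
  set y₁ : ℝ := w.im with hy₁
  set Ex : ℝ := Real.exp (-(η * ℓ / 4)) with hEx
  have hEx0 : 0 < Ex := Real.exp_pos _
  have hWn := norm_nonneg W
  -- the indicator function
  set J : ℝ → ℂ := (Ioi (1 / 2 + β - w.re)).indicator (fun x : ℝ => X (w + x) * gk t s (w + x)) with hJ
  have hJc : Continuous fun x : ℝ => X (w + x) * gk t s (w + x) :=
    (hd.continuous.comp (by fun_prop)).mul ((gk_diff t s).continuous.comp (by fun_prop))
  have hJm : AEStronglyMeasurable J := hJc.aestronglyMeasurable.indicator measurableSet_Ioi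
  have hJpt : ∀ x, ‖J x - W * ((Real.exp (-(x ^ 2 / (4 * t))) : ℝ) : ℂ)‖ ≤ ‖W‖ * (1 / 8) * Real.exp (-(x ^ 2 / (16 * t))) := by
    intro x
    by_cases hx : x ∈ Ioi (1 / 2 + β - w.re)
    · have e : J x = X (w + x) * gk t s (w + x) := by rw [hJ, indicator_of_mem hx]
      rw [e]
      exact hright x (by have : 1 / 2 + β - w.re < x := hx; linarith)
    · have e : J x = 0 := by rw [hJ, indicator_of_notMem hx]
      rw [e, zero_sub, norm_neg, norm_mul, Complex.norm_real, Real.norm_of_nonneg (Real.exp_pos _).le, mul_assoc]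
      refine mul_le_mul_of_nonneg_left ?_ hWn
      exact hleft x (by have : x ≤ 1 / 2 + β - w.re := not_lt.mp hx; linarith)
  obtain ⟨-, j1, -, j2⟩ := rl_int2 ht0 hJm hJpt
  rw [← hκ] at j1
  have hpt1 : ∀ x v : ℝ, (x : ℂ) + v * Complex.I = pt y (x - 1 / 2) (v - y) := fun x v => by
    apply Complex.ext <;> simp
  have hw1 : ∀ x : ℝ, (((x + w.re : ℝ) : ℂ) + y₁ * Complex.I) = w + x := fun x => by
    apply Complex.ext
    · simp
      ring
    · simp [hy₁]
  have hind : ∀ x : ℝ, (x + w.re ∈ Ioi (1 / 2 + β)) ↔ (x ∈ Ioi (1 / 2 + β - w.re)) := fun x => by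
    simp only [mem_Ioi]
    constructor <;> intro h <;> linarith
  -- first average
  have r1 : (∫ x in Ioi (1 / 2 + β : ℝ), X (x + y₁ * Complex.I) * gk t s (x + y₁ * Complex.I)) = ∫ x, J x := by
    rw [← integral_indicator measurableSet_Ioi]
    rw [← integral_add_right_eq_self (fun x => (Ioi (1 / 2 + β : ℝ)).indicator (fun x : ℝ => X (x + y₁ * Complex.I) * gk t s (x + y₁ * Complex.I)) x) w.re]
    refine integral_congr_ae (Eventually.of_forall fun x => ?_)
    simp only [hJ]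
    by_cases hx : x ∈ Ioi (1 / 2 + β - w.re)
    · rw [indicator_of_mem hx, indicator_of_mem ((hind x).mpr hx), hw1]
    · rw [indicator_of_notMem hx, indicator_of_notMem (fun h => hx ((hind x).mp h))]
  have sp1 := half_split hd h0 ht0 s (y := y) (y₁ := y₁) (β := β) (E := ‖W‖ * Ex) c5.le (fun x hx1 hx2 => by
      rw [hpt1]
      exact hstrip (x - 1 / 2) (y₁ - y) (by linarith) (by linarith) p2) (fun v hv => by
      have e : (1 / 2 : ℂ) + v * Complex.I = pt y 0 (v - y) := by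
        apply Complex.ext <;> simp
      rw [e]
      exact hstrip 0 (v - y) le_rfl c5.le (hv.trans p2))
  rw [r1, ← rr_eq] at sp1
  have hsum : β + |y₁ - y| ≤ a + 2 := by linarith
  have hC3 : 0 ≤ ((2 * a + 4) / η + 2) * ℓ := by positivity
  have hsmall : (a + 2) * Ex ≤ κ / 16 := by
    refine le_trans ?_ hk1
    refine mul_le_mul_of_nonneg_right ?_ hEx0.le
    nlinarith
  have hsmall2 : (a + 2) * (((2 * a + 4) / η + 2) * ℓ) * Ex ≤ 1 := by
    have h3 : (a + 2) * (((2 * a + 4) / η + 2) * ℓ) * Ex ≤ κ / 16 := by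
      refine le_trans ?_ hk1
      refine mul_le_mul_of_nonneg_right ?_ hEx0.le
      refine mul_le_mul_of_nonneg_left ?_ (by linarith)
      linarith
    linarith
  constructor
  · have h3 := norm_add_le (RR t X (1 / 2 + y * Complex.I) r - ∫ x, J x) ((∫ x, J x) - (κ : ℂ) * W)
    rw [sub_add_sub_cancel] at h3
    refine h3.trans ?_
    have h4 : (β + |y₁ - y|) * (‖W‖ * Ex) ≤ κ / 16 * ‖W‖ := by
      calc (β + |y₁ - y|) * (‖W‖ * Ex) ≤ (a + 2) * (‖W‖ * Ex) := by gcongr
        _ = ((a + 2) * Ex) * ‖W‖ := by ring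
        _ ≤ _ := by gcongr
    have h5 : 0 ≤ κ * ‖W‖ := by positivity
    linarith
  · -- the derivative
    set F₁ : ℂ → ℂ := fun z => X z * (((1 / (2 * t) : ℝ) : ℂ) * z + (-(s / (2 * t)) - G)) with hF₁
    have hF₁d : Differentiable ℂ F₁ := hd.mul (by fun_prop)
    have hF₁0 : Type0 F₁ := type0_affine h0 _ _
    have hF₁e : ∀ z : ℂ, F₁ z = X z * ((z - s) / (2 * t)) - G * X z := fun z => by
      simp only [hF₁]; push_cast; ring
    have hrd : RD t X (1 / 2 + y * Complex.I) r - G * RR t X (1 / 2 + y * Complex.I) r =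
        ∫ x in Ioi (1 / 2 : ℝ), F₁ (x + y * Complex.I) * gk t s (x + y * Complex.I) := by
      have i1 := (gk_integrable hd.continuous h0 ht0 s y).const_mul G
      have i2 : Integrable fun x : ℝ => (X (x + y * Complex.I) * (((x + y * Complex.I) - s) / (2 * t))) * gk t s (x + y * Complex.I) := by
        have h3 := gk_integrable (F := fun z => X z * (((1 / (2 * t) : ℝ) : ℂ) * z + (-(s / (2 * t)))))
          (hd.continuous.mul (by fun_prop)) (type0_affine h0 _ _) ht0 s y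
        refine h3.congr (Eventually.of_forall fun x => ?_)
        simp only []
        push_cast
        ring
      rw [rd_eq, rr_eq, ← integral_const_mul, ← integral_sub i2.integrableOn i1.integrableOn]
      refine integral_congr_ae (Eventually.of_forall fun x => ?_)
      simp only []
      rw [hF₁e]
      ring
    have hGn : ‖G‖ ≤ 2 * ℓ := by
      have h3 := C.G.lg w (by linarith [C.hβτ]) (by linarith [C.hR]) (by linarith)
      have h4 := norm_add_le (G - (ℓ : ℂ)) (ℓ : ℂ)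
      rw [sub_add_cancel, Complex.norm_real, Real.norm_of_nonneg (by linarith)] at h4
      have h5 : ε * ℓ ≤ ℓ := by nlinarith
      linarith
    have hfac : ∀ u v : ℝ, 0 ≤ u → u ≤ β → |v| ≤ ε * τ → ‖(pt y u v - s) / (2 * t) - G‖ ≤ ((2 * a + 4) / η + 2) * ℓ := by
      intro u v hu0 hu hv
      refine (norm_sub_le _ _).trans ?_
      have h3 : ‖pt y u v - s‖ ≤ 2 * a + 4 := by
        refine (Complex.norm_le_abs_re_add_abs_im _).trans ?_
        rw [Complex.sub_re, Complex.sub_im, hs, pt_re, pt_im, pt_re, pt_im]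
        have h4 : |1 / 2 + u - (1 / 2 + r)| ≤ 2 * a + 3 := by
          rw [abs_le]; constructor <;> linarith
        have h5 : |y + v - (y + 0)| ≤ 1 := by
          have : y + v - (y + 0) = v := by ring
          rw [this]; linarith
        linarith
      have e2 : ‖(2 * (t : ℂ))‖ = 2 * t := by
        rw [norm_mul, Complex.norm_real, Real.norm_of_nonneg ht0.le, Complex.norm_ofNat]
      rw [norm_div, e2]
      have h4 : ‖pt y u v - s‖ / (2 * t) ≤ (2 * a + 4) / η * ℓ := by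
        calc ‖pt y u v - s‖ / (2 * t) ≤ (2 * a + 4) / (2 * t) := by gcongr
          _ = (2 * a + 4) / τ * ℓ := by rw [ht]; field_simp
          _ ≤ (2 * a + 4) / η * ℓ := by gcongr
      linarith
    have hF₁b : ∀ u v : ℝ, 0 ≤ u → u ≤ β → |v| ≤ ε * τ → ‖F₁ (pt y u v) * gk t s (pt y u v)‖ ≤
        ((2 * a + 4) / η + 2) * ℓ * (‖W‖ * Ex) := by
      intro u v hu0 hu hv
      have e2 : F₁ (pt y u v) * gk t s (pt y u v) = ((pt y u v - s) / (2 * t) - G) * (X (pt y u v) * gk t s (pt y u v)) := by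
        rw [hF₁e]; ring
      rw [e2, norm_mul]
      exact mul_le_mul (hfac u v hu0 hu hv) (hstrip u v hu0 hu hv) (norm_nonneg _) hC3
    have r2 : (∫ x in Ioi (1 / 2 + β : ℝ), F₁ (x + y₁ * Complex.I) * gk t s (x + y₁ * Complex.I)) =
        ∫ x : ℝ, ((x / (2 * t) : ℝ) : ℂ) * J x := by
      rw [← integral_indicator measurableSet_Ioi]
      rw [← integral_add_right_eq_self (fun x => (Ioi (1 / 2 + β : ℝ)).indicator (fun x : ℝ => F₁ (x + y₁ * Complex.I) * gk t s (x + y₁ * Complex.I)) x) w.re]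
      refine integral_congr_ae (Eventually.of_forall fun x => ?_)
      simp only [hJ]
      by_cases hx : x ∈ Ioi (1 / 2 + β - w.re)
      · rw [indicator_of_mem hx, indicator_of_mem ((hind x).mpr hx), hw1, hF₁e]
        have e3 : (w + x - s) / (2 * t) = G + x / (2 * t) := by
          have : w + x - s = 2 * (t : ℂ) * G + x := by rw [← hws]; ring
          rw [this]
          field_simp
        rw [e3]
        push_cast
        ring
      · rw [indicator_of_notMem hx, indicator_of_notMem (fun h => hx ((hind x).mp h)), mul_zero]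
    have sp2 := half_split hF₁d hF₁0 ht0 s (y := y) (y₁ := y₁) (β := β) (E := ((2 * a + 4) / η + 2) * ℓ * (‖W‖ * Ex)) c5.le (fun x hx1 hx2 => by
        rw [hpt1]
        exact hF₁b (x - 1 / 2) (y₁ - y) (by linarith) (by linarith) p2) (fun v hv => by
        have e : (1 / 2 : ℂ) + v * Complex.I = pt y 0 (v - y) := by
          apply Complex.ext <;> simp
        rw [e]
        exact hF₁b 0 (v - y) le_rfl c5.le (hv.trans p2))
    rw [r2] at sp2
    rw [hrd]
    have h3 := norm_add_le ((∫ x in Ioi (1 / 2 : ℝ), F₁ (x + y * Complex.I) * gk t s (x + y * Complex.I)) -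
      ∫ x : ℝ, ((x / (2 * t) : ℝ) : ℂ) * J x) (∫ x : ℝ, ((x / (2 * t) : ℝ) : ℂ) * J x)
    rw [sub_add_cancel] at h3
    refine h3.trans ?_
    have h4 : (β + |y₁ - y|) * (((2 * a + 4) / η + 2) * ℓ * (‖W‖ * Ex)) ≤ ‖W‖ := by
      calc (β + |y₁ - y|) * (((2 * a + 4) / η + 2) * ℓ * (‖W‖ * Ex)) ≤ (a + 2) * (((2 * a + 4) / η + 2) * ℓ * (‖W‖ * Ex)) := by
            refine mul_le_mul_of_nonneg_right hsum ?_
            positivity
        _ = ((a + 2) * (((2 * a + 4) / η + 2) * ℓ) * Ex) * ‖W‖ := by ring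
        _ ≤ 1 * ‖W‖ := by gcongr
        _ = _ := one_mul _
    linarith

end Pool.Agent.H487.NZ
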